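import Pool.Agent.TH192.MU.WDefs

/-!
# Functions on smooth complete intersections: definitions
-/

set_option autoImplicit false
set_option linter.unusedSectionVars false

namespace Pool.Agent.Q221.Sm

open MvPolynomial Pool.Agent.W428.MOT Pool.Agent.TH192.MT Pool.Agent.TH192.MU

/-! ### Functional equations -/

section fam

variable {A : Type} [CommRing A] [Algebra ℂ A]

/-- The families of operators, polynomial in `s`, generated by the multiplications by the elements of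
`A` and the derivations in `Θ`. -/
def famG (Θ : Set (Derivation ℂ A A)) : Subalgebra ℂ (ℕ → Module.End ℂ A) :=
  Algebra.adjoin ℂ (({P | ∃ c : A, P = fun _ => LinearMap.mulLeft ℂ c} ∪
    {P | ∃ θ ∈ Θ, P = fun _ => (θ : A →ₗ[ℂ] A)}) ∪
    {fun s : ℕ => (s : ℂ) • (1 : Module.End ℂ A)})

end fam

variable {σ : Type} {r : ℕ}

/-- `b` is a `b`-function of `f` on the variety `X` defined by the `g_k`: `P(s) f ^ (s + 1) = b(s) f ^ s`
on `X`, for some `P(s)` in the algebra generated by `s` and by the functions and the vector fields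
on `X`. -/
def IsBX (f : MvPolynomial σ ℂ) (g : Fin r → MvPolynomial σ ℂ) (b : Polynomial ℂ) : Prop :=
  ∃ P ∈ famG (Set.univ : Set (Derivation ℂ (MvPolynomial σ ℂ ⧸ Ideal.span (Set.range g))
      (MvPolynomial σ ℂ ⧸ Ideal.span (Set.range g)))), ∀ s : ℕ,
    P s (Ideal.Quotient.mk _ f ^ (s + 1)) = b.eval (s : ℂ) • Ideal.Quotient.mk _ f ^ s

/-- the Jacobian matrix of some columns -/
noncomputable def jm (g : Fin r → MvPolynomial σ ℂ) (ι : Fin r → σ) :
    Matrix (Fin r) (Fin r) (MvPolynomial σ ℂ) :=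
  Matrix.of fun k l => pderiv (ι l) (g k)

/-- The `g_k` define a smooth complete intersection: at each of their common zeros some minor of order
`r` of the Jacobian matrix is not zero. -/
def IsCI (g : Fin r → MvPolynomial σ ℂ) : Prop :=
  ∀ x : σ → ℂ, (∀ k, eval x (g k) = 0) → ∃ ι : Fin r → σ, eval x (jm g ι).det ≠ 0

/-- the polynomial `f + ∑ y_k g_k` in the variables `x_1, …, x_n, y_1, …, y_r` -/
noncomputable def FN {n r : ℕ} (f : MvPolynomial (Fin n) ℂ) (g : Fin r → MvPolynomial (Fin n) ℂ) :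
    MvPolynomial (Fin (n + r)) ℂ :=
  rename (Fin.castAdd r) f + ∑ k, X (Fin.natAdd n k) * rename (Fin.castAdd r) (g k)

/-! ### Zeta functions -/

/-- The pairs of a `w ≠ 0` and of a `d`-jet `φ` of the variety `g_1 = ⋯ = g_r = 0` with
`f(φ) = w ^ k t ^ d mod t ^ (d + 1)`. -/
def JetCX (g : Fin r → MvPolynomial σ ℂ) (f : MvPolynomial σ ℂ) (k d : ℕ) :
    Set (Pt ℂ (Unit ⊕ σ × Fin (d + 1))) :=
  {z | z ∈ JetC f k d ∧ ∀ i, ∀ j < d + 1,
    PowerSeries.coeff j (aeval (ar fun p => z (Sum.inr p)) (g i)) = 0}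

/-- The power series `∑_{d ≥ 1} [U_{d,k}] 𝕃 ^ (-(n - r) d) T ^ d`, where `U_{d,k}` is the set of the
pairs of a `d`-jet `φ` of the variety `g_1 = ⋯ = g_r = 0` in `𝔸 ^ n` and a `w ≠ 0` with
`f(φ) = w ^ k t ^ d mod t ^ (d + 1)`. -/
noncomputable def zetaCX [Fintype σ] (g : Fin r → MvPolynomial σ ℂ)
    (f : MvPolynomial σ ℂ) (k : ℕ) : PowerSeries (MK ℂ) :=
  PowerSeries.mk fun d => if d = 0 then 0 else
    algebraMap (K0 ℂ) (MK ℂ) (cls (Unit ⊕ σ × Fin (d + 1)) (JetCX g f k d)) *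
      (((Lu ℂ) ^ (-(((Fintype.card σ - r) * d : ℕ) : ℤ)) : (MK ℂ)ˣ) : MK ℂ)

/-- The twisted topological zeta function `Z` for the integer `e` of `f` on the variety
`g_1 = ⋯ = g_r = 0` (see `IsTwistedTop` for the case of an affine space). -/
def IsTwistedTopX {R : Type} [CommRing R] (E : MK ℂ →+* R) (ε : R →+* ℂ) [Fintype σ]
    (g : Fin r → MvPolynomial σ ℂ) (f : MvPolynomial σ ℂ) (e : ℕ) (Z : RatFunc ℂ) :
    Prop :=
  ∃ Y : ℕ → RatFunc ℂ, (∀ k, k ∣ e → IsTopZeta E ε (zetaCX g f k) (Y k)) ∧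
    (Nat.totient e : RatFunc ℂ) * Z =
      ∑ q ∈ e.divisorsAntidiagonal, ((ArithmeticFunction.moebius q.1 : ℤ) : RatFunc ℂ) * Y q.2

section mc

variable {R : Type} [CommRing R] (E : MK ℂ →+* R) (ε : R →+* ℂ)

/-- For every pole `s₀` of the twisted topological zeta function `Z^(e)` of `f` on the variety
`g_1 = ⋯ = g_r = 0` and every `b` with `b(s) f ^ s = P(s) f ^ (s + 1)` there is an integer `j` with
`b(s₀ + j) = 0`. -/
def WeakTwX (e : ℕ) {n r : ℕ} (g : Fin r → MvPolynomial (Fin n) ℂ)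
    (f : MvPolynomial (Fin n) ℂ) : Prop :=
  ∀ Z : RatFunc ℂ, IsTwistedTopX E ε g f e Z → ∀ s₀ : ℂ, Z.denom.eval s₀ = 0 →
    ∀ b : Polynomial ℂ, IsBX f g b → ∃ j : ℤ, b.eval (s₀ + j) = 0

/-- Every pole `s₀ ≠ 0` of the twisted topological zeta function `Z^(e)` of `f` on the variety
`g_1 = ⋯ = g_r = 0` is a root of every `b` with `b(s) f ^ s = P(s) f ^ (s + 1)`. -/
def StrongTwX (e : ℕ) {n r : ℕ} (g : Fin r → MvPolynomial (Fin n) ℂ)
    (f : MvPolynomial (Fin n) ℂ) : Prop :=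
  ∀ Z : RatFunc ℂ, IsTwistedTopX E ε g f e Z → ∀ s₀ : ℂ, s₀ ≠ 0 → Z.denom.eval s₀ = 0 →
    ∀ b : Polynomial ℂ, IsBX f g b → b.eval s₀ = 0

end mc

end Pool.Agent.Q221.Sm
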