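import Pool.Agent.Q221.Sm.JetX

/-!
# Truncations of jets on smooth complete intersections
-/

set_option autoImplicit false
set_option linter.unusedSectionVars false

namespace Pool.Agent.Q221.Sm

open MvPolynomial Pool.Agent.W428.MOT Pool.Agent.TH192.MT Pool.Agent.TH192.MU
open Pool.Agent.Q223.ID Pool.Agent.Q223.TW

/-- the first order expansion -/
theorem taylor {k F σ : Type} [Field k] [Field F] [Algebra k F] [Fintype σ]
    (γ : σ → PowerSeries F) (v : σ → F) (m : ℕ) (p : MvPolynomial σ k) :
    ∃ E : PowerSeries F, aeval (fun i => γ i + PowerSeries.X ^ (m + 1) * PowerSeries.C (v i)) p =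
      aeval γ p + PowerSeries.X ^ (m + 1) * E ∧
      PowerSeries.constantCoeff E =
        ∑ i, v i * aeval (fun i => PowerSeries.constantCoeff (γ i)) (pderiv i p) := by
  classical
  have hcc : ∀ p : MvPolynomial σ k, PowerSeries.constantCoeff (aeval γ p) =
      aeval (fun i => PowerSeries.constantCoeff (γ i)) p := by
    intro p
    induction p using MvPolynomial.induction_on with
    | C a =>
      rw [algHom_C, algHom_C, PowerSeries.algebraMap_apply, PowerSeries.constantCoeff_C]
    | add p q hp hq => rw [map_add, map_add, map_add, hp, hq]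
    | mul_X p i hp => rw [map_mul, map_mul, map_mul, hp, aeval_X, aeval_X]
  induction p using MvPolynomial.induction_on with
  | C a =>
    refine ⟨0, ?_, ?_⟩
    · rw [algHom_C, algHom_C, mul_zero, add_zero]
    · rw [map_zero]
      refine (Finset.sum_eq_zero fun i _ => ?_).symm
      rw [pderiv_C, map_zero, mul_zero]
  | add p q hp hq =>
    obtain ⟨E, h1, h2⟩ := hp
    obtain ⟨E', h3, h4⟩ := hq
    refine ⟨E + E', ?_, ?_⟩
    · rw [map_add, map_add, h1, h3]
      ring
    · rw [map_add, h2, h4, ← Finset.sum_add_distrib]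
      exact Finset.sum_congr rfl fun i _ => by rw [map_add, map_add, mul_add]
  | mul_X p j hp =>
    obtain ⟨E, h1, h2⟩ := hp
    refine ⟨E * γ j + aeval γ p * PowerSeries.C (v j) +
      PowerSeries.X ^ (m + 1) * (E * PowerSeries.C (v j)), ?_, ?_⟩
    · rw [map_mul, map_mul, h1, aeval_X, aeval_X]
      ring
    · rw [map_add, map_add, map_mul, map_mul, map_mul, map_pow, PowerSeries.constantCoeff_X,
        zero_pow (Nat.succ_ne_zero m), zero_mul, add_zero, h2, hcc, PowerSeries.constantCoeff_C,
        Finset.sum_mul]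
      have h5 : ∀ i, v i * aeval (fun i => PowerSeries.constantCoeff (γ i)) (pderiv i (p * X j)) =
          v i * aeval (fun i => PowerSeries.constantCoeff (γ i)) (pderiv i p) *
            PowerSeries.constantCoeff (γ j) +
          (if i = j then aeval (fun i => PowerSeries.constantCoeff (γ i)) p * v i else 0) := by
        intro i
        rw [Derivation.leibniz, pderiv_X, map_add, smul_eq_mul, smul_eq_mul, map_mul, map_mul,
          aeval_X]
        by_cases h : i = j
        · subst h
          rw [Pi.single_eq_same, map_one, if_pos rfl]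
          ring
        · rw [if_neg h, Pi.single_eq_of_ne (Ne.symm h), map_zero]
          ring
      rw [Finset.sum_congr rfl fun i _ => h5 i, Finset.sum_add_distrib, Finset.sum_ite_eq',
        if_pos (Finset.mem_univ j)]

section

variable {σ : Type} {r : ℕ} (g : Fin r → MvPolynomial σ ℂ) (f : MvPolynomial σ ℂ)
variable {R : Type} [CommRing R] (M : Meas ℂ R) [Fintype σ]

/-- free last coefficients -/
theorem chi_TS_succ (i j N : ℕ) (hi : i ≤ N + 1) (hj : j ≤ N + 1) :
    M.χ _ (TS g f i j (N + 1)) = M.χ _ (TS g f i j N) * M.L ^ Fintype.card σ := by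
  refine chi_split M (Equiv.ofBijective _ (lastE_bij σ N)) _ _ (constr_TS g f i j N)
    fun z => ?_
  have h1 : ∀ (p : MvPolynomial σ ℂ), ∀ k ≤ N, PowerSeries.coeff k (aeval (ar z) p) =
      PowerSeries.coeff k (aeval (ar fun i => z ((Equiv.ofBijective _ (lastE_bij σ N))
        (Sum.inl i))) p) := by
    intro p
    refine coeff_congr p N _ _ fun i k hk => ?_
    rw [coeff_ar' _ _ _ (by omega), coeff_ar' _ _ _ (by omega)]
    rfl
  constructor
  · intro h
    refine ⟨fun k l hl => ?_, fun l hl => ?_⟩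
    · rw [← h1 (g k) l (by omega)]
      exact h.1 k l hl
    · rw [← h1 f l (by omega)]
      exact h.2 l hl
  · intro h
    refine ⟨fun k l hl => ?_, fun l hl => ?_⟩
    · rw [h1 (g k) l (by omega)]
      exact h.1 k l hl
    · rw [h1 f l (by omega)]
      exact h.2 l hl

theorem chi_TS_add (i j N l : ℕ) (hi : i ≤ N + 1) (hj : j ≤ N + 1) :
    M.χ _ (TS g f i j (N + l)) = M.χ _ (TS g f i j N) * M.L ^ (Fintype.card σ * l) := by
  induction l with
  | zero => rw [mul_zero, pow_zero, mul_one, add_zero]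
  | succ l ih =>
    rw [← add_assoc, chi_TS_succ g f M i j (N + l) (by omega) (by omega), ih, mul_assoc, ← pow_add,
      Nat.mul_succ]

/-- the jets on which `f` has the order `m` -/
theorem chi_TS_split (m : ℕ) : M.χ _ (TS g f (m + 1) m m) =
    M.χ _ (JetCX g f 1 m) + M.χ _ (TS g f (m + 1) (m + 1) m) := by
  have hsub : TS g f (m + 1) (m + 1) m ⊆ TS g f (m + 1) m m :=
    fun _ hz => ⟨hz.1, fun l hl => hz.2 l (by omega)⟩
  have h1 := chi_diff M (constr_TS g f (m + 1) m m) (constr_TS g f (m + 1) (m + 1) m) hsub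
  have hC : Constr (TS g f (m + 1) m m \ TS g f (m + 1) (m + 1) m) := by
    rw [Set.sdiff_eq]
    exact (constr_TS g f (m + 1) m m).inter (constr_TS g f (m + 1) (m + 1) m).compl
  have h2 : M.χ _ (JetCX g f 1 m) = M.χ _ (TS g f (m + 1) m m \ TS g f (m + 1) (m + 1) m) := by
    refine M.iso _ _ (constr_JetCX g f 1 m) hC (fun z p => z (Sum.inr p))
      (fun w => Sum.elim (fun _ => PowerSeries.coeff m (aeval (ar w) f)) w)
      (regularOn_poly (fun i => IsPF.coord _) _) (regularOn_poly (fun i => ?_) _) ?_ ?_ ?_ ?_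
    · rcases i with i | i
      · exact isPF_coeff f m
      · exact IsPF.coord _
    · rintro z ⟨⟨h3, -, h4, h5⟩, h6⟩
      refine ⟨⟨h6, h4⟩, fun h7 => ?_⟩
      have h8 : PowerSeries.coeff m (aeval (ar fun p => z (Sum.inr p)) f) = 0 :=
        h7.2 m (Nat.lt_succ_self m)
      apply h3
      have h9 : PowerSeries.coeff m (aeval (ar fun p => z (Sum.inr p)) f) = z (Sum.inl ()) ^ 1 := h5
      rw [h8, pow_one] at h9
      exact h9.symm
    · rintro w ⟨⟨h3, h4⟩, h5⟩
      refine ⟨⟨fun h6 => h5 ⟨h3, fun l hl => ?_⟩, trivial, h4, ?_⟩, h3⟩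
      · rcases Nat.lt_succ_iff_lt_or_eq.1 hl with h7 | rfl
        · exact h4 l h7
        · exact h6
      · show PowerSeries.coeff m (aeval (ar w) f) = (PowerSeries.coeff m (aeval (ar w) f)) ^ 1
        rw [pow_one]
    · rintro z ⟨⟨-, -, -, h5⟩, -⟩
      funext i
      rcases i with i | i
      · have h9 : PowerSeries.coeff m (aeval (ar fun p => z (Sum.inr p)) f) =
          z (Sum.inl ()) ^ 1 := h5
        rw [pow_one] at h9
        exact h9
      · rfl
    · intro w _
      rfl
  rw [h2, h1]
  ring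

/-- some minor does not vanish, over the algebraic closure -/
theorem exists_minor {g : Fin r → MvPolynomial σ ℂ} (hg : IsCI g) {F : Type} [Field F]
    [Algebra ℂ F] (x : σ → F) (hx : ∀ k, aeval x (g k) = 0) :
    ∃ ι : Fin r → σ, aeval x (jm g ι).det ≠ 0 := by
  by_contra hcon
  push Not at hcon
  have h1 : Ideal.span (Set.range g ∪ Set.range fun ι : Fin r → σ => (jm g ι).det) ≤
      RingHom.ker (aeval x : MvPolynomial σ ℂ →ₐ[ℂ] F) := by
    rw [Ideal.span_le]
    rintro _ (⟨k, rfl⟩ | ⟨ι, rfl⟩)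
    · exact hx k
    · exact hcon ι
  rw [isCI_span hg] at h1
  have h2 := h1 (Submodule.mem_top (x := (1 : MvPolynomial σ ℂ)))
  rw [RingHom.mem_ker, map_one] at h2
  exact one_ne_zero h2

theorem jac_surj {g : Fin r → MvPolynomial σ ℂ} (hg : IsCI g) {F : Type} [Field F]
    [Algebra ℂ F] (x : σ → F) (hx : ∀ k, aeval x (g k) = 0) (v : Fin r → F) :
    ∃ y : σ → F, ∀ k, ∑ i, aeval x (pderiv i (g k)) * y i = v k := by
  classical
  obtain ⟨ι, hι⟩ := exists_minor hg x hx
  set A : Matrix (Fin r) (Fin r) F := (jm g ι).map (aeval x) with hA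
  have hdet : IsUnit A.det := by
    have h1 : A.det = aeval x (jm g ι).det := by
      rw [hA]
      exact (AlgHom.map_det _ _).symm
    rw [h1]
    exact isUnit_iff_ne_zero.2 hι
  have hinv : A * A⁻¹ = 1 := Matrix.mul_nonsing_inv A hdet
  set u := A⁻¹.mulVec v with hu
  have hAu : A.mulVec u = v := by
    rw [hu, Matrix.mulVec_mulVec, hinv, Matrix.one_mulVec]
  refine ⟨fun i => ∑ l, if ι l = i then u l else 0, fun k => ?_⟩
  have h1 := congrFun hAu k
  rw [← h1, Matrix.mulVec, dotProduct]
  simp only [Finset.mul_sum]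
  rw [Finset.sum_comm]
  refine Finset.sum_congr rfl fun l _ => ?_
  rw [Finset.sum_eq_single (ι l)]
  · rw [if_pos rfl]
    rfl
  · intro i _ hi
    rw [if_neg (Ne.symm hi), mul_zero]
  · intro h
    exact absurd (Finset.mem_univ _) h

/-- **The truncations are affine bundles.** -/
theorem chi_TS_smooth {g : Fin r → MvPolynomial σ ℂ} (hg : IsCI g) (f : MvPolynomial σ ℂ)
    (N : ℕ) : M.χ _ (TS g f (N + 2) (N + 1) (N + 1)) =
      M.χ _ (TS g f (N + 1) (N + 1) N) * M.L ^ (Fintype.card σ - r) := by
  classical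
  set e : (σ × Fin (N + 1)) ⊕ σ ≃ σ × Fin (N + 1 + 1) := Equiv.ofBijective _ (lastE_bij σ N) with he
  rw [chi_reindex M e (constr_TS g f (N + 2) (N + 1) (N + 1))]
  have har : ∀ (w : Pt ℂ ((σ × Fin (N + 1)) ⊕ σ)), (ar fun j => w (e.symm j)) =
      fun i => ar (fun p => w (Sum.inl p)) i +
        PowerSeries.X ^ (N + 1) * PowerSeries.C (w (Sum.inr i)) := by
    intro w
    funext i
    ext j
    rw [map_add, PowerSeries.coeff_X_pow_mul', PowerSeries.coeff_C]
    rcases Nat.lt_trichotomy j (N + 1) with h | h | h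
    · rw [coeff_ar' _ _ _ (by omega : j < N + 1 + 1), coeff_ar' _ _ _ h, if_neg (by omega), add_zero]
      have h1 : (i, (⟨j, by omega⟩ : Fin (N + 1 + 1))) = e (Sum.inl (i, ⟨j, h⟩)) := rfl
      rw [h1, Equiv.symm_apply_apply]
    · subst h
      rw [coeff_ar' _ _ _ (by omega : N + 1 < N + 1 + 1), if_pos le_rfl, Nat.sub_self, if_pos rfl]
      have h1 : (i, (⟨N + 1, by omega⟩ : Fin (N + 1 + 1))) = e (Sum.inr i) := rfl
      have h2 : PowerSeries.coeff (N + 1) (ar (fun p => w (Sum.inl p)) i) = 0 := by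
        rw [ar, PowerSeries.coeff_mk, dif_neg (by omega)]
      rw [h1, Equiv.symm_apply_apply, h2, zero_add]
    · have h2 : PowerSeries.coeff j (ar (fun p => w (Sum.inl p)) i) = 0 := by
        rw [ar, PowerSeries.coeff_mk, dif_neg (by omega)]
      have h3 : PowerSeries.coeff j (ar (fun j => w (e.symm j)) i) = 0 := by
        rw [ar, PowerSeries.coeff_mk, dif_neg (by omega)]
      rw [h2, h3, if_pos (by omega), if_neg (by omega), add_zero]
  have hlow : ∀ (w : Pt ℂ ((σ × Fin (N + 1)) ⊕ σ)) (p : MvPolynomial σ ℂ) (l : ℕ), l < N + 1 →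
      PowerSeries.coeff l (aeval (ar fun j => w (e.symm j)) p) =
        PowerSeries.coeff l (aeval (ar fun p => w (Sum.inl p)) p) := by
    intro w p l hl
    obtain ⟨E, h1, -⟩ := taylor (ar fun p => w (Sum.inl p)) (fun i => w (Sum.inr i)) N p
    rw [har, h1, map_add, PowerSeries.coeff_X_pow_mul', if_neg (by omega), add_zero]
  have htop : ∀ (w : Pt ℂ ((σ × Fin (N + 1)) ⊕ σ)) (p : MvPolynomial σ ℂ),
      PowerSeries.coeff (N + 1) (aeval (ar fun j => w (e.symm j)) p) =
        PowerSeries.coeff (N + 1) (aeval (ar fun p => w (Sum.inl p)) p) +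
          ∑ i, aeval (fun i => w (Sum.inl (i, 0))) (pderiv i p) * w (Sum.inr i) := by
    intro w p
    obtain ⟨E, h1, h2⟩ := taylor (ar fun p => w (Sum.inl p)) (fun i => w (Sum.inr i)) N p
    rw [har, h1, map_add, PowerSeries.coeff_X_pow_mul', if_pos le_rfl, Nat.sub_self,
      PowerSeries.coeff_zero_eq_constantCoeff_apply, h2]
    congr 1
    refine Finset.sum_congr rfl fun i _ => ?_
    rw [mul_comm]
    congr 3
  have hset : {w : Pt ℂ ((σ × Fin (N + 1)) ⊕ σ) | (fun j => w (e.symm j)) ∈
      TS g f (N + 2) (N + 1) (N + 1)} = {w | (fun p => w (Sum.inl p)) ∈ TS g f (N + 1) (N + 1) N ∧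
        ∀ k : Fin r, ∑ i, aeval (fun i => (fun p => w (Sum.inl p)) (i, 0)) (pderiv i (g k)) *
          w (Sum.inr i) = - PowerSeries.coeff (N + 1) (aeval (ar fun p => w (Sum.inl p)) (g k))} := by
    ext w
    constructor
    · rintro ⟨h1, h2⟩
      refine ⟨⟨fun k l hl => ?_, fun l hl => ?_⟩, fun k => ?_⟩
      · rw [← hlow w (g k) l hl]
        exact h1 k l (by omega)
      · rw [← hlow w f l hl]
        exact h2 l hl
      · have h3 := h1 k (N + 1) (by omega)
        rw [htop] at h3
        exact eq_neg_of_add_eq_zero_right h3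
    · rintro ⟨⟨h1, h2⟩, h3⟩
      refine ⟨fun k l hl => ?_, fun l hl => ?_⟩
      · by_cases h : l < N + 1
        · rw [hlow w (g k) l h]
          exact h1 k l h
        · obtain rfl : l = N + 1 := by omega
          rw [htop]
          have h4 := h3 k
          rw [h4]
          exact add_neg_cancel _
      · rw [hlow w f l hl]
        exact h2 l hl
  rw [hset]
  refine chi_lin M (constr_TS g f (N + 1) (N + 1) N)
    (B := fun k i z => aeval (fun i => z (i, 0)) (pderiv i (g k)))
    (c := fun k z => - PowerSeries.coeff (N + 1) (aeval (ar z) (g k))) (fun k i => ?_)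
    (fun k => (isPF_coeff (g k) (N + 1)).neg) ?_
  · exact (IsPF.poly (pderiv i (g k))).comp (fun z : Pt ℂ (σ × Fin (N + 1)) => fun i => z (i, 0))
      fun _ => IsPF.coord _
  · rintro z ⟨h1, -⟩ v
    refine jac_surj hg _ (fun k => ?_) v
    have h2 := h1 k 0 (Nat.succ_pos N)
    rw [PowerSeries.coeff_zero_eq_constantCoeff_apply] at h2
    have hcc : ∀ p : MvPolynomial σ ℂ, PowerSeries.constantCoeff (aeval (ar z) p) =
        aeval (fun i => z (i, 0)) p := by
      intro p
      induction p using MvPolynomial.induction_on with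
      | C a =>
        rw [algHom_C, algHom_C, PowerSeries.algebraMap_apply, PowerSeries.constantCoeff_C]
      | add p q hp hq => rw [map_add, map_add, map_add, hp, hq]
      | mul_X p i hp =>
        rw [map_mul, map_mul, map_mul, hp, aeval_X, aeval_X,
          ← PowerSeries.coeff_zero_eq_constantCoeff_apply, coeff_ar' _ _ _ (Nat.succ_pos N)]
        rfl
    rw [hcc] at h2
    exact h2

end

end Pool.Agent.Q221.Sm
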