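import Pool.Agent.Q221.Sm.Tay

/-!
# The functional equation of `φ = f + ∑ y_k g_k`
-/

set_option autoImplicit false
set_option linter.unusedSectionVars false

namespace Pool.Agent.Q221.Sm

open Polynomial

variable {A : Type} [CommRing A] [Algebra ℂ A]
variable {A' : Type} [CommRing A'] [Algebra ℂ A'] [Algebra A A'] [IsScalarTower ℂ A A']

/-- the sequences `Q_M(φ ^ M)` -/
def Nm (φ : A') (e : ℕ → A') : Prop :=
  ∃ Q ∈ famG (Set.univ : Set (Derivation ℂ A' A')), ∀ M, e M = Q M (φ ^ M)

theorem Nm.add {φ : A'} {e e' : ℕ → A'} (h : Nm φ e) (h' : Nm φ e') :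
    Nm φ (fun M => e M + e' M) := by
  obtain ⟨Q, hQ, h⟩ := h
  obtain ⟨Q', hQ', h'⟩ := h'
  exact ⟨Q + Q', (famG _).add_mem hQ hQ', fun M => by beta_reduce; rw [h, h']; rfl⟩

theorem Nm.op {φ : A'} {e : ℕ → A'} {P : ℕ → Module.End ℂ A'}
    (hP : P ∈ famG (Set.univ : Set (Derivation ℂ A' A'))) (h : Nm φ e) :
    Nm φ (fun M => P M (e M)) := by
  obtain ⟨Q, hQ, h⟩ := h
  exact ⟨P * Q, (famG _).mul_mem hP hQ, fun M => by beta_reduce; rw [h]; rfl⟩

theorem Nm.mul {φ : A'} {e : ℕ → A'} (c : A') (h : Nm φ e) : Nm φ (fun M => c * e M) :=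
  h.op (famG_mul c)

theorem Nm.der {φ : A'} {e : ℕ → A'} (D : Derivation ℂ A' A') (h : Nm φ e) :
    Nm φ (fun M => D (e M)) :=
  h.op (famG_der (Set.mem_univ D))

theorem Nm.poly {φ : A'} {e : ℕ → A'} (B : ℂ[X]) (h : Nm φ e) :
    Nm φ (fun M => B.eval (M : ℂ) • e M) :=
  h.op (famG_poly B)

theorem Nm.neg {φ : A'} {e : ℕ → A'} (h : Nm φ e) : Nm φ (fun M => - e M) := by
  have := h.mul (-1)
  simpa using this

theorem Nm.sub {φ : A'} {e e' : ℕ → A'} (h : Nm φ e) (h' : Nm φ e') :
    Nm φ (fun M => e M - e' M) := by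
  have := h.add h'.neg
  simpa [sub_eq_add_neg] using this

theorem Nm.zero {φ : A'} : Nm φ (fun _ => (0 : A')) :=
  ⟨0, (famG _).zero_mem, fun _ => rfl⟩

theorem Nm.pow {φ : A'} : Nm φ (fun M => φ ^ M) :=
  ⟨1, (famG _).one_mem, fun _ => rfl⟩

theorem Nm.sum {φ : A'} {ι : Type} (T : Finset ι) {e : ι → ℕ → A'} (h : ∀ i ∈ T, Nm φ (e i)) :
    Nm φ (fun M => ∑ i ∈ T, e i M) := by
  classical
  induction T using Finset.induction_on with
  | empty => simpa using Nm.zero
  | insert a T ha ih =>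
    have := (h a (Finset.mem_insert_self _ _)).add
      (ih fun i hi => h i (Finset.mem_insert_of_mem hi))
    simpa only [Finset.sum_insert ha] using this

/-- the polynomials whose sequence is of this form -/
def Gd (φ : A') (u : A[X]) : Prop := Nm φ (fun M => Rz φ M u)

theorem Gd.add {φ : A'} {u v : A[X]} (h : Gd φ u) (h' : Gd φ v) : Gd φ (u + v) := by
  have := Nm.add h h'
  unfold Gd
  simpa only [map_add] using this

theorem Gd.sub {φ : A'} {u v : A[X]} (h : Gd φ u) (h' : Gd φ v) : Gd φ (u - v) := by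
  have := Nm.sub h h'
  unfold Gd
  simpa only [map_sub] using this

theorem Gd.zero {φ : A'} : Gd φ (0 : A[X]) := by
  unfold Gd
  simpa only [map_zero] using Nm.zero

theorem Gd.one {φ : A'} : Gd φ (1 : A[X]) := by
  have h : (1 : A[X]) = monomial 0 1 := by simp
  unfold Gd
  rw [h]
  have := Nm.pow (φ := φ)
  simpa only [Rz_monomial, Nat.descFactorial_zero, Nat.cast_one, one_mul, Nat.sub_zero, map_one,
    mul_one] using this

theorem Gd.smul {φ : A'} {u : A[X]} (z : ℂ) (h : Gd φ u) : Gd φ (z • u) := by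
  have := Nm.mul (algebraMap ℂ A' z) h
  unfold Gd
  simpa only [map_smul, ← Algebra.smul_def] using this

theorem Gd.C_mul {φ : A'} {u : A[X]} (c : A) (h : Gd φ u) : Gd φ (C c * u) := by
  have := Nm.mul (algebraMap A A' c) h
  unfold Gd
  simpa only [Rz_C_mul] using this

theorem Gd.sum {φ : A'} {ι : Type} (T : Finset ι) {u : ι → A[X]} (h : ∀ i ∈ T, Gd φ (u i)) :
    Gd φ (∑ i ∈ T, u i) := by
  have := Nm.sum T (e := fun i M => Rz φ M (u i)) h
  unfold Gd
  simpa only [map_sum] using this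

theorem Gd.actD {φ : A'} {θ : Derivation ℂ A A} {h : A}
    (hD : ∃ D : Derivation ℂ A' A', (∀ a, D (algebraMap A A' a) = algebraMap A A' (θ a)) ∧
      D φ = algebraMap A A' h) {u : A[X]} (hu : Gd φ u) : Gd φ (DU θ h u) := by
  obtain ⟨D, h1, h2⟩ := hD
  have := Nm.der D hu
  unfold Gd
  simpa only [Rz_DU φ _ θ h D h1 h2] using this

theorem Gd.actS {φ : A'} {f : A} {N : Derivation ℂ A' A'} (hN : ∀ a, N (algebraMap A A' a) = 0)
    (hφ : N φ = φ - algebraMap A A' f) {u : A[X]} (hu : Gd φ u) : Gd φ (SU f u) := by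
  have h1 := (hu.op famG_nat).sub (Nm.der N hu)
  unfold Gd
  simp only [Rz_SU φ _ f N hN hφ]
  exact h1

section ideal

variable {r : ℕ} {g : Fin r → A}

theorem Gd.ideal {φ : A'} (hg : ∀ k, ∃ D : Derivation ℂ A' A', (∀ a, D (algebraMap A A' a) = 0) ∧
      D φ = algebraMap A A' (g k)) (j : ℕ) :
    ∀ a ∈ Ideal.span (Set.range g) ^ j, Gd φ (monomial j a) := by
  induction j with
  | zero =>
    intro a _
    have := (Gd.one (A := A) (φ := φ)).C_mul a
    rwa [mul_one] at this
  | succ j ih =>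
    intro a ha
    rw [pow_succ'] at ha
    refine Submodule.mul_induction_on ha (fun x hx y hy => ?_) fun x y hx hy => ?_
    · induction hx using Submodule.span_induction with
      | mem x hx =>
        obtain ⟨k, rfl⟩ := hx
        obtain ⟨D, h1, h2⟩ := hg k
        have h3 : monomial (j + 1) (g k * y) = DU (0 : Derivation ℂ A A) (g k) (monomial j y) := by
          rw [DU_monomial, Derivation.zero_apply, map_zero, zero_add]
        rw [h3]
        exact Gd.actD ⟨D, fun a => by rw [h1, Derivation.zero_apply, map_zero], h2⟩ (ih y hy)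
      | zero =>
        rw [zero_mul, map_zero]
        exact Gd.zero
      | add x x' _ _ hx hx' =>
        rw [add_mul, map_add]
        exact hx.add hx'
      | smul c x _ hx =>
        have h3 : monomial (j + 1) (c • x * y) = C c * monomial (j + 1) (x * y) := by
          rw [C_mul_monomial, smul_eq_mul, mul_assoc]
        rw [h3]
        exact hx.C_mul c
    · rw [map_add]
      exact hx.add hy

end ideal

/-- polynomials in the action of `s` -/
noncomputable def PU (f : A) (B : ℂ[X]) (u : A[X]) : A[X] :=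
  ∑ n ∈ Finset.range (B.natDegree + 1), B.coeff n • ((SU f) ^ n) u

theorem Gd.actSpow {φ : A'} {f : A} {N : Derivation ℂ A' A'} (hN : ∀ a, N (algebraMap A A' a) = 0)
    (hφ : N φ = φ - algebraMap A A' f) (n : ℕ) : ∀ {u : A[X]}, Gd φ u → Gd φ (((SU f) ^ n) u) := by
  induction n with
  | zero => exact fun h => h
  | succ n ih =>
    intro u hu
    rw [pow_succ, Module.End.mul_apply]
    exact ih (Gd.actS hN hφ hu)

theorem Gd.actP {φ : A'} {f : A} {N : Derivation ℂ A' A'} (hN : ∀ a, N (algebraMap A A' a) = 0)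
    (hφ : N φ = φ - algebraMap A A' f) (B : ℂ[X]) {u : A[X]} (hu : Gd φ u) : Gd φ (PU f B u) :=
  Gd.sum _ fun n _ => (Gd.actSpow hN hφ n hu).smul _

theorem PU_add (f : A) (B : ℂ[X]) (u v : A[X]) : PU f B (u + v) = PU f B u + PU f B v := by
  simp only [PU, map_add, smul_add, Finset.sum_add_distrib]

theorem PU_comm {f : A} {U : A[X] →ₗ[ℂ] A[X]} (hU : ∀ u, U (SU f u) = SU f (U u)) (B : ℂ[X])
    (u : A[X]) : U (PU f B u) = PU f B (U u) := by
  have h1 : ∀ n u, U (((SU f) ^ n) u) = ((SU f) ^ n) (U u) := by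
    intro n
    induction n with
    | zero => intro u; rfl
    | succ n ih =>
      intro u
      rw [pow_succ, Module.End.mul_apply, ih, hU, Module.End.mul_apply]
  simp only [PU, map_sum, map_smul, h1]

theorem Dg_pow {U : A[X] →ₗ[ℂ] A[X]} (h : Dg U 1) (n : ℕ) : Dg (U ^ n) n := by
  induction n with
  | zero =>
    intro d u hu m hm
    rw [pow_zero, Module.End.one_apply]
    exact hu m (by omega)
  | succ n ih =>
    intro d u hu m hm
    rw [pow_succ', Module.End.mul_apply]
    exact h (d + n) _ (ih d u hu) m (by omega)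

theorem PU_coeff {f : A} {B : ℂ[X]} {u : A[X]} {d : ℕ} (hu : ∀ n, d ≤ n → u.coeff n = 0) :
    ∀ n, d + B.natDegree ≤ n → (PU f B u).coeff n = 0 := by
  intro n hn
  rw [PU, Polynomial.finsetSum_coeff]
  refine Finset.sum_eq_zero fun m hm => ?_
  have h1 := Finset.mem_range.1 hm
  rw [Polynomial.coeff_smul, Dg_pow (Dg_SU f) m d u hu n (by omega), smul_zero]

/-- on the sequences of `f` itself, `s` acts as `M` -/
theorem Rz_PU (f : A) (M : ℕ) (B : ℂ[X]) (u : A[X]) :
    Rz f M (PU f B u) = B.eval (M : ℂ) • Rz f M u := by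
  have h1 : ∀ n (u : A[X]), Rz f M (((SU f) ^ n) u) = ((M : ℂ) ^ n) • Rz f M u := by
    intro n
    induction n with
    | zero => intro u; rw [pow_zero, pow_zero, one_smul]; rfl
    | succ n ih =>
      intro u
      rw [pow_succ, Module.End.mul_apply, ih, Rz_SU f M f 0 (fun a => rfl) (by simp) u,
        Derivation.zero_apply, sub_zero, smul_smul, pow_succ]
  rw [PU, map_sum]
  simp only [map_smul, h1]
  rw [Polynomial.eval_eq_sum_range, Finset.sum_smul]
  refine Finset.sum_congr rfl fun n _ => ?_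
  rw [smul_smul]

/-- if `(N + ρ) e` is in the module, then `s` acts on `e` as `M + ρ` modulo the module -/
theorem Nm_PU {φ : A'} {f : A} {N : Derivation ℂ A' A'} (hN : ∀ a, N (algebraMap A A' a) = 0)
    (hφ : N φ = φ - algebraMap A A' f) (ρ : ℂ) (u : A[X])
    (hu : Nm φ fun M => N (Rz φ M u) + ρ • Rz φ M u) (B : ℂ[X]) :
    Nm φ fun M => Rz φ M (PU f B u) - B.eval ((M : ℂ) + ρ) • Rz φ M u := by
  have h1 : ∀ n, Nm φ fun M => Rz φ M (((SU f) ^ n) u) - (((M : ℂ) + ρ) ^ n) • Rz φ M u := by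
    intro n
    induction n with
    | zero =>
      have := Nm.zero (φ := φ)
      simpa using this
    | succ n ih =>
      have e1 := (ih.op famG_nat).sub (Nm.der N ih)
      have e2 := hu.poly ((Polynomial.X + Polynomial.C ρ) ^ n)
      have e3 := e1.sub e2
      convert e3 using 1
      funext M
      rw [pow_succ', Module.End.mul_apply, Rz_SU φ M f N hN hφ]
      simp only [LinearMap.smul_apply, Module.End.one_apply, map_sub, Derivation.map_smul,
        Polynomial.eval_pow, Polynomial.eval_add, Polynomial.eval_X, Polynomial.eval_C]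
      simp only [Algebra.smul_def, map_pow, map_add]
      ring
  have h2 := Nm.sum (Finset.range (B.natDegree + 1)) (φ := φ) (e := fun n M =>
    algebraMap ℂ A' (B.coeff n) * (Rz φ M (((SU f) ^ n) u) - (((M : ℂ) + ρ) ^ n) • Rz φ M u))
    fun n _ => (h1 n).mul _
  convert h2 using 1
  funext M
  rw [PU, map_sum, Polynomial.eval_eq_sum_range, Finset.sum_smul, ← Finset.sum_sub_distrib]
  refine Finset.sum_congr rfl fun n _ => ?_
  rw [map_smul, Algebra.smul_def, Algebra.smul_def, Algebra.smul_def, map_mul]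
  ring

end Pool.Agent.Q221.Sm
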