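import Pool.Agent.Q221.Sm.Frame
import Pool.Agent.W206.CU.BF2

/-!
# From the frames to polynomial rings
-/

set_option autoImplicit false
set_option linter.unusedSectionVars false

namespace Pool.Agent.Q221.Sm

open MvPolynomial Pool.Agent.W206.CU
open Pool.Agent.H628R4.TP (weylS)

section quot

variable {σ : Type} {A' : Type} [CommRing A'] [Algebra ℂ A'] [Algebra (MvPolynomial σ ℂ) A']
  [IsScalarTower ℂ (MvPolynomial σ ℂ) A']

/-- the lift of a derivation of the quotient -/
theorem exists_lift_der (I : Ideal (MvPolynomial σ ℂ))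
    (θ : Derivation ℂ (MvPolynomial σ ℂ ⧸ I) (MvPolynomial σ ℂ ⧸ I)) :
    ∃ D : Derivation ℂ (MvPolynomial σ ℂ) (MvPolynomial σ ℂ), ∀ a,
      Ideal.Quotient.mk I (D a) = θ (Ideal.Quotient.mk I a) := by
  have h : ∀ i : σ, ∃ c, Ideal.Quotient.mk I c = θ (Ideal.Quotient.mk I (X i)) := fun i =>
    Ideal.Quotient.mk_surjective _
  choose c hc using h
  refine ⟨mkDerivation ℂ c, fun a => ?_⟩
  induction a using MvPolynomial.induction_on with
  | C z =>
    have h0 : mkDerivation ℂ c (C z) = 0 := Derivation.map_algebraMap _ z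
    have h1 : Ideal.Quotient.mk I (C z) = algebraMap ℂ (MvPolynomial σ ℂ ⧸ I) z := rfl
    rw [h0, map_zero, h1, Derivation.map_algebraMap]
  | add p q hp hq => rw [map_add, map_add, map_add, map_add, hp, hq]
  | mul_X p i hp =>
    rw [Derivation.leibniz, map_add, mkDerivation_X, smul_eq_mul, smul_eq_mul, map_mul, map_mul,
      hp, hc, map_mul, Derivation.leibniz, smul_eq_mul, smul_eq_mul]

theorem exists_quot_lift {r : ℕ} (g : Fin r → MvPolynomial σ ℂ) (J : MvPolynomial σ ℂ)
    [IsLocalization.Away J A']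
    {P : ℕ → Module.End ℂ (MvPolynomial σ ℂ ⧸ Ideal.span (Set.range g))}
    (hP : P ∈ famG (Set.univ : Set (Derivation ℂ (MvPolynomial σ ℂ ⧸ Ideal.span (Set.range g))
      (MvPolynomial σ ℂ ⧸ Ideal.span (Set.range g))))) :
    ∃ (P₀ : ℕ → Module.End ℂ (MvPolynomial σ ℂ)) (P' : ℕ → Module.End ℂ A'),
      P' ∈ famG {θ : Derivation ℂ A' A' | ∀ a ∈ Ideal.span (Set.range fun k =>
        algebraMap (MvPolynomial σ ℂ) A' (g k)), θ a ∈ Ideal.span (Set.range fun k =>
        algebraMap (MvPolynomial σ ℂ) A' (g k))} ∧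
      ∀ M a, Ideal.Quotient.mk _ (P₀ M a) = P M (Ideal.Quotient.mk _ a) ∧
        algebraMap (MvPolynomial σ ℂ) A' (P₀ M a) = P' M (algebraMap (MvPolynomial σ ℂ) A' a) := by
  set I := Ideal.span (Set.range g) with hI
  set I' := Ideal.span (Set.range fun k => algebraMap (MvPolynomial σ ℂ) A' (g k)) with hI'
  have hmap : ∀ a ∈ I, algebraMap (MvPolynomial σ ℂ) A' a ∈ I' := by
    intro a ha
    have h1 : I ≤ I'.comap (algebraMap (MvPolynomial σ ℂ) A') := by
      rw [hI, Ideal.span_le]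
      rintro _ ⟨k, rfl⟩
      exact Ideal.subset_span ⟨k, rfl⟩
    exact h1 ha
  refine famG_induction (p := fun P => ∃ (P₀ : ℕ → Module.End ℂ (MvPolynomial σ ℂ))
      (P' : ℕ → Module.End ℂ A'), P' ∈ famG {θ : Derivation ℂ A' A' | ∀ a ∈ I', θ a ∈ I'} ∧
      ∀ M a, Ideal.Quotient.mk I (P₀ M a) = P M (Ideal.Quotient.mk I a) ∧
        algebraMap (MvPolynomial σ ℂ) A' (P₀ M a) = P' M (algebraMap (MvPolynomial σ ℂ) A' a))
    ?_ ?_ ?_ ?_ ?_ hP
  · intro c
    obtain ⟨b, rfl⟩ := Ideal.Quotient.mk_surjective c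
    refine ⟨fun _ => LinearMap.mulLeft ℂ b, _, famG_mul (algebraMap (MvPolynomial σ ℂ) A' b),
      fun M a => ⟨?_, ?_⟩⟩
    · rw [LinearMap.mulLeft_apply, LinearMap.mulLeft_apply, map_mul]
    · rw [LinearMap.mulLeft_apply, LinearMap.mulLeft_apply, map_mul]
  · intro θ _
    obtain ⟨D, hD⟩ := exists_lift_der I θ
    obtain ⟨D', hD'⟩ := exists_ext (A' := A') J D
    have hlog : D' ∈ {θ : Derivation ℂ A' A' | ∀ a ∈ I', θ a ∈ I'} := by
      intro a ha
      induction ha using Submodule.span_induction with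
      | mem x hx =>
        obtain ⟨k, rfl⟩ := hx
        beta_reduce
        rw [hD']
        refine hmap _ (Ideal.Quotient.eq_zero_iff_mem.1 ?_)
        have hgk : g k ∈ I := Ideal.subset_span ⟨k, rfl⟩
        rw [hD, Ideal.Quotient.eq_zero_iff_mem.2 hgk, map_zero]
      | zero => rw [map_zero]; exact I'.zero_mem
      | add x y _ _ hx hy => rw [map_add]; exact I'.add_mem hx hy
      | smul c x hx' hx =>
        rw [smul_eq_mul, Derivation.leibniz]
        exact I'.add_mem (I'.mul_mem_left _ hx) (I'.mul_mem_right _ hx')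
    refine ⟨fun _ => (D : MvPolynomial σ ℂ →ₗ[ℂ] MvPolynomial σ ℂ), _, famG_der hlog,
      fun M a => ⟨?_, ?_⟩⟩
    · rw [Derivation.coeFn_coe, Derivation.coeFn_coe, hD]
    · rw [Derivation.coeFn_coe, Derivation.coeFn_coe, hD']
  · refine ⟨fun s : ℕ => (s : ℂ) • (1 : Module.End ℂ (MvPolynomial σ ℂ)), _, famG_nat,
      fun M a => ⟨?_, ?_⟩⟩
    · rw [LinearMap.smul_apply, LinearMap.smul_apply, Module.End.one_apply, Module.End.one_apply]
      exact (Ideal.Quotient.mkₐ ℂ I).map_smul_of_tower _ _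
    · rw [LinearMap.smul_apply, LinearMap.smul_apply, Module.End.one_apply, Module.End.one_apply]
      exact (IsScalarTower.toAlgHom ℂ (MvPolynomial σ ℂ) A').map_smul_of_tower _ _
  · rintro P Q - - ⟨P₀, P', hP', h⟩ ⟨Q₀, Q', hQ', h'⟩
    refine ⟨P₀ + Q₀, P' + Q', (famG _).add_mem hP' hQ', fun M a => ⟨?_, ?_⟩⟩
    · rw [Pi.add_apply, LinearMap.add_apply, map_add, (h M a).1, (h' M a).1]
      rfl
    · rw [Pi.add_apply, LinearMap.add_apply, map_add, (h M a).2, (h' M a).2]
      rfl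
  · rintro P Q - - ⟨P₀, P', hP', h⟩ ⟨Q₀, Q', hQ', h'⟩
    refine ⟨P₀ * Q₀, P' * Q', (famG _).mul_mem hP' hQ', fun M a => ⟨?_, ?_⟩⟩
    · rw [Pi.mul_apply, Module.End.mul_apply, (h M _).1, (h' M a).1]
      rfl
    · rw [Pi.mul_apply, Module.End.mul_apply, (h M _).2, (h' M a).2]
      rfl

end quot

section desc

variable {σ : Type} {A' : Type} [CommRing A'] [Algebra ℂ A'] [Algebra (MvPolynomial σ ℂ) A']
  [IsScalarTower ℂ (MvPolynomial σ ℂ) A'] {r : ℕ}

/-- the polynomial ring in its localization -/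
noncomputable def kap (A' : Type) [CommRing A'] [Algebra ℂ A'] [Algebra (MvPolynomial σ ℂ) A']
    [IsScalarTower ℂ (MvPolynomial σ ℂ) A'] (r : ℕ) :
    MvPolynomial (σ ⊕ Fin r) ℂ →ₐ[ℂ] MvPolynomial (Fin r) A' :=
  aeval (Sum.elim (fun i => C (algebraMap (MvPolynomial σ ℂ) A' (X i))) X)

theorem kap_inl (a : MvPolynomial σ ℂ) :
    kap A' r (rename Sum.inl a) = C (algebraMap (MvPolynomial σ ℂ) A' a) := by
  rw [kap, aeval_rename]
  induction a using MvPolynomial.induction_on with
  | C z =>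
    have h1 : algebraMap (MvPolynomial σ ℂ) A' (C z) = algebraMap ℂ A' z :=
      (IsScalarTower.algebraMap_apply ℂ (MvPolynomial σ ℂ) A' z).symm
    rw [aeval_C, h1]
    exact IsScalarTower.algebraMap_apply ℂ A' (MvPolynomial (Fin r) A') z
  | add p q hp hq => rw [map_add, map_add, map_add, hp, hq]
  | mul_X p i hp =>
    rw [map_mul, map_mul, map_mul, hp, aeval_X]
    rfl

theorem kap_X (k : Fin r) : kap A' r (X (Sum.inr k) : MvPolynomial (σ ⊕ Fin r) ℂ) = X k := by
  rw [kap, aeval_X]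
  rfl

theorem kap_inj {J : MvPolynomial σ ℂ} (hJ : J ≠ 0) [IsLocalization.Away J A'] :
    Function.Injective (kap (σ := σ) A' r) := by
  have h1 : Function.Injective (algebraMap (MvPolynomial σ ℂ) A') :=
    IsLocalization.injective A' (powers_le_nonZeroDivisors_of_noZeroDivisors hJ)
  have h2 : Function.Injective (MvPolynomial.map (σ := Fin r)
      (algebraMap (MvPolynomial σ ℂ) A')) := MvPolynomial.map_injective _ h1
  have h3 : ∀ a : MvPolynomial (σ ⊕ Fin r) ℂ, kap A' r a =
      MvPolynomial.map (algebraMap (MvPolynomial σ ℂ) A')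
        (sumAlgEquiv ℂ (Fin r) σ (rename (Equiv.sumComm σ (Fin r)) a)) := by
    intro a
    induction a using MvPolynomial.induction_on with
    | C z =>
      rw [rename_C]
      have e1 : (sumAlgEquiv ℂ (Fin r) σ) (C z) = C (C z) := by
        rw [← MvPolynomial.algebraMap_eq, AlgEquiv.commutes]
        rfl
      rw [e1, MvPolynomial.map_C, ← kap_inl, rename_C]
    | add p q hp hq => rw [map_add, map_add, map_add, map_add, hp, hq]
    | mul_X p i hp =>
      rw [map_mul, map_mul, map_mul, map_mul, hp]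
      congr 1
      rcases i with i | k
      · rw [← rename_X (R := ℂ) Sum.inl i, kap_inl, rename_X, rename_X]
        simp
      · rw [kap_X, rename_X]
        simp
  intro a b hab
  rw [h3, h3] at hab
  exact rename_injective _ (Equiv.sumComm σ (Fin r)).injective
    ((sumAlgEquiv ℂ (Fin r) σ).injective (h2 hab))

/-- every element has a denominator -/
theorem kap_surj (J : MvPolynomial σ ℂ) [IsLocalization.Away J A'] (c : MvPolynomial (Fin r) A') :
    ∃ (m : ℕ) (a : MvPolynomial (σ ⊕ Fin r) ℂ), kap A' r (rename Sum.inl J) ^ m * c = kap A' r a := by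
  induction c using MvPolynomial.induction_on with
  | C x =>
    obtain ⟨n, a, ha⟩ := IsLocalization.Away.surj J x
    refine ⟨n, rename Sum.inl a, ?_⟩
    rw [kap_inl, kap_inl, ← map_pow, ← map_mul, ← ha, mul_comm]
  | add p q hp hq =>
    obtain ⟨m, a, ha⟩ := hp
    obtain ⟨n, b, hb⟩ := hq
    refine ⟨m + n, rename Sum.inl J ^ n * a + rename Sum.inl J ^ m * b, ?_⟩
    rw [map_add, map_mul, map_mul, map_pow, map_pow, ← ha, ← hb]
    ring
  | mul_X p k hp =>
    obtain ⟨m, a, ha⟩ := hp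
    refine ⟨m, a * X (Sum.inr k), ?_⟩
    rw [map_mul, kap_X, ← ha, mul_assoc]

variable [Finite σ]

/-- descent of a derivation -/
theorem kap_der (J : MvPolynomial σ ℂ) [IsLocalization.Away J A']
    (D : Derivation ℂ (MvPolynomial (Fin r) A') (MvPolynomial (Fin r) A')) :
    ∃ (m : ℕ) (D' : Derivation ℂ (MvPolynomial (σ ⊕ Fin r) ℂ) (MvPolynomial (σ ⊕ Fin r) ℂ)),
      ∀ a, kap A' r (rename Sum.inl J) ^ m * D (kap A' r a) = kap A' r (D' a) := by
  classical
  cases nonempty_fintype σ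
  have h : ∀ j : σ ⊕ Fin r, ∃ (m : ℕ) (a : MvPolynomial (σ ⊕ Fin r) ℂ),
      kap A' r (rename Sum.inl J) ^ m * D (kap A' r (X j)) = kap A' r a := fun j => kap_surj J _
  choose m b hb using h
  set n := ∑ j, m j with hn
  refine ⟨n, mkDerivation ℂ fun j => rename Sum.inl J ^ (n - m j) * b j, fun a => ?_⟩
  induction a using MvPolynomial.induction_on with
  | C z =>
    have h0 : mkDerivation ℂ (fun j : σ ⊕ Fin r => rename Sum.inl J ^ (n - m j) * b j)
      (C z) = 0 := Derivation.map_algebraMap _ z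
    have h1 : kap A' r (C z : MvPolynomial (σ ⊕ Fin r) ℂ) =
        algebraMap ℂ (MvPolynomial (Fin r) A') z := (kap (σ := σ) A' r).commutes z
    rw [h0, map_zero, h1, Derivation.map_algebraMap, mul_zero]
  | add p q hp hq => rw [map_add, map_add, map_add, map_add, mul_add, hp, hq]
  | mul_X p j hp =>
    have h2 : m j ≤ n := Finset.single_le_sum (fun i _ => Nat.zero_le (m i)) (Finset.mem_univ j)
    have h3 : kap A' r (rename Sum.inl J) ^ n * D (kap A' r (X j)) =
        kap A' r (rename Sum.inl J ^ (n - m j) * b j) := by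
      rw [map_mul, map_pow, ← hb, ← mul_assoc, ← pow_add, Nat.sub_add_cancel h2]
    have e : kap A' r (p * X j : MvPolynomial (σ ⊕ Fin r) ℂ) = kap A' r p * kap A' r (X j) :=
      map_mul _ _ _
    rw [e, Derivation.leibniz, Derivation.leibniz, map_add, mkDerivation_X, smul_eq_mul,
      smul_eq_mul, smul_eq_mul, smul_eq_mul, map_mul (kap A' r) p,
      map_mul (kap A' r) (X j : MvPolynomial (σ ⊕ Fin r) ℂ), ← hp, ← h3]
    ring

/-- **descent of the families** -/
theorem descend (J : MvPolynomial σ ℂ) [IsLocalization.Away J A']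
    {Q : ℕ → Module.End ℂ (MvPolynomial (Fin r) A')}
    (hQ : Q ∈ famG (Set.univ : Set (Derivation ℂ (MvPolynomial (Fin r) A')
      (MvPolynomial (Fin r) A')))) :
    ∀ N : ℕ, ∃ K : ℕ, ∃ Q' ∈ fam (σ ⊕ Fin r), ∀ (M : ℕ) (a : MvPolynomial (σ ⊕ Fin r) ℂ)
      (z : MvPolynomial (Fin r) A'), kap A' r (rename Sum.inl J) ^ N * z = kap A' r a →
      kap A' r (rename Sum.inl J) ^ K * Q M z = kap A' r (Q' M a) := by
  set κJ := kap (σ := σ) A' r (rename Sum.inl J) with hκJ
  refine famG_induction (p := fun Q => ∀ N : ℕ, ∃ K : ℕ, ∃ Q' ∈ fam (σ ⊕ Fin r),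
      ∀ (M : ℕ) (a : MvPolynomial (σ ⊕ Fin r) ℂ) (z : MvPolynomial (Fin r) A'),
      κJ ^ N * z = kap A' r a → κJ ^ K * Q M z = kap A' r (Q' M a)) ?_ ?_ ?_ ?_ ?_ hQ
  · intro c N
    obtain ⟨m, b, hb⟩ := kap_surj J c
    refine ⟨N + m, _, fam_const (weylS_mulLeft b), fun M a z hz => ?_⟩
    rw [LinearMap.mulLeft_apply, LinearMap.mulLeft_apply, map_mul, ← hb, ← hz, ← hκJ, pow_add]
    ring
  · intro D _ N
    obtain ⟨m, D', hD⟩ := kap_der J D
    refine ⟨N + m + 1, _, (fam _).sub_mem (fam_const ((weylS _).mul_mem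
      (weylS_mulLeft (rename Sum.inl J)) (weylS_derivation D')))
      (fam_const (weylS_mulLeft ((N : MvPolynomial (σ ⊕ Fin r) ℂ) * D' (rename Sum.inl J)))),
      fun M a z hz => ?_⟩
    have h1 := congrArg (fun x => κJ ^ (m + 1) * D x) hz
    beta_reduce at h1
    rw [Derivation.leibniz, Derivation.leibniz_pow] at h1
    simp only [smul_eq_mul, nsmul_eq_mul] at h1
    have h2 : κJ ^ (m + 1) * D (kap A' r a) = κJ * kap A' r (D' a) := by
      rw [← hD a, ← hκJ]
      ring
    have h3 : κJ ^ m * D κJ = kap A' r (D' (rename Sum.inl J)) := hD _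
    rw [h2] at h1
    rw [Pi.sub_apply, LinearMap.sub_apply, Module.End.mul_apply, LinearMap.mulLeft_apply,
      LinearMap.mulLeft_apply, Derivation.coeFn_coe, Derivation.coeFn_coe, map_sub, map_mul,
      map_mul, map_mul, map_natCast, ← h3, ← hz, ← hκJ]
    rcases N with _ | N
    · simp only [Nat.cast_zero, zero_mul, sub_zero, mul_zero, add_zero, pow_zero, one_mul,
        zero_add] at h1 ⊢
      exact h1
    · rw [Nat.add_sub_cancel] at h1
      linear_combination h1
  · intro N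
    refine ⟨N, _, fam_nat _, fun M a z hz => ?_⟩
    rw [LinearMap.smul_apply, Module.End.one_apply, LinearMap.smul_apply, Module.End.one_apply,
      map_smul, ← hz, mul_smul_comm]
  · rintro P Q - - h h' N
    obtain ⟨K, P', hP', h⟩ := h N
    obtain ⟨K', Q', hQ', h'⟩ := h' N
    refine ⟨K + K', _, (fam _).add_mem
      ((fam _).mul_mem (fam_const (weylS_mulLeft (rename Sum.inl J ^ K'))) hP')
      ((fam _).mul_mem (fam_const (weylS_mulLeft (rename Sum.inl J ^ K))) hQ'),
      fun M a z hz => ?_⟩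
    rw [Pi.add_apply, LinearMap.add_apply, Pi.add_apply, LinearMap.add_apply, Pi.mul_apply,
      Pi.mul_apply, Module.End.mul_apply, Module.End.mul_apply, LinearMap.mulLeft_apply,
      LinearMap.mulLeft_apply, map_add, map_mul, map_mul, map_pow, map_pow, ← h M a z hz,
      ← h' M a z hz, ← hκJ, pow_add]
    ring
  · rintro P Q - - h h' N
    obtain ⟨K, Q', hQ', h'⟩ := h' N
    obtain ⟨K', P', hP', h⟩ := h K
    refine ⟨K', P' * Q', (fam _).mul_mem hP' hQ', fun M a z hz => ?_⟩
    rw [Pi.mul_apply, Module.End.mul_apply, Pi.mul_apply, Module.End.mul_apply]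
    exact h M _ _ (h' M a z hz)

end desc

end Pool.Agent.Q221.Sm
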