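import Pool.Agent.Q221.Sm.Defs

/-!
# Families of differential operators, polynomial in `s`

`famG Θ` is the algebra of families `(P_M)` of operators on an algebra `A`, generated by the
multiplications by the elements of `A`, by the derivations in `Θ` and by the family `(M)`.
-/

set_option autoImplicit false
set_option linter.unusedSectionVars false

namespace Pool.Agent.Q221.Sm

variable {A : Type} [CommRing A] [Algebra ℂ A]

theorem famG_mul {Θ : Set (Derivation ℂ A A)} (c : A) :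
    (fun _ => LinearMap.mulLeft ℂ c : ℕ → Module.End ℂ A) ∈ famG Θ :=
  Algebra.subset_adjoin (Or.inl (Or.inl ⟨c, rfl⟩))

theorem famG_der {Θ : Set (Derivation ℂ A A)} {θ : Derivation ℂ A A} (hθ : θ ∈ Θ) :
    (fun _ => (θ : A →ₗ[ℂ] A) : ℕ → Module.End ℂ A) ∈ famG Θ :=
  Algebra.subset_adjoin (Or.inl (Or.inr ⟨θ, hθ, rfl⟩))

theorem famG_nat {Θ : Set (Derivation ℂ A A)} :
    (fun s : ℕ => (s : ℂ) • (1 : Module.End ℂ A)) ∈ famG Θ :=
  Algebra.subset_adjoin (Or.inr rfl)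

theorem famG_induction {Θ : Set (Derivation ℂ A A)}
    {p : (ℕ → Module.End ℂ A) → Prop}
    (h1 : ∀ c : A, p fun _ => LinearMap.mulLeft ℂ c)
    (h2 : ∀ θ ∈ Θ, p fun _ => (θ : A →ₗ[ℂ] A))
    (h3 : p fun s : ℕ => (s : ℂ) • (1 : Module.End ℂ A))
    (h5 : ∀ P Q, P ∈ famG Θ → Q ∈ famG Θ → p P → p Q → p (P + Q))
    (h6 : ∀ P Q, P ∈ famG Θ → Q ∈ famG Θ → p P → p Q → p (P * Q))
    {P : ℕ → Module.End ℂ A} (hP : P ∈ famG Θ) : p P := by
  induction hP using Algebra.adjoin_induction with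
  | mem x hx =>
    rcases hx with (⟨c, rfl⟩ | ⟨θ, hθ, rfl⟩) | hx
    · exact h1 c
    · exact h2 θ hθ
    · rw [Set.mem_singleton_iff] at hx
      subst hx
      exact h3
  | algebraMap r =>
    have h := h1 (algebraMap ℂ A r)
    convert h using 1
    funext M
    ext a
    rw [Pi.algebraMap_apply, Module.algebraMap_end_apply, LinearMap.mulLeft_apply,
      Algebra.smul_def]
  | add P Q hP hQ h h' => exact h5 P Q hP hQ h h'
  | mul P Q hP hQ h h' => exact h6 P Q hP hQ h h'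

theorem famG_poly {Θ : Set (Derivation ℂ A A)} (B : Polynomial ℂ) :
    (fun s : ℕ => (B.eval (s : ℂ)) • (1 : Module.End ℂ A)) ∈ famG Θ := by
  induction B using Polynomial.induction_on' with
  | add p q hp hq =>
    have := (famG Θ).add_mem hp hq
    convert this using 1
    funext s
    simp only [Polynomial.eval_add, add_smul, Pi.add_apply]
  | monomial n a =>
    have h : (fun s : ℕ => ((Polynomial.monomial n a).eval (s : ℂ)) • (1 : Module.End ℂ A)) =
        algebraMap ℂ (ℕ → Module.End ℂ A) a * (fun s : ℕ => (s : ℂ) • (1 : Module.End ℂ A)) ^ n := by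
      funext s
      rw [Pi.mul_apply, Pi.pow_apply, smul_pow, one_pow, Pi.algebraMap_apply,
        Polynomial.eval_monomial, Algebra.algebraMap_eq_smul_one, smul_mul_smul_comm, one_mul]
    rw [h]
    exact (famG Θ).mul_mem ((famG Θ).algebraMap_mem a) ((famG Θ).pow_mem famG_nat n)

/-- transport of a derivation by an isomorphism -/
def conjD {A' : Type} [CommRing A'] [Algebra ℂ A'] (e : A ≃ₐ[ℂ] A') (D : Derivation ℂ A A) :
    Derivation ℂ A' A' :=
  Derivation.mk' ((e.toLinearMap ∘ₗ (D : A →ₗ[ℂ] A)) ∘ₗ e.symm.toLinearMap) fun a b => by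
    simp only [LinearMap.comp_apply, AlgEquiv.toLinearMap_apply, map_mul, Derivation.coeFn_coe,
      Derivation.leibniz, smul_eq_mul, map_add, AlgEquiv.apply_symm_apply]

theorem conjD_apply {A' : Type} [CommRing A'] [Algebra ℂ A'] (e : A ≃ₐ[ℂ] A')
    (D : Derivation ℂ A A) (a : A') : conjD e D a = e (D (e.symm a)) := rfl

theorem famG_conj {A' : Type} [CommRing A'] [Algebra ℂ A'] (e : A ≃ₐ[ℂ] A')
    {P : ℕ → Module.End ℂ A} (hP : P ∈ famG (Set.univ : Set (Derivation ℂ A A))) :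
    ∃ Q ∈ famG (Set.univ : Set (Derivation ℂ A' A')), ∀ M a, Q M (e a) = e (P M a) := by
  refine famG_induction (p := fun P => ∃ Q ∈ famG (Set.univ : Set (Derivation ℂ A' A')),
    ∀ M a, Q M (e a) = e (P M a)) ?_ ?_ ?_ ?_ ?_ hP
  · intro c
    exact ⟨_, famG_mul (e c), fun M a => by simp⟩
  · intro θ _
    refine ⟨_, famG_der (Set.mem_univ (conjD e θ)), fun M a => ?_⟩
    rw [Derivation.coeFn_coe, conjD_apply, AlgEquiv.symm_apply_apply, Derivation.coeFn_coe]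
  · exact ⟨_, famG_nat, fun M a => by simp⟩
  · rintro P P' - - ⟨Q, hQ, h⟩ ⟨Q', hQ', h'⟩
    exact ⟨_, (famG _).add_mem hQ hQ', fun M a => by
      rw [Pi.add_apply, LinearMap.add_apply, h, h', Pi.add_apply, LinearMap.add_apply, map_add]⟩
  · rintro P P' - - ⟨Q, hQ, h⟩ ⟨Q', hQ', h'⟩
    exact ⟨_, (famG _).mul_mem hQ hQ', fun M a => by
      rw [Pi.mul_apply, Module.End.mul_apply, h', h, Pi.mul_apply, Module.End.mul_apply]⟩

/-! ### The Taylor operators -/

section taylor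

variable (g : A) (δ : Derivation ℂ A A)

/-- `∑_{i < L} (-1) ^ i g ^ i / i! δ ^ i` -/
noncomputable def TT (L : ℕ) : A →ₗ[ℂ] A :=
  ∑ i ∈ Finset.range L, (((-1 : ℂ) ^ i * (i.factorial : ℂ)⁻¹) •
    (LinearMap.mulLeft ℂ (g ^ i) * (δ : A →ₗ[ℂ] A) ^ i))

theorem TT_succ (L : ℕ) (m : A) : TT g δ (L + 1) m = TT g δ L m +
    ((-1 : ℂ) ^ L * (L.factorial : ℂ)⁻¹) • (g ^ L * ((δ : A →ₗ[ℂ] A) ^ L) m) := by
  rw [TT, Finset.sum_range_succ, LinearMap.add_apply, LinearMap.smul_apply,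
    Module.End.mul_apply, LinearMap.mulLeft_apply]
  rfl

theorem TT_zero (m : A) : TT g δ 0 m = 0 := by
  simp [TT]

theorem δ_pow_succ (L : ℕ) (m : A) : δ (((δ : A →ₗ[ℂ] A) ^ L) m) = ((δ : A →ₗ[ℂ] A) ^ (L + 1)) m := by
  rw [pow_succ', Module.End.mul_apply]
  rfl

variable {g δ}

/-- the operator is the identity modulo `g` -/
theorem TT_sub (L : ℕ) (m : A) : ∃ q, TT g δ (L + 1) m = m + g * q := by
  induction L with
  | zero => exact ⟨0, by simp [TT]⟩
  | succ L ih =>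
    obtain ⟨q, hq⟩ := ih
    refine ⟨q + ((-1 : ℂ) ^ (L + 1) * ((L + 1).factorial : ℂ)⁻¹) •
      (g ^ L * ((δ : A →ₗ[ℂ] A) ^ (L + 1)) m), ?_⟩
    rw [TT_succ, hq, mul_add, mul_smul_comm, ← mul_assoc g, ← pow_succ', add_assoc]

theorem fact_aux (L : ℕ) : (((L + 1).factorial : ℂ)⁻¹) * ((L + 1 : ℕ) : ℂ) =
    (L.factorial : ℂ)⁻¹ := by
  have h1 : (L.factorial : ℂ) ≠ 0 := by exact_mod_cast L.factorial_ne_zero
  have h2 : ((L + 1 : ℕ) : ℂ) ≠ 0 := by exact_mod_cast L.succ_ne_zero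
  rw [Nat.factorial_succ, Nat.cast_mul]
  field_simp

/-- the derivative of the operator -/
theorem δ_TT (h : δ g = 1) (L : ℕ) (m : A) : δ (TT g δ (L + 1) m) =
    ((-1 : ℂ) ^ L * (L.factorial : ℂ)⁻¹) • (g ^ L * ((δ : A →ₗ[ℂ] A) ^ (L + 1)) m) := by
  induction L with
  | zero => simp [TT]
  | succ L ih =>
    rw [TT_succ, map_add, ih, Derivation.map_smul, Derivation.leibniz, δ_pow_succ,
      Derivation.leibniz_pow, h]
    have h1 : ((-1 : ℂ) ^ L * (L.factorial : ℂ)⁻¹) =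
        -(((-1 : ℂ) ^ (L + 1) * ((L + 1).factorial : ℂ)⁻¹) * ((L + 1 : ℕ) : ℂ)) := by
      rw [mul_assoc, fact_aux]
      ring
    rw [h1, smul_add, smul_eq_mul, smul_eq_mul, Nat.add_sub_cancel, smul_eq_mul, mul_one, neg_smul,
      mul_smul, nsmul_eq_mul]
    have h2 : ((L + 1 : ℕ) : ℂ) • (g ^ L * ((δ : A →ₗ[ℂ] A) ^ (L + 1)) m) =
        ((δ : A →ₗ[ℂ] A) ^ (L + 1)) m * (((L + 1 : ℕ) : A) * g ^ L) := by
      rw [Algebra.smul_def, map_natCast]
      ring
    rw [h2]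
    abel

/-- the operator on multiples of `g` -/
theorem TT_mul (h : δ g = 1) (L : ℕ) (m : A) : TT g δ (L + 1) (g * m) =
    ((-1 : ℂ) ^ L * (L.factorial : ℂ)⁻¹) • (g ^ (L + 1) * ((δ : A →ₗ[ℂ] A) ^ L) m) := by
  have hδ : ∀ (i : ℕ), ((δ : A →ₗ[ℂ] A) ^ (i + 1)) (g * m) =
      g * ((δ : A →ₗ[ℂ] A) ^ (i + 1)) m + ((i + 1 : ℕ) : A) * ((δ : A →ₗ[ℂ] A) ^ i) m := by
    intro i
    induction i with
    | zero =>
      simp [Derivation.leibniz, h]
    | succ i ih =>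
      rw [← δ_pow_succ, ih, map_add, Derivation.leibniz, Derivation.leibniz,
        Derivation.map_natCast, h, δ_pow_succ, δ_pow_succ]
      simp only [smul_eq_mul, mul_one, mul_zero, add_zero]
      push_cast
      ring
  induction L with
  | zero => simp [TT]
  | succ L ih =>
    rw [TT_succ, ih, hδ]
    have h1 : ((-1 : ℂ) ^ L * (L.factorial : ℂ)⁻¹) =
        -(((-1 : ℂ) ^ (L + 1) * ((L + 1).factorial : ℂ)⁻¹) * ((L + 1 : ℕ) : ℂ)) := by
      rw [mul_assoc, fact_aux]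
      ring
    rw [h1, neg_smul, mul_smul]
    have h2 : ((L + 1 : ℕ) : ℂ) • (g ^ (L + 1) * ((δ : A →ₗ[ℂ] A) ^ L) m) =
        g ^ (L + 1) * (((L + 1 : ℕ) : A) * ((δ : A →ₗ[ℂ] A) ^ L) m) := by
      rw [Algebra.smul_def, map_natCast]
      ring
    rw [h2, mul_add, smul_add]
    have h3 : g ^ (L + 1) * (g * ((δ : A →ₗ[ℂ] A) ^ (L + 1)) m) =
        g ^ (L + 1 + 1) * ((δ : A →ₗ[ℂ] A) ^ (L + 1)) m := by
      ring
    rw [h3]
    abel

/-- the operator commutes with derivations which commute with `δ` and kill `g` -/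
theorem TT_comm {D : Derivation ℂ A A} (hD : D g = 0) (hc : ∀ m, D (δ m) = δ (D m)) (m : A)
    (i : ℕ) : D (TT g δ i m) = TT g δ i (D m) := by
  have hδ : ∀ (i : ℕ), D (((δ : A →ₗ[ℂ] A) ^ i) m) = ((δ : A →ₗ[ℂ] A) ^ i) (D m) := by
    intro i
    induction i with
    | zero => simp
    | succ i ih => rw [← δ_pow_succ, hc, ih, δ_pow_succ]
  induction i with
  | zero => rw [TT_zero, TT_zero, map_zero]
  | succ i ih =>
    rw [TT_succ, TT_succ, map_add, ih, Derivation.map_smul, Derivation.leibniz,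
      Derivation.leibniz_pow, hD, hδ]
    simp

theorem smul_cast (n : ℕ) (a : A) : (n : ℂ) • a = (n : A) * a := by
  rw [Algebra.smul_def, map_natCast]

/-- `g ^ i δ ^ i` in terms of the Euler operator -/
theorem euler_pow (h : δ g = 1) (i : ℕ) :
    LinearMap.mulLeft ℂ (g ^ (i + 1)) * (δ : A →ₗ[ℂ] A) ^ (i + 1) =
      ((g • δ : Derivation ℂ A A) : A →ₗ[ℂ] A) * (LinearMap.mulLeft ℂ (g ^ i) *
        (δ : A →ₗ[ℂ] A) ^ i) - (i : ℂ) • (LinearMap.mulLeft ℂ (g ^ i) *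
        (δ : A →ₗ[ℂ] A) ^ i) := by
  ext m
  rw [LinearMap.sub_apply, LinearMap.smul_apply, Module.End.mul_apply, Module.End.mul_apply,
    Module.End.mul_apply, LinearMap.mulLeft_apply, LinearMap.mulLeft_apply, Derivation.coeFn_coe,
    Derivation.smul_apply, Derivation.leibniz, Derivation.leibniz_pow, h, δ_pow_succ,
    smul_cast]
  rcases i with _ | i
  · simp
  · rw [Nat.add_sub_cancel]
    simp only [smul_eq_mul, nsmul_eq_mul]
    push_cast
    ring

end taylor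

end Pool.Agent.Q221.Sm
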