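import Pool.Agent.Q221.Sm.Main

/-!
# Derivations of localizations and of polynomial rings; frames
-/

set_option autoImplicit false
set_option linter.unusedSectionVars false

namespace Pool.Agent.Q221.Sm

/-! ### Extension of derivations to localizations -/

section loc

variable {A A' : Type} [CommRing A] [Algebra ℂ A] [CommRing A'] [Algebra ℂ A'] [Algebra A A']
  [IsScalarTower ℂ A A']

/-- the homomorphism to the dual numbers -/
noncomputable def toDual (D : Derivation ℂ A A) : A →+* TrivSqZeroExt A' A' where
  toFun a := (algebraMap A A' a, algebraMap A A' (D a))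
  map_one' := by
    rw [Derivation.map_one_eq_zero, map_zero, map_one]
    rfl
  map_mul' a b := by
    refine TrivSqZeroExt.ext ?_ ?_
    · show algebraMap A A' (a * b) = algebraMap A A' a * algebraMap A A' b
      exact map_mul _ _ _
    · show algebraMap A A' (D (a * b)) = algebraMap A A' a • algebraMap A A' (D b) +
        MulOpposite.op (algebraMap A A' b) • algebraMap A A' (D a)
      rw [Derivation.leibniz, map_add, op_smul_eq_smul, smul_eq_mul, smul_eq_mul, map_mul, map_mul,
        smul_eq_mul, smul_eq_mul]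
  map_zero' := by
    rw [map_zero, map_zero, map_zero]
    rfl
  map_add' a b := by
    rw [map_add, map_add, map_add]
    rfl

theorem toDual_fst (D : Derivation ℂ A A) (a : A) :
    (toDual (A' := A') D a).fst = algebraMap A A' a := rfl

theorem toDual_snd (D : Derivation ℂ A A) (a : A) :
    (toDual (A' := A') D a).snd = algebraMap A A' (D a) := rfl

theorem exists_ext (J : A) [IsLocalization.Away J A'] (D : Derivation ℂ A A) :
    ∃ D' : Derivation ℂ A' A', ∀ a, D' (algebraMap A A' a) = algebraMap A A' (D a) := by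
  have hu : IsUnit (toDual (A' := A') D J) := by
    rw [TrivSqZeroExt.isUnit_iff_isUnit_fst, toDual_fst]
    exact IsLocalization.Away.algebraMap_isUnit J
  set Λ : A' →+* TrivSqZeroExt A' A' := IsLocalization.Away.lift J hu with hΛ
  have h1 : ∀ a, Λ (algebraMap A A' a) = toDual (A' := A') D a := fun a =>
    IsLocalization.Away.lift_eq J hu a
  have h2 : ∀ x, (Λ x).fst = x := by
    have h3 : ((TrivSqZeroExt.fstHom ℂ A' A').toRingHom.comp Λ) = RingHom.id A' := by
      refine IsLocalization.ringHom_ext (Submonoid.powers J) ?_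
      ext a
      simp only [RingHom.comp_apply, h1]
      rfl
    intro x
    exact congrArg (fun φ : A' →+* A' => φ x) h3
  have hz : ∀ z : ℂ, Λ (algebraMap ℂ A' z) = TrivSqZeroExt.inl (algebraMap ℂ A' z) := by
    intro z
    rw [IsScalarTower.algebraMap_apply ℂ A A', h1]
    refine TrivSqZeroExt.ext rfl ?_
    rw [toDual_snd, Derivation.map_algebraMap, map_zero, TrivSqZeroExt.snd_inl]
  let D₀ : A' →ₗ[ℂ] A' :=
    { toFun := fun x => (Λ x).snd
      map_add' := fun x y => by rw [map_add, TrivSqZeroExt.snd_add]
      map_smul' := fun z x => by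
        rw [Algebra.smul_def z x, map_mul, hz, TrivSqZeroExt.snd_mul, TrivSqZeroExt.fst_inl,
          TrivSqZeroExt.snd_inl, smul_zero, add_zero, RingHom.id_apply, Algebra.smul_def z,
          smul_eq_mul] }
  refine ⟨Derivation.mk' D₀ fun x y => ?_, fun a => ?_⟩
  · show (Λ (x * y)).snd = x • (Λ y).snd + y • (Λ x).snd
    rw [map_mul, TrivSqZeroExt.snd_mul, h2, h2, op_smul_eq_smul]
  · show (Λ (algebraMap A A' a)).snd = _
    rw [h1, toDual_snd]

/-- a derivation of a localization is determined by its values on the ring -/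
theorem der_loc_zero (J : A) [IsLocalization.Away J A'] {D : Derivation ℂ A' A'}
    (h : ∀ a, D (algebraMap A A' a) = 0) (x : A') : D x = 0 := by
  obtain ⟨⟨a, s⟩, hs⟩ := IsLocalization.surj (Submonoid.powers J) x
  have h1 : D (x * algebraMap A A' s) = 0 := by rw [hs, h]
  rw [Derivation.leibniz, h, smul_zero, zero_add, smul_eq_mul] at h1
  exact (IsLocalization.map_units A' s).mul_right_eq_zero.1 h1

end loc

/-! ### Coefficientwise derivations -/

section coef

open MvPolynomial

variable {A : Type} [CommRing A] [Algebra ℂ A] {σ : Type}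

/-- the coefficientwise action -/
noncomputable def cL (θ : Derivation ℂ A A) (p : MvPolynomial σ A) : MvPolynomial σ A :=
  ∑ d ∈ p.support, monomial d (θ (coeff d p))

theorem coeff_cL (θ : Derivation ℂ A A) (p : MvPolynomial σ A) (e : σ →₀ ℕ) :
    coeff e (cL θ p) = θ (coeff e p) := by
  classical
  rw [cL, coeff_sum]
  simp only [coeff_monomial]
  rw [Finset.sum_ite_eq']
  split_ifs with h
  · rfl
  · rw [notMem_support_iff.1 h, map_zero]

/-- the coefficientwise derivation -/
noncomputable def cD (θ : Derivation ℂ A A) : Derivation ℂ (MvPolynomial σ A) (MvPolynomial σ A) :=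
  Derivation.mk'
    { toFun := cL θ
      map_add' := fun p q => by
        ext e
        rw [coeff_cL, coeff_add, coeff_add, coeff_cL, coeff_cL, map_add]
      map_smul' := fun z p => by
        ext e
        rw [coeff_cL, RingHom.id_apply, coeff_smul, coeff_smul, coeff_cL, Derivation.map_smul] }
    fun p q => by
      classical
      ext e
      show coeff e (cL θ (p * q)) = coeff e (p * cL θ q + q * cL θ p)
      rw [coeff_cL, coeff_add, coeff_mul, mul_comm q, coeff_mul, coeff_mul, map_sum,
        ← Finset.sum_add_distrib]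
      refine Finset.sum_congr rfl fun x _ => ?_
      rw [Derivation.leibniz, coeff_cL, coeff_cL, smul_eq_mul, smul_eq_mul,
        mul_comm (coeff x.2 q)]

theorem cD_C (θ : Derivation ℂ A A) (a : A) : cD (σ := σ) θ (C a) = C (θ a) := by
  classical
  ext e
  show coeff e (cL θ (C a)) = _
  rw [coeff_cL, coeff_C, coeff_C]
  split_ifs
  · rfl
  · exact map_zero θ

theorem cD_X (θ : Derivation ℂ A A) (i : σ) : cD (σ := σ) θ (X i) = 0 := by
  classical
  ext e
  show coeff e (cL θ (X i)) = _
  rw [coeff_cL, coeff_X, coeff_zero]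
  split_ifs
  · exact Derivation.map_one_eq_zero θ
  · exact map_zero θ

/-- the polynomial extension -/
noncomputable def PEpoly (A : Type) [CommRing A] [Algebra ℂ A] (r : ℕ) :
    PE A (MvPolynomial (Fin r) A) r where
  y := X
  dy k := (pderiv k : Derivation A (MvPolynomial (Fin r) A) (MvPolynomial (Fin r) A)).restrictScalars ℂ
  dy_alg k a := by
    rw [MvPolynomial.algebraMap_eq]
    show pderiv k (C a) = 0
    exact pderiv_C
  dy_y k l := by
    classical
    show pderiv k (X l) = _
    rw [pderiv_X]
    simp only [Pi.single_apply, eq_comm]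
  ext θ := ⟨cD θ, fun a => by rw [MvPolynomial.algebraMap_eq, cD_C], fun k => cD_X θ k⟩

end coef

/-! ### Frames -/

section frame

open MvPolynomial

variable {σ : Type} {A' : Type} [CommRing A'] [Algebra ℂ A'] [Algebra (MvPolynomial σ ℂ) A']
  [IsScalarTower ℂ (MvPolynomial σ ℂ) A']

theorem pderiv_comm' (i j : σ) (a : MvPolynomial σ ℂ) :
    pderiv i (pderiv j a) = pderiv j (pderiv i a) := by
  classical
  have h : ⁅(pderiv i : Derivation ℂ (MvPolynomial σ ℂ) (MvPolynomial σ ℂ)),
      (pderiv j : Derivation ℂ (MvPolynomial σ ℂ) (MvPolynomial σ ℂ))⁆ = 0 := by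
    refine MvPolynomial.derivation_ext fun k => ?_
    rw [Derivation.commutator_apply, pderiv_X, pderiv_X, Derivation.zero_apply]
    simp only [Pi.single_apply]
    split_ifs <;> simp
  have h1 := congrArg (fun D : Derivation ℂ (MvPolynomial σ ℂ) (MvPolynomial σ ℂ) => D a) h
  rw [Derivation.commutator_apply, Derivation.zero_apply, sub_eq_zero] at h1
  exact h1

theorem exists_frame {r : ℕ} (g : Fin r → MvPolynomial σ ℂ) (ι : Fin r → σ)
    [IsLocalization.Away (jm g ι).det A'] :
    ∃ δ : Fin r → Derivation ℂ A' A',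
      (∀ k l, δ k (algebraMap (MvPolynomial σ ℂ) A' (g l)) = if k = l then 1 else 0) ∧
      ∀ k l a, δ k (δ l a) = δ l (δ k a) := by
  classical
  have hex : ∀ i : σ, ∃ D' : Derivation ℂ A' A', ∀ a, D' (algebraMap (MvPolynomial σ ℂ) A' a) =
      algebraMap (MvPolynomial σ ℂ) A' (pderiv i a) := fun i => exists_ext (jm g ι).det (pderiv i)
  choose d hd using hex
  have hdc : ∀ i j x, d i (d j x) = d j (d i x) := by
    intro i j x
    have h1 : ⁅d i, d j⁆ x = 0 := by
      refine der_loc_zero (jm g ι).det (fun a => ?_) x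
      rw [Derivation.commutator_apply, hd, hd, hd, hd, pderiv_comm', sub_self]
    rw [Derivation.commutator_apply, sub_eq_zero] at h1
    exact h1
  set M := (jm g ι).map (algebraMap (MvPolynomial σ ℂ) A') with hM
  have hdet : IsUnit M.det := by
    have : M.det = algebraMap (MvPolynomial σ ℂ) A' (jm g ι).det := by
      rw [hM]
      exact (RingHom.map_det _ _).symm
    rw [this]
    exact IsLocalization.Away.algebraMap_isUnit _
  have hMW : M * M⁻¹ = 1 := Matrix.mul_nonsing_inv M hdet
  have hWM : M⁻¹ * M = 1 := Matrix.nonsing_inv_mul M hdet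
  set W := M⁻¹ with hW
  let δ : Fin r → Derivation ℂ A' A' := fun k => ∑ l, W l k • d (ι l)
  have hδ : ∀ k x, δ k x = ∑ l, W l k * d (ι l) x := by
    intro k x
    show (∑ l, W l k • d (ι l)) x = _
    rw [der_sum_apply]
    rfl
  have hδg : ∀ k l, δ k (algebraMap (MvPolynomial σ ℂ) A' (g l)) = if k = l then 1 else 0 := by
    intro k l
    have h1 := congrFun (congrFun hMW l) k
    rw [Matrix.mul_apply, Matrix.one_apply] at h1
    rw [hδ]
    simp only [eq_comm (a := k)]
    rw [← h1]
    refine Finset.sum_congr rfl fun j _ => ?_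
    rw [hd, mul_comm]
    rfl
  refine ⟨δ, hδg, fun k m x => ?_⟩
  -- the bracket is a combination of the `d (ι l)`
  have hbr : ∀ x, δ k (δ m x) - δ m (δ k x) =
      ∑ l, (δ k (W l m) - δ m (W l k)) * d (ι l) x := by
    intro x
    have e1 : ∀ k m, δ k (δ m x) = ∑ l, δ k (W l m) * d (ι l) x +
        ∑ l, ∑ j, W l m * W j k * d (ι j) (d (ι l) x) := by
      intro k m
      rw [hδ m, map_sum, ← Finset.sum_add_distrib]
      refine Finset.sum_congr rfl fun l _ => ?_
      rw [Derivation.leibniz, hδ k (d (ι l) x), smul_eq_mul, smul_eq_mul, Finset.mul_sum, add_comm]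
      congr 1
      · ring
      · exact Finset.sum_congr rfl fun j _ => by ring
    have e2 : ∑ l, ∑ j, W l m * W j k * d (ι j) (d (ι l) x) =
        ∑ l, ∑ j, W l k * W j m * d (ι j) (d (ι l) x) := by
      rw [Finset.sum_comm]
      exact Finset.sum_congr rfl fun j _ => Finset.sum_congr rfl fun l _ => by
        rw [hdc (ι j) (ι l), mul_comm (W l m)]
    rw [e1 k m, e1 m k, e2]
    simp only [sub_mul, Finset.sum_sub_distrib]
    ring
  have hc0 : ∀ l, δ k (W l m) - δ m (W l k) = 0 := by
    have h1 : ∀ p, ∑ l, (δ k (W l m) - δ m (W l k)) * M p l = 0 := by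
      intro p
      have h2 := hbr (algebraMap (MvPolynomial σ ℂ) A' (g p))
      have h3 : ∀ a b, δ a (δ b (algebraMap (MvPolynomial σ ℂ) A' (g p))) = 0 := by
        intro a b
        rw [hδg]
        split_ifs
        · exact Derivation.map_one_eq_zero _
        · exact map_zero _
      rw [h3, h3, sub_zero] at h2
      rw [h2]
      exact Finset.sum_congr rfl fun l _ => by rw [hd]; rfl
    have h4 : Matrix.mulVec M (fun l => δ k (W l m) - δ m (W l k)) = 0 := by
      funext p
      rw [Matrix.mulVec, dotProduct, Pi.zero_apply, ← h1 p]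
      exact Finset.sum_congr rfl fun l _ => mul_comm _ _
    have h5 : Matrix.mulVec W (Matrix.mulVec M (fun l => δ k (W l m) - δ m (W l k))) = 0 := by
      rw [h4, Matrix.mulVec_zero]
    rw [Matrix.mulVec_mulVec, hWM, Matrix.one_mulVec] at h5
    exact fun l => congrFun h5 l
  have h6 := hbr x
  simp only [hc0, zero_mul, Finset.sum_const_zero] at h6
  exact sub_eq_zero.1 h6

end frame

end Pool.Agent.Q221.Sm
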