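import Pool.Agent.Q221.Sm.RedX
import Pool.Agent.Q42.CU.Glob

/-!
# The monodromy conjecture on smooth varieties: the reduction to triple systems
-/

set_option autoImplicit false
set_option linter.unusedSectionVars false

namespace Pool.Agent.Q221.Sm

open MvPolynomial Pool.Agent.W428.MOT Pool.Agent.TH192.MT Pool.Agent.TH192.MU
open Pool.Agent.Q223.ID Pool.Agent.Q223.TW Pool.Agent.Q42.CU Pool.Agent.Q223.MM
open Pool.Agent.H628R4.TP (weylS IsBFunction)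

theorem X_mul_Cf {σ : Type} {A : AddSubgroup ℂ} (i : σ) {p : MvPolynomial σ ℂ}
    (hp : p ∈ Cf σ A) : X i * p ∈ Cf σ A := by
  classical
  rw [mem_Cf]
  intro d
  rw [coeff_X_mul']
  split_ifs
  · exact hp _
  · exact A.zero_mem

/-- the coefficients of `f + ∑ y_k g_k` -/
theorem FN_span {n r : ℕ} {f : MvPolynomial (Fin n) ℂ} {g : Fin r → MvPolynomial (Fin n) ℂ}
    {S : Set ℂ} (hf : ∀ d, coeff d f ∈ Submodule.span ℚ S)
    (hg : ∀ k d, coeff d (g k) ∈ Submodule.span ℚ S) (d : Fin (n + r) →₀ ℕ) :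
    coeff d (FN f g) ∈ Submodule.span ℚ S := by
  have h1 : FN f g ∈ Cf (Fin (n + r)) (ratSpan S) := by
    rw [FN]
    refine AddSubgroup.add_mem _ (rename_Cf _ (mem_Cf.2 fun d => mem_ratSpan.2 (hf d))) ?_
    exact AddSubgroup.sum_mem _ fun k _ => X_mul_Cf _
      (rename_Cf _ (mem_Cf.2 fun d => mem_ratSpan.2 (hg k d)))
  exact mem_ratSpan.1 (mem_Cf.1 h1 d)

/-- if `f + ∑ y_k g_k` is constant, then `f` is constant -/
theorem FN_const {n r : ℕ} {f : MvPolynomial (Fin n) ℂ} {g : Fin r → MvPolynomial (Fin n) ℂ}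
    (h : (FN f g).totalDegree = 0) : ∃ c : ℂ, f = C c := by
  obtain ⟨c, h1⟩ : ∃ c : ℂ, FN f g = C c := ⟨_, totalDegree_eq_zero_iff_eq_C.1 h⟩
  refine ⟨c, ?_⟩
  have h2 := congrArg (aeval (Fin.addCases (fun i : Fin n => (X i : MvPolynomial (Fin n) ℂ))
    fun _ : Fin r => 0)) h1
  rw [FN, map_add, map_sum, aeval_rename] at h2
  have h3 : (Fin.addCases (fun i : Fin n => (X i : MvPolynomial (Fin n) ℂ)) fun _ : Fin r => 0) ∘
      Fin.castAdd r = X := by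
    funext i
    rw [Function.comp_apply, Fin.addCases_left]
  rw [h3, aeval_X_left_apply, Finset.sum_eq_zero, add_zero] at h2
  · rw [h2, aeval_C, MvPolynomial.algebraMap_eq]
  · intro k _
    rw [map_mul, aeval_X, Fin.addCases_right, zero_mul]

variable {R : Type} [CommRing R] [IsDomain R] (E' : MK ℂ →+* R) (ε : R →+* ℂ)

/-- a constant function has no poles -/
theorem const_pole {n r : ℕ} {g : Fin r → MvPolynomial (Fin n) ℂ} {c : ℂ} {e : ℕ} (he : 0 < e)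
    {Z : RatFunc ℂ} (hZ : IsTwistedTopX E' ε g (C c) e Z) (s₀ : ℂ) : Z.denom.eval s₀ ≠ 0 := by
  by_cases hc : c = 0
  · refine twisted_zero E' ε he (fun k d _ => JetCX_mem ?_ k d) hZ s₀
    rw [hc, map_zero]
    exact Ideal.zero_mem _
  · refine twisted_zero E' ε he (fun k d hd => JetCX_unit ?_ k hd) hZ s₀
    exact ((IsUnit.mk0 c hc).map (C : ℂ →+* MvPolynomial (Fin n) ℂ)).map _

/-- the reduction, without a condition on the degree -/
theorem weakX_of (h1 : ε (E' ((Lu ℂ : (MK ℂ)ˣ) : MK ℂ)) = 1)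
    (hu : E' ((Lu ℂ : (MK ℂ)ˣ) : MK ℂ) ≠ 1) {n r : ℕ} {g : Fin r → MvPolynomial (Fin n) ℂ}
    (hg : IsCI g) (hI : (Ideal.span (Set.range g)).IsPrime) (f : MvPolynomial (Fin n) ℂ)
    {e : ℕ} (he : 0 < e) (h : (FN f g).totalDegree ≠ 0 → WeakTw E' ε e (FN f g)) :
    WeakTwX E' ε e g f := by
  by_cases hd : (FN f g).totalDegree = 0
  · obtain ⟨c, rfl⟩ := FN_const hd
    exact fun Z hZ s₀ hs => absurd hs (const_pole E' ε he hZ s₀)
  · exact (reduceX E' ε h1 hu hg hI f he).1 (h hd)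

theorem strongX_of (h1 : ε (E' ((Lu ℂ : (MK ℂ)ˣ) : MK ℂ)) = 1)
    (hu : E' ((Lu ℂ : (MK ℂ)ˣ) : MK ℂ) ≠ 1) {n r : ℕ} {g : Fin r → MvPolynomial (Fin n) ℂ}
    (hg : IsCI g) (hI : (Ideal.span (Set.range g)).IsPrime) (f : MvPolynomial (Fin n) ℂ)
    {e : ℕ} (he : 0 < e) (h : (FN f g).totalDegree ≠ 0 → StrongTw E' ε e (FN f g)) :
    StrongTwX E' ε e g f := by
  by_cases hd : (FN f g).totalDegree = 0
  · obtain ⟨c, rfl⟩ := FN_const hd
    exact fun Z hZ s₀ _ hs => absurd hs (const_pole E' ε he hZ s₀)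
  · exact (reduceX E' ε h1 hu hg hI f he).2 (h hd)

theorem prime_elim0 {n : ℕ} :
    (Ideal.span (Set.range (Fin.elim0 : Fin 0 → MvPolynomial (Fin n) ℂ))).IsPrime := by
  rw [span_elim0]
  exact Ideal.isPrime_bot

/-- **The reduction to triple systems.** -/
theorem glob_span (h1 : ε (E' ((Lu ℂ : (MK ℂ)ˣ) : MK ℂ)) = 1)
    (hu : E' ((Lu ℂ : (MK ℂ)ˣ) : MK ℂ) ≠ 1) {e : ℕ} (he : 0 < e) (S : Set ℂ) (hS : (1 : ℂ) ∈ S)
    (N : ℕ) :
    (∀ (n r : ℕ) (g : Fin r → MvPolynomial (Fin n) ℂ) (f : MvPolynomial (Fin n) ℂ), IsCI g →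
      (Ideal.span (Set.range g)).IsPrime → (∀ k d, coeff d (g k) ∈ Submodule.span ℚ S) →
      (∀ d, coeff d f ∈ Submodule.span ℚ S) → WeakTwX E' ε e g f) ↔
    ∀ (k r : ℕ) (E : Fin r → Finset (Fin k)) (c : Fin r → ℂ), 0 < k → IsTriple S E c →
      MinExp N (Phi 24⁻¹ E c) → WeakTw E' ε e (Phi 24⁻¹ E c) := by
  constructor
  · intro h k r E c hk hc _
    exact weakTw_of E' ε (h _ 0 Fin.elim0 _ isCI_elim0 prime_elim0 (fun k => k.elim0)
      (Phi_span inv24 hS hc))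
  · intro h n r g f hg hI hgS hfS
    refine weakX_of E' ε h1 hu hg hI f he fun hd => ?_
    by_cases hb : ∃ b : Polynomial ℂ, b ≠ 0 ∧ IsBFunction (FN f g) b
    · obtain ⟨κ₁, h3⟩ := exists_phis S hS N _ (FN f g) hd (FN_span hfS hgS)
      obtain ⟨k, r', E, c, hk, hc, hst, hm⟩ := h3 κ₁ le_rfl
      exact (hst.tw hd R E' ε h1 hu e he).1 (h k r' E c hk hc (hm hb))
    · intro Z _ s₀ _ b hb'
      by_contra hne
      exact hb ⟨b, fun h0 => hne ⟨0, by rw [h0, Polynomial.eval_zero]⟩, hb'⟩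

end Pool.Agent.Q221.Sm
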