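import Pool.Agent.Q221.Sm.Desc

/-!
# Functional equations on smooth complete intersections
-/

set_option autoImplicit false
set_option linter.unusedSectionVars false

namespace Pool.Agent.Q221.Sm

open MvPolynomial Pool.Agent.W206.CU
open Pool.Agent.H628R4.TP (weylS)

/-- the shift of a family -/
theorem famG_pred {A : Type} [CommRing A] [Algebra ℂ A] {Θ : Set (Derivation ℂ A A)}
    {P : ℕ → Module.End ℂ A} (hP : P ∈ famG Θ) : ∃ P' ∈ famG Θ, ∀ M, P' (M + 1) = P M := by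
  refine famG_induction (p := fun P => ∃ P' ∈ famG Θ, ∀ M, P' (M + 1) = P M) ?_ ?_ ?_ ?_ ?_ hP
  · exact fun c => ⟨_, famG_mul c, fun M => rfl⟩
  · exact fun θ hθ => ⟨_, famG_der hθ, fun M => rfl⟩
  · refine ⟨_, Subalgebra.sub_mem _ famG_nat (Subalgebra.one_mem _), fun M => ?_⟩
    rw [Pi.sub_apply, Pi.one_apply, Nat.cast_add, Nat.cast_one, add_smul, one_smul,
      add_sub_cancel_right]
  · rintro P Q - - ⟨P', hP', h⟩ ⟨Q', hQ', h'⟩
    exact ⟨_, (famG Θ).add_mem hP' hQ', fun M => by rw [Pi.add_apply, h, h', Pi.add_apply]⟩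
  · rintro P Q - - ⟨P', hP', h⟩ ⟨Q', hQ', h'⟩
    exact ⟨_, (famG Θ).mul_mem hP' hQ', fun M => by rw [Pi.mul_apply, h, h', Pi.mul_apply]⟩

/-- the automorphism `y_k ↦ y_k - q_k` -/
noncomputable def shiftE {A : Type} [CommRing A] [Algebra ℂ A] {r : ℕ} (q : Fin r → A) :
    MvPolynomial (Fin r) A ≃ₐ[ℂ] MvPolynomial (Fin r) A :=
  (AlgEquiv.ofAlgHom (aeval fun k => X k - C (q k)) (aeval fun k => X k + C (q k))
    (by
      ext k
      simp [MvPolynomial.algebraMap_eq])
    (by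
      ext k
      simp [MvPolynomial.algebraMap_eq]) :
    MvPolynomial (Fin r) A ≃ₐ[A] MvPolynomial (Fin r) A).restrictScalars ℂ

theorem shiftE_X {A : Type} [CommRing A] [Algebra ℂ A] {r : ℕ} (q : Fin r → A) (k : Fin r) :
    shiftE q (X k) = X k - C (q k) := by
  show aeval (fun k => X k - C (q k)) (X k) = _
  rw [aeval_X]

theorem shiftE_C {A : Type} [CommRing A] [Algebra ℂ A] {r : ℕ} (q : Fin r → A) (a : A) :
    shiftE q (C a) = C a := by
  show aeval (fun k => X k - C (q k)) (C a) = _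
  rw [aeval_C]
  rfl

variable {σ : Type} {r : ℕ}

/-- the polynomial `f + ∑ y_k g_k` -/
noncomputable def FS (f : MvPolynomial σ ℂ) (g : Fin r → MvPolynomial σ ℂ) :
    MvPolynomial (σ ⊕ Fin r) ℂ :=
  rename Sum.inl f + ∑ k, X (Sum.inr k) * rename Sum.inl (g k)

theorem isCI_span [Finite σ] {g : Fin r → MvPolynomial σ ℂ} (h : IsCI g) :
    Ideal.span (Set.range g ∪ Set.range fun ι : Fin r → σ => (jm g ι).det) = ⊤ := by
  set I := Ideal.span (Set.range g ∪ Set.range fun ι : Fin r → σ => (jm g ι).det) with hI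
  have h1 : zeroLocus ℂ I = ∅ := by
    rw [Set.eq_empty_iff_forall_notMem]
    intro x hx
    rw [mem_zeroLocus_iff] at hx
    have h2 : ∀ k, eval x (g k) = 0 := by
      intro k
      have := hx (g k) (Ideal.subset_span (Or.inl ⟨k, rfl⟩))
      rwa [aeval_eq_eval] at this
    obtain ⟨ι, hι⟩ := h x h2
    apply hι
    have := hx (jm g ι).det (Ideal.subset_span (Or.inr ⟨ι, rfl⟩))
    rwa [aeval_eq_eval] at this
  have h2 := vanishingIdeal_zeroLocus_eq_radical (K := ℂ) I
  rw [h1, vanishingIdeal_empty] at h2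
  exact Ideal.radical_eq_top.1 h2.symm

theorem local_eq [Finite σ] {f : MvPolynomial σ ℂ} {g : Fin r → MvPolynomial σ ℂ}
    {b : Polynomial ℂ} (hb : IsBX f g b) (ι : Fin r → σ) :
    ∃ K : ℕ, ∃ Q ∈ fam (σ ⊕ Fin r), ∀ M : ℕ, Q M (FS f g ^ M) =
      rename Sum.inl (jm g ι).det ^ K *
        (C ((M : ℂ) * b.eval ((M : ℂ) - 1 + r)) * FS f g ^ (M - 1)) := by
  by_cases hJ : (jm g ι).det = 0
  · refine ⟨1, 0, (fam _).zero_mem, fun M => ?_⟩
    rw [hJ, map_zero, pow_one, zero_mul]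
    rfl
  set J := (jm g ι).det with hJdef
  obtain ⟨P₁, hP₁, h₁⟩ := hb
  obtain ⟨P₂, hP₂, h₂⟩ := famG_pred hP₁
  set A' := Localization.Away J with hA'
  have hP₃ := (famG (Set.univ : Set (Derivation ℂ (MvPolynomial σ ℂ ⧸ Ideal.span (Set.range g))
      (MvPolynomial σ ℂ ⧸ Ideal.span (Set.range g))))).mul_mem famG_nat hP₂
  obtain ⟨P₀, P', hP', hPP⟩ := exists_quot_lift (A' := A') g J hP₃
  set g' : Fin r → A' := fun k => algebraMap (MvPolynomial σ ℂ) A' (g k) with hg'
  set f' : A' := algebraMap (MvPolynomial σ ℂ) A' f with hf'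
  obtain ⟨δ, hδ, hc⟩ := exists_frame (A' := A') g ι
  have hmap : ∀ a ∈ Ideal.span (Set.range g), algebraMap (MvPolynomial σ ℂ) A' a ∈
      Ideal.span (Set.range g') := by
    intro a ha
    have h1 : Ideal.span (Set.range g) ≤
        (Ideal.span (Set.range g')).comap (algebraMap (MvPolynomial σ ℂ) A') := by
      rw [Ideal.span_le]
      rintro _ ⟨k, rfl⟩
      exact Ideal.subset_span ⟨k, rfl⟩
    exact h1 ha
  have h : ∀ M : ℕ, P' M (f' ^ M) - ((M : ℂ) * b.eval ((M : ℂ) - 1)) • f' ^ (M - 1) ∈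
      Ideal.span (Set.range g') := by
    intro M
    have e1 : P₀ M (f ^ M) - ((M : ℂ) * b.eval ((M : ℂ) - 1)) • f ^ (M - 1) ∈
        Ideal.span (Set.range g) := by
      rw [← Ideal.Quotient.eq_zero_iff_mem, map_sub, (hPP M _).1, sub_eq_zero]
      have e2 : Ideal.Quotient.mk (Ideal.span (Set.range g))
          (((M : ℂ) * b.eval ((M : ℂ) - 1)) • f ^ (M - 1)) =
          ((M : ℂ) * b.eval ((M : ℂ) - 1)) • Ideal.Quotient.mk (Ideal.span (Set.range g)) f ^
            (M - 1) := by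
        rw [← map_pow]
        exact (Ideal.Quotient.mkₐ ℂ (Ideal.span (Set.range g))).map_smul_of_tower _ _
      rw [e2, Pi.mul_apply, Module.End.mul_apply, LinearMap.smul_apply, Module.End.one_apply,
        map_pow]
      rcases M with _ | M
      · simp
      · rw [h₂, h₁, Nat.add_sub_cancel, smul_smul]
        congr 2
        push_cast
        rw [add_sub_cancel_right]
    have e3 := hmap _ e1
    rw [map_sub, (hPP M _).2, map_pow] at e3
    have e4 : algebraMap (MvPolynomial σ ℂ) A' (((M : ℂ) * b.eval ((M : ℂ) - 1)) • f ^ (M - 1)) =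
        ((M : ℂ) * b.eval ((M : ℂ) - 1)) • f' ^ (M - 1) := by
      rw [hf', ← map_pow]
      exact (IsScalarTower.toAlgHom ℂ (MvPolynomial σ ℂ) A').map_smul_of_tower _ _
    rwa [e4] at e3
  obtain ⟨f₀, hf₀, Q, hQ, hQ2⟩ := core (PEpoly A' r) hδ hc f' b hP' h
  obtain ⟨q, hq⟩ := Ideal.mem_span_range_iff_exists_fun.1 hf₀
  obtain ⟨Q', hQ', hQ2'⟩ := famG_conj (shiftE q) hQ
  have hφ : shiftE q ((PEpoly A' r).phi g' f₀) = (PEpoly A' r).phi g' f' := by
    have e1 : f₀ = f' + ∑ k, q k * g' k := by rw [hq]; ring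
    have e2 : ∀ k, (PEpoly A' r).y k = X k := fun k => rfl
    simp only [PE.phi, MvPolynomial.algebraMap_eq, map_add, map_sum, map_mul, shiftE_C, e2,
      shiftE_X]
    rw [e1, map_add, map_sum, add_assoc, ← Finset.sum_add_distrib]
    congr 1
    refine Finset.sum_congr rfl fun k _ => ?_
    rw [map_mul]
    ring
  have hκ : kap A' r (FS f g) = (PEpoly A' r).phi g' f' := by
    have e2 : ∀ k, (PEpoly A' r).y k = X k := fun k => rfl
    simp only [PE.phi, MvPolynomial.algebraMap_eq, FS, map_add, map_sum, map_mul, kap_inl, kap_X,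
      e2]
    rfl
  obtain ⟨K, Q'', hQ'', hfin⟩ := descend (σ := σ) (A' := A') J hQ' 0
  refine ⟨K, Q'', hQ'', fun M => ?_⟩
  apply kap_inj (A' := A') hJ
  have e1 : kap A' r (FS f g ^ M) = (PEpoly A' r).phi g' f' ^ M := by rw [map_pow, hκ]
  have e2 := hfin M (FS f g ^ M) ((PEpoly A' r).phi g' f' ^ M) (by rw [pow_zero, one_mul, e1])
  have e3 : Q' M ((PEpoly A' r).phi g' f' ^ M) =
      ((M : ℂ) * b.eval ((M : ℂ) - 1 + r)) • (PEpoly A' r).phi g' f' ^ (M - 1) := by
    have e4 : (PEpoly A' r).phi g' f' ^ M = shiftE q ((PEpoly A' r).phi g' f₀ ^ M) := by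
      rw [map_pow, hφ]
    rw [e4, hQ2', ← hQ2 M, map_smul, map_pow, hφ]
  have e5 : kap A' r (C ((M : ℂ) * b.eval ((M : ℂ) - 1 + r)) : MvPolynomial (σ ⊕ Fin r) ℂ) =
      algebraMap ℂ (MvPolynomial (Fin r) A') ((M : ℂ) * b.eval ((M : ℂ) - 1 + r)) :=
    (kap (σ := σ) A' r).commutes _
  rw [← e2, e3, map_mul, map_pow, map_mul, map_pow, hκ, e5, Algebra.smul_def]

/-- **The functional equation of `f + ∑ y_k g_k`.** -/
theorem bs1_FS [Finite σ] {f : MvPolynomial σ ℂ} {g : Fin r → MvPolynomial σ ℂ}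
    (hg : IsCI g) {b : Polynomial ℂ} (hb : IsBX f g b) :
    BS1 (FS f g) (b.comp (Polynomial.X + Polynomial.C (r : ℂ))) := by
  set R := MvPolynomial (σ ⊕ Fin r) ℂ with hR
  have hev : ∀ M : ℕ, (b.comp (Polynomial.X + Polynomial.C (r : ℂ))).eval ((M : ℂ) - 1) =
      b.eval ((M : ℂ) - 1 + r) := by
    intro M
    rw [Polynomial.eval_comp, Polynomial.eval_add, Polynomial.eval_X, Polynomial.eval_C]
  let 𝔞 : Ideal R :=
    { carrier := {a | ∃ Q ∈ fam (σ ⊕ Fin r), ∀ M : ℕ, Q M (FS f g ^ M) =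
        a * (C ((M : ℂ) * b.eval ((M : ℂ) - 1 + r)) * FS f g ^ (M - 1))}
      add_mem' := by
        rintro x y ⟨Q, hQ, h⟩ ⟨Q', hQ', h'⟩
        exact ⟨Q + Q', (fam _).add_mem hQ hQ', fun M => by
          rw [Pi.add_apply, LinearMap.add_apply, h, h', add_mul]⟩
      zero_mem' := ⟨0, (fam _).zero_mem, fun M => by rw [zero_mul]; rfl⟩
      smul_mem' := by
        rintro c x ⟨Q, hQ, h⟩
        exact ⟨_, (fam _).mul_mem (fam_const (weylS_mulLeft c)) hQ, fun M => by
          rw [Pi.mul_apply, Module.End.mul_apply, LinearMap.mulLeft_apply, h, smul_eq_mul,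
            mul_assoc]⟩ }
  have hgk : ∀ k, rename Sum.inl (g k) ∈ 𝔞 := by
    intro k
    refine ⟨_, (fam _).mul_mem (fam_poly _ (b.comp (Polynomial.X - 1 + Polynomial.C (r : ℂ))))
      (fam_const (weylS_pderiv (Sum.inr k))), fun M => ?_⟩
    have e1 : pderiv (Sum.inr k) (FS f g) = rename Sum.inl (g k) := by
      rw [FS, map_add, pderiv_rename_of_not Sum.inl (Sum.inr k) (by simp), zero_add, map_sum,
        Finset.sum_eq_single k]
      · rw [Derivation.leibniz, pderiv_rename_of_not Sum.inl (Sum.inr k) (by simp),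
          pderiv_X_self]
        simp
      · intro l _ hl
        rw [Derivation.leibniz, pderiv_rename_of_not Sum.inl (Sum.inr k) (by simp),
          pderiv_X_of_ne (by simpa using hl)]
        simp
      · intro h
        exact absurd (Finset.mem_univ k) h
    rw [Pi.mul_apply, Module.End.mul_apply, LinearMap.smul_apply, Module.End.one_apply,
      Derivation.coeFn_coe, Derivation.leibniz_pow, e1, Polynomial.eval_comp, Polynomial.eval_add,
      Polynomial.eval_sub, Polynomial.eval_X, Polynomial.eval_one, Polynomial.eval_C,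
      MvPolynomial.smul_eq_C_mul, smul_eq_mul, nsmul_eq_mul, map_mul, map_natCast]
    ring
  have hrad : 𝔞.radical = ⊤ := by
    have h1 : Ideal.span (Set.range g ∪ Set.range fun ι : Fin r → σ => (jm g ι).det) ≤
        𝔞.radical.comap (rename Sum.inl : MvPolynomial σ ℂ →ₐ[ℂ] R).toRingHom := by
      rw [Ideal.span_le]
      rintro _ (⟨k, rfl⟩ | ⟨ι, rfl⟩)
      · exact Ideal.le_radical (hgk k)
      · obtain ⟨K, Q, hQ, h⟩ := local_eq hb ι
        exact ⟨K, Q, hQ, h⟩
    rw [isCI_span hg] at h1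
    have h2 := h1 (Submodule.mem_top (x := (1 : MvPolynomial σ ℂ)))
    rw [Ideal.mem_comap, map_one] at h2
    exact (Ideal.eq_top_iff_one _).2 h2
  have h1 : (1 : R) ∈ 𝔞 := by
    rw [Ideal.radical_eq_top.1 hrad]
    trivial
  obtain ⟨Q, hQ, h⟩ := h1
  refine ⟨Q, hQ, fun M => ?_⟩
  rw [h, hev, one_mul]

end Pool.Agent.Q221.Sm
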