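import Pool.Agent.Q221.Sm.Lin
import Pool.Agent.Q221.Sm.Glue

/-!
# The classes of the sets of jets of `f + ∑ y_k g_k`
-/

set_option autoImplicit false
set_option linter.unusedSectionVars false

namespace Pool.Agent.Q221.Sm

open MvPolynomial Pool.Agent.W428.MOT Pool.Agent.TH192.MT Pool.Agent.TH192.MU
open Pool.Agent.Q223.ID Pool.Agent.Q223.TW

variable {σ : Type} {r : ℕ} (g : Fin r → MvPolynomial σ ℂ) (f : MvPolynomial σ ℂ)

/-- the jets of level `N` with `g_k = 0` modulo `t ^ i` and `f = 0` modulo `t ^ j` -/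
def TS (i j N : ℕ) : Set (Pt ℂ (σ × Fin (N + 1))) :=
  {z | (∀ k, ∀ l < i, PowerSeries.coeff l (aeval (ar z) (g k)) = 0) ∧
    ∀ l < j, PowerSeries.coeff l (aeval (ar z) f) = 0}

theorem constr_TS (i j N : ℕ) : Constr (TS g f i j N) :=
  Constr.and (Constr.all fun k => Constr.allLt _ fun l _ => Constr.eqz (isPF_coeff (g k) l))
    (Constr.allLt _ fun l _ => Constr.eqz (isPF_coeff f l))

theorem pfc {N : ℕ} (p : MvPolynomial σ ℂ) (l : ℕ) :
    IsPF fun z : Pt ℂ (Unit ⊕ σ × Fin (N + 1)) =>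
      PowerSeries.coeff l (aeval (ar fun i => z (Sum.inr i)) p) :=
  (isPF_coeff p l).comp (fun z : Pt ℂ (Unit ⊕ σ × Fin (N + 1)) => fun i => z (Sum.inr i))
    fun _ => IsPF.coord _

theorem constr_JetCX (k d : ℕ) : Constr (JetCX g f k d) :=
  Constr.and (constr_JetC f k d) (Constr.all fun i => Constr.allLt _ fun j _ =>
    Constr.eqz (pfc (g i) j))

/-! ### The linear equations -/

/-- the matrix of the equations -/
noncomputable def Bm (N j : ℕ) (b : Fin r × Fin (N + 1)) (z : Pt ℂ (Unit ⊕ σ × Fin (N + 1))) :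
    AlgebraicClosure ℂ :=
  if (b.2 : ℕ) ≤ j then
    PowerSeries.coeff (j - b.2) (aeval (ar fun i => z (Sum.inr i)) (g b.1)) else 0

/-- the right hand sides -/
noncomputable def cm (k N j : ℕ) (z : Pt ℂ (Unit ⊕ σ × Fin (N + 1))) : AlgebraicClosure ℂ :=
  (if j = N then z (Sum.inl ()) ^ k else 0) -
    PowerSeries.coeff j (aeval (ar fun i => z (Sum.inr i)) f)

theorem isPF_Bm (N j : ℕ) (b : Fin r × Fin (N + 1)) : IsPF (Bm g N j b) := by
  unfold Bm
  split_ifs
  · exact pfc (g b.1) _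
  · exact IsPF.zero

theorem isPF_cm (k N j : ℕ) : IsPF (cm f k N j) := by
  refine IsPF.sub ?_ (pfc f j)
  split_ifs
  · exact (IsPF.coord _).pow k
  · exact IsPF.zero

theorem coeff_ser_mul {F : Type} [Field F] {n : ℕ} (y : Fin n → F) (G : PowerSeries F) (j : ℕ)
    (hj : j < n) : PowerSeries.coeff j (ser y * G) =
      ∑ a : Fin n, (if (a : ℕ) ≤ j then PowerSeries.coeff (j - a) G else 0) * y a := by
  rw [PowerSeries.coeff_mul, Finset.Nat.sum_antidiagonal_eq_sum_range_succ_mk]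
  have h1 : ∑ a : Fin n, (if (a : ℕ) ≤ j then PowerSeries.coeff (j - a) G else 0) * y a =
      ∑ a ∈ Finset.range n, (if a ≤ j then PowerSeries.coeff (j - a) G else 0) *
        (if h : a < n then y ⟨a, h⟩ else 0) := by
    rw [Finset.sum_range]
    exact Finset.sum_congr rfl fun a _ => by rw [dif_pos a.2]
  rw [h1, ← Finset.sum_subset (Finset.range_subset_range.2 (Nat.succ_le_of_lt hj))]
  · refine Finset.sum_congr rfl fun a ha => ?_
    have ha' := Finset.mem_range.1 ha
    have h2 : a < n := by omega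
    rw [if_pos (by omega), dif_pos h2, coeff_ser _ _ h2, mul_comm]
  · intro a _ ha
    rw [Finset.mem_range, not_lt] at ha
    rw [if_neg (by omega), zero_mul]

theorem sum_Bm {N j : ℕ} (hj : j < N + 1) (z : Pt ℂ (Unit ⊕ σ × Fin (N + 1)))
    (y : Fin r × Fin (N + 1) → AlgebraicClosure ℂ) : ∑ b, Bm g N j b z * y b =
      ∑ k, PowerSeries.coeff j (ser (fun a => y (k, a)) *
        aeval (ar fun i => z (Sum.inr i)) (g k)) := by
  rw [Fintype.sum_prod_type]
  refine Finset.sum_congr rfl fun k _ => ?_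
  rw [coeff_ser_mul _ _ j hj]
  rfl

/-- the equations are surjective -/
theorem Bm_surj {N m : ℕ} (hm : m ≤ N) (z : Pt ℂ (Unit ⊕ σ × Fin (N + 1)))
    (h0 : ∀ k, ∀ l < m, PowerSeries.coeff l (aeval (ar fun i => z (Sum.inr i)) (g k)) = 0)
    (h1 : ∃ k, PowerSeries.coeff m (aeval (ar fun i => z (Sum.inr i)) (g k)) ≠ 0)
    (v : Fin (N + 1 - m) → AlgebraicClosure ℂ) :
    ∃ y : Fin r × Fin (N + 1) → AlgebraicClosure ℂ,
      ∀ i : Fin (N + 1 - m), ∑ b, Bm g N (m + i) b z * y b = v i := by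
  classical
  obtain ⟨k, hk⟩ := h1
  obtain ⟨U, hU⟩ := PowerSeries.X_pow_dvd_iff.2 (h0 k)
  have hU0 : PowerSeries.constantCoeff U ≠ 0 := by
    rw [hU] at hk
    have h2 := PowerSeries.coeff_X_pow_mul U m 0
    rw [zero_add] at h2
    rw [h2, PowerSeries.coeff_zero_eq_constantCoeff_apply] at hk
    exact hk
  refine ⟨fun b => if b.1 = k then PowerSeries.coeff (b.2 : ℕ) (U⁻¹ * ser v) else 0, fun i => ?_⟩
  have hi := i.2
  rw [sum_Bm g (by omega), Finset.sum_eq_single k]
  · rw [hU, mul_left_comm, add_comm, PowerSeries.coeff_X_pow_mul]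
    have h3 : ∀ j ≤ (i : ℕ), PowerSeries.coeff j (ser fun a : Fin (N + 1) =>
        if (k, a).1 = k then PowerSeries.coeff ((k, a).2 : ℕ) (U⁻¹ * ser v) else 0) =
        PowerSeries.coeff j (U⁻¹ * ser v) := by
      intro j hj
      rw [coeff_ser _ _ (by omega : j < N + 1), if_pos rfl]
    rw [mul_comm, coeff_mul_congr U _ (U⁻¹ * ser v) i h3, ← mul_assoc,
      PowerSeries.mul_inv_cancel _ hU0, one_mul, coeff_ser _ _ hi]
  · intro l _ hl
    have h3 : (fun a : Fin (N + 1) => if (l, a).1 = k then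
        PowerSeries.coeff ((l, a).2 : ℕ) (U⁻¹ * ser v) else 0) = fun _ => 0 := by
      funext a
      rw [if_neg hl]
    have h4 : (ser fun _ : Fin (N + 1) => (0 : AlgebraicClosure ℂ)) = 0 := by
      ext j
      rw [ser, PowerSeries.coeff_mk, map_zero]
      split_ifs <;> rfl
    rw [h3, h4, zero_mul, map_zero]
  · intro h
    exact absurd (Finset.mem_univ k) h

/-! ### Coordinates -/

/-- the coordinates of the jets of `σ ⊕ Fin r` -/
def coE (σ : Type) (r N : ℕ) : (Unit ⊕ σ × Fin (N + 1)) ⊕ Fin r × Fin (N + 1) ≃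
    Unit ⊕ (σ ⊕ Fin r) × Fin (N + 1) where
  toFun
    | Sum.inl (Sum.inl u) => Sum.inl u
    | Sum.inl (Sum.inr p) => Sum.inr (Sum.inl p.1, p.2)
    | Sum.inr p => Sum.inr (Sum.inr p.1, p.2)
  invFun
    | Sum.inl u => Sum.inl (Sum.inl u)
    | Sum.inr (Sum.inl i, a) => Sum.inl (Sum.inr (i, a))
    | Sum.inr (Sum.inr k, a) => Sum.inr (k, a)
  left_inv := by
    rintro ((u | p) | p)
    · rfl
    · rfl
    · rfl
  right_inv := by
    rintro (u | ⟨i | k, a⟩)
    · rfl
    · rfl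
    · rfl

theorem chi_reindex {K : Type} [Field K] {R : Type} [CommRing R] (M : Meas K R) {ι κ : Type}
    [Fintype ι] [Fintype κ] (e : ι ≃ κ) {S : Set (Pt K κ)} (hS : Constr S) :
    M.χ κ S = M.χ ι {w | (fun j => w (e.symm j)) ∈ S} := by
  refine M.iso _ _ hS (hS.preimage (fun w : Pt K ι => fun j => w (e.symm j))
    fun i => IsPF.coord _) (fun z i => z (e i)) (fun w j => w (e.symm j))
    (regularOn_poly (fun i => IsPF.coord _) _) (regularOn_poly (fun i => IsPF.coord _) _) ?_ ?_ ?_ ?_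
  · intro z hz
    simp only [Set.mem_ofPred_eq, Equiv.apply_symm_apply]
    exact hz
  · intro w hw
    exact hw
  · intro z _
    funext i
    simp
  · intro w _
    funext i
    simp

/-- the value of `f + ∑ y_k g_k` on a jet -/
theorem aeval_FS {N : ℕ} (w : Pt ℂ ((Unit ⊕ σ × Fin (N + 1)) ⊕ Fin r × Fin (N + 1))) :
    aeval (ar fun i => (fun j => w ((coE σ r N).symm j)) (Sum.inr i)) (FS f g) =
      aeval (ar fun i => (fun j => w (Sum.inl j)) (Sum.inr i)) f +
      ∑ k, ser (fun a => w (Sum.inr (k, a))) *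
        aeval (ar fun i => (fun j => w (Sum.inl j)) (Sum.inr i)) (g k) := by
  rw [FS, map_add, map_sum, aeval_rename]
  congr 1
  refine Finset.sum_congr rfl fun k _ => ?_
  rw [map_mul, aeval_X, aeval_rename]
  rfl

theorem mem_JetC_FS {k N : ℕ} (w : Pt ℂ ((Unit ⊕ σ × Fin (N + 1)) ⊕ Fin r × Fin (N + 1))) :
    (fun j => w ((coE σ r N).symm j)) ∈ JetC (FS f g) k N ↔
      w (Sum.inl (Sum.inl ())) ≠ 0 ∧ ∀ j < N + 1,
        ∑ b, Bm g N j b (fun i => w (Sum.inl i)) * w (Sum.inr b) =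
          cm f k N j fun i => w (Sum.inl i) := by
  have key : ∀ j < N + 1, PowerSeries.coeff j
      (aeval (ar fun i => (fun j => w ((coE σ r N).symm j)) (Sum.inr i)) (FS f g)) =
      PowerSeries.coeff j (aeval (ar fun i => (fun j => w (Sum.inl j)) (Sum.inr i)) f) +
        ∑ b, Bm g N j b (fun i => w (Sum.inl i)) * w (Sum.inr b) := by
    intro j hj
    rw [aeval_FS, map_add, map_sum, sum_Bm g hj]
  constructor
  · rintro ⟨h1, -, h2, h3⟩
    refine ⟨h1, fun j hj => ?_⟩
    by_cases h : j = N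
    · subst h
      rw [cm, if_pos rfl, eq_sub_iff_add_eq, add_comm, ← key j hj]
      exact h3
    · rw [cm, if_neg h, zero_sub, eq_neg_iff_add_eq_zero, add_comm, ← key j hj]
      exact h2 j (by omega)
  · rintro ⟨h1, h2⟩
    refine ⟨h1, trivial, fun j hj => ?_, ?_⟩
    · rw [key j (by omega), h2 j (by omega), cm, if_neg (by omega), zero_sub]
      exact add_neg_cancel _
    · have h3 := h2 N (Nat.lt_succ_self N)
      show PowerSeries.coeff N _ = w (Sum.inl (Sum.inl ())) ^ k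
      rw [key N (Nat.lt_succ_self N), h3, cm, if_pos rfl]
      exact add_sub_cancel _ _

/-! ### The decomposition -/

section dec

variable {R : Type} [CommRing R] (M : Meas ℂ R) [Fintype σ]

/-- the base of the part on which the ideal of the `g_k` has the order `m` -/
def Sb (m N : ℕ) : Set (Pt ℂ (Unit ⊕ σ × Fin (N + 1))) :=
  {z | z (Sum.inl ()) ≠ 0 ∧ (fun p => z (Sum.inr p)) ∈ TS g f m m N \ TS g f (m + 1) m N}

theorem constr_Sb (m N : ℕ) : Constr (Sb g f m N) := by
  refine Constr.and (Constr.not (Constr.eqz (IsPF.coord _))) ?_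
  have h1 : Constr (TS g f m m N \ TS g f (m + 1) m N) := by
    rw [Set.sdiff_eq]
    exact (constr_TS g f m m N).inter (constr_TS g f (m + 1) m N).compl
  exact h1.preimage (fun z : Pt ℂ (Unit ⊕ σ × Fin (N + 1)) => fun p => z (Sum.inr p))
    fun _ => IsPF.coord _

theorem TS_sub (m N : ℕ) : TS g f (m + 1) m N ⊆ TS g f m m N :=
  fun _ hz => ⟨fun k l hl => hz.1 k l (by omega), hz.2⟩

theorem chi_diff {ι : Type} [Fintype ι] {S T : Set (Pt ℂ ι)} (hS : Constr S) (hT : Constr T)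
    (h : T ⊆ S) : M.χ ι (S \ T) = M.χ ι S - M.χ ι T := by
  have h1 : Constr (S \ T) := by
    rw [Set.sdiff_eq]
    exact hS.inter hT.compl
  have h2 := M.add (S \ T) T h1 hT Set.disjoint_sdiff_left
  rw [Set.sdiff_union_of_subset h] at h2
  rw [h2, add_sub_cancel_right]

theorem chi_Sb (m N : ℕ) : M.χ _ (Sb g f m N) =
    (M.L - 1) * (M.χ _ (TS g f m m N) - M.χ _ (TS g f (m + 1) m N)) := by
  have h1 : Constr {z : Pt ℂ (Fin 1) | z 0 ≠ 0} := (Constr.eqz (IsPF.coord 0)).compl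
  have h2 : Constr (TS g f m m N \ TS g f (m + 1) m N) := by
    rw [Set.sdiff_eq]
    exact (constr_TS g f m m N).inter (constr_TS g f (m + 1) m N).compl
  rw [← chi_diff M (constr_TS g f m m N) (constr_TS g f (m + 1) m N) (TS_sub g f m N),
    ← Pool.Agent.W417.MT.Free.chi_gm, ← M.prod _ _ h1 h2]
  refine M.iso _ _ (constr_Sb g f m N)
    (Constr.and (h1.preimage (fun z : Pt ℂ (Fin 1 ⊕ σ × Fin (N + 1)) => fun i => z (Sum.inl i))
      fun _ => IsPF.coord _) (h2.preimage
      (fun z : Pt ℂ (Fin 1 ⊕ σ × Fin (N + 1)) => fun i => z (Sum.inr i)) fun _ => IsPF.coord _))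
    (fun z => Sum.elim (fun _ => z (Sum.inl ())) fun p => z (Sum.inr p))
    (fun w => Sum.elim (fun _ => w (Sum.inl 0)) fun p => w (Sum.inr p))
    (regularOn_poly (fun i => ?_) _) (regularOn_poly (fun i => ?_) _) ?_ ?_ ?_ ?_
  · rcases i with i | i
    · exact IsPF.coord _
    · exact IsPF.coord _
  · rcases i with i | i
    · exact IsPF.coord _
    · exact IsPF.coord _
  · intro z hz
    exact hz
  · intro w hw
    exact hw
  · intro z _
    funext i
    rcases i with i | i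
    · rfl
    · rfl
  · intro w _
    funext i
    rcases i with i | i
    · rw [Subsingleton.elim i 0]
      rfl
    · rfl

/-- the part of the jets with `g_k = 0` modulo `t ^ m` -/
def JP (k N m : ℕ) : Set (Pt ℂ ((Unit ⊕ σ × Fin (N + 1)) ⊕ Fin r × Fin (N + 1))) :=
  {w | (w (Sum.inl (Sum.inl ())) ≠ 0 ∧ ∀ j < N + 1,
        ∑ b, Bm g N j b (fun i => w (Sum.inl i)) * w (Sum.inr b) =
          cm f k N j fun i => w (Sum.inl i)) ∧
    ∀ i, ∀ l < m, PowerSeries.coeff l (aeval (ar fun p => w (Sum.inl (Sum.inr p))) (g i)) = 0}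

theorem constr_JP (k N m : ℕ) : Constr (JP g f k N m) := by
  have hpre : ∀ {F : Pt ℂ (Unit ⊕ σ × Fin (N + 1)) → AlgebraicClosure ℂ}, IsPF F →
      IsPF fun z : Pt ℂ ((Unit ⊕ σ × Fin (N + 1)) ⊕ Fin r × Fin (N + 1)) =>
        F fun i => z (Sum.inl i) := fun hF =>
    hF.comp (fun z : Pt ℂ ((Unit ⊕ σ × Fin (N + 1)) ⊕ Fin r × Fin (N + 1)) =>
      fun i => z (Sum.inl i)) fun _ => IsPF.coord _
  refine Constr.and (Constr.and (Constr.not (Constr.eqz (IsPF.coord _))) (Constr.allLt _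
    fun j _ => Constr.eq (IsPF.sum _ _ fun b _ => (hpre (isPF_Bm g N j b)).mul (IsPF.coord _))
      (hpre (isPF_cm f k N j)))) (Constr.all fun i => Constr.allLt _ fun l _ => Constr.eqz ?_)
  exact hpre (pfc (g i) l)

/-- the part of order `m` -/
theorem chi_JP_step (k N m : ℕ) (hm : m ≤ N) : M.χ _ (JP g f k N m) =
    M.χ _ (JP g f k N (m + 1)) + (M.L - 1) * (M.χ _ (TS g f m m N) - M.χ _ (TS g f (m + 1) m N)) *
      M.L ^ (r * (N + 1) - (N + 1 - m)) := by
  set D := JP g f k N m \ JP g f k N (m + 1) with hD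
  have hsub : JP g f k N (m + 1) ⊆ JP g f k N m :=
    fun _ hz => ⟨hz.1, fun i l hl => hz.2 i l (by omega)⟩
  have h1 : M.χ _ D = M.χ _ (JP g f k N m) - M.χ _ (JP g f k N (m + 1)) :=
    chi_diff M (constr_JP g f k N m) (constr_JP g f k N (m + 1)) hsub
  have h2 : D = {z | (fun i => z (Sum.inl i)) ∈ Sb g f m N ∧ ∀ i : Fin (N + 1 - m),
      ∑ b, Bm g N (m + i) b (fun i => z (Sum.inl i)) * z (Sum.inr b) =
        cm f k N (m + i) fun i => z (Sum.inl i)} := by
    have hlow : ∀ (w : Pt ℂ ((Unit ⊕ σ × Fin (N + 1)) ⊕ Fin r × Fin (N + 1))),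
        (∀ i, ∀ l < m, PowerSeries.coeff l (aeval (ar fun p => w (Sum.inl (Sum.inr p))) (g i)) = 0) →
        ∀ j < m, ∑ b, Bm g N j b (fun i => w (Sum.inl i)) * w (Sum.inr b) = 0 ∧
          cm f k N j (fun i => w (Sum.inl i)) =
            - PowerSeries.coeff j (aeval (ar fun p => w (Sum.inl (Sum.inr p))) f) := by
      intro w hw j hj
      constructor
      · refine Finset.sum_eq_zero fun b _ => ?_
        rw [Bm]
        split_ifs with hb
        · have h3 := hw b.1 (j - b.2) (by omega)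
          have h4 : PowerSeries.coeff (j - b.2) (aeval (ar fun i =>
            (fun i => w (Sum.inl i)) (Sum.inr i)) (g b.1)) = 0 := h3
          rw [h4, zero_mul]
        · exact zero_mul _
      · rw [cm, if_neg (by omega), zero_sub]
    ext w
    constructor
    · rintro ⟨⟨⟨h3, h4⟩, h5⟩, h6⟩
      refine ⟨⟨h3, ⟨h5, fun l hl => ?_⟩, fun h7 => h6 ⟨⟨h3, h4⟩, h7.1⟩⟩, fun i => ?_⟩
      · have h7 := h4 l (by omega)
        obtain ⟨h8, h9⟩ := hlow w h5 l hl
        rw [h8, h9] at h7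
        exact neg_eq_zero.1 h7.symm
      · have := i.2
        exact h4 _ (by omega)
    · rintro ⟨⟨h3, ⟨h5, h5'⟩, h6⟩, h7⟩
      refine ⟨⟨⟨h3, fun j hj => ?_⟩, h5⟩, fun h8 => h6 ⟨h8.2, h5'⟩⟩
      by_cases hjm : j < m
      · obtain ⟨h8, h9⟩ := hlow w h5 j hjm
        rw [h8, h9]
        have h10 := h5' j hjm
        have h11 : PowerSeries.coeff j (aeval (ar fun p => w (Sum.inl (Sum.inr p))) f) = 0 := h10
        rw [h11, neg_zero]
      · have h8 := h7 ⟨j - m, by omega⟩
        have h9 : m + (j - m) = j := by omega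
        simp only [h9] at h8
        exact h8
  have h3 : M.χ _ D = M.χ _ (Sb g f m N) * M.L ^ (Fintype.card (Fin r × Fin (N + 1)) -
      (N + 1 - m)) := by
    rw [h2]
    refine chi_lin M (constr_Sb g f m N) (fun i b => isPF_Bm g N (m + i) b)
      (fun i => isPF_cm f k N (m + i)) ?_
    rintro z ⟨-, ⟨h4, h5⟩, h6⟩ v
    refine Bm_surj g hm z h4 ?_ v
    by_contra hcon
    push Not at hcon
    refine h6 ⟨fun i l hl => ?_, h5⟩
    rcases Nat.lt_succ_iff_lt_or_eq.1 hl with h7 | rfl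
    · exact h4 i l h7
    · exact hcon i
  rw [Fintype.card_prod, Fintype.card_fin, Fintype.card_fin] at h3
  rw [← chi_Sb g f M, ← h3, h1]
  ring

theorem chi_JP_top (k N : ℕ) : M.χ _ (JP g f k N (N + 1)) =
    M.χ _ (JetCX g f k N) * M.L ^ (r * (N + 1)) := by
  have h := chi_split M (Equiv.refl ((Unit ⊕ σ × Fin (N + 1)) ⊕ Fin r × Fin (N + 1)))
    (JP g f k N (N + 1)) (JetCX g f k N) (constr_JetCX g f k N) (fun w => ?_)
  · rw [h, Fintype.card_prod, Fintype.card_fin, Fintype.card_fin]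
  · have hB : (∀ i, ∀ l < N + 1, PowerSeries.coeff l
        (aeval (ar fun p => w (Sum.inl (Sum.inr p))) (g i)) = 0) → ∀ j < N + 1,
        ∑ b, Bm g N j b (fun i => w (Sum.inl i)) * w (Sum.inr b) = 0 := by
      intro hw j hj
      refine Finset.sum_eq_zero fun b _ => ?_
      rw [Bm]
      split_ifs with hb
      · have h4 : PowerSeries.coeff (j - b.2) (aeval (ar fun i =>
          (fun i => w (Sum.inl i)) (Sum.inr i)) (g b.1)) = 0 := hw b.1 (j - b.2) (by omega)
        rw [h4, zero_mul]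
      · exact zero_mul _
    constructor
    · rintro ⟨⟨h1, h2⟩, h3⟩
      refine ⟨⟨h1, trivial, fun j hj => ?_, ?_⟩, h3⟩
      · have h4 := h2 j (by omega)
        rw [hB h3 j (by omega), cm, if_neg (by omega), zero_sub] at h4
        exact neg_eq_zero.1 h4.symm
      · have h4 := h2 N (Nat.lt_succ_self N)
        rw [hB h3 N (Nat.lt_succ_self N), cm, if_pos rfl] at h4
        exact (sub_eq_zero.1 h4.symm).symm
    · rintro ⟨⟨h1, -, h2, h2'⟩, h3⟩
      refine ⟨⟨h1, fun j hj => ?_⟩, h3⟩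
      rw [hB h3 j hj, cm]
      by_cases h : j = N
      · subst h
        rw [if_pos rfl]
        exact (sub_eq_zero.2 h2'.symm).symm
      · rw [if_neg h, zero_sub]
        have h4 := h2 j (by omega)
        exact (neg_eq_zero.2 h4).symm

/-- **The classes of the covers for `f + ∑ y_k g_k`.** -/
theorem chi_JetC_FS (k N : ℕ) : M.χ _ (JetC (FS f g) k N) =
    M.χ _ (JetCX g f k N) * M.L ^ (r * (N + 1)) +
      ∑ m ∈ Finset.range (N + 1), (M.L - 1) * (M.χ _ (TS g f m m N) -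
        M.χ _ (TS g f (m + 1) m N)) * M.L ^ (r * (N + 1) - (N + 1 - m)) := by
  have h0 : M.χ _ (JetC (FS f g) k N) = M.χ _ (JP g f k N 0) := by
    rw [chi_reindex M (coE σ r N) (constr_JetC (FS f g) k N)]
    congr 1
    ext w
    rw [Set.mem_ofPred_eq, mem_JetC_FS]
    exact ⟨fun h => ⟨h, fun i l hl => absurd hl (Nat.not_lt_zero l)⟩, fun h => h.1⟩
  have h1 : ∀ m ≤ N + 1, M.χ _ (JP g f k N 0) = M.χ _ (JP g f k N m) +
      ∑ m ∈ Finset.range m, (M.L - 1) * (M.χ _ (TS g f m m N) -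
        M.χ _ (TS g f (m + 1) m N)) * M.L ^ (r * (N + 1) - (N + 1 - m)) := by
    intro m
    induction m with
    | zero => intro _; rw [Finset.range_zero, Finset.sum_empty, add_zero]
    | succ m ih =>
      intro hm
      rw [ih (by omega), chi_JP_step g f M k N m (by omega), Finset.sum_range_succ]
      ring
  rw [h0, h1 (N + 1) le_rfl, chi_JP_top]

end dec

end Pool.Agent.Q221.Sm
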