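import Pool.Agent.Q223.TW.Series

/-!
# The classes of the solutions of surjective linear systems
-/

set_option autoImplicit false
set_option linter.unusedSectionVars false

namespace Pool.Agent.Q221.Sm

open MvPolynomial Pool.Agent.W428.MOT Pool.Agent.TH192.MT

variable {K : Type} [Field K] {R : Type} [CommRing R] (M : Meas K R)

theorem chi_empty {ρ : Type} [Fintype ρ] : M.χ ρ (∅ : Set (Pt K ρ)) = 0 := by
  have h := M.add (∅ : Set (Pt K ρ)) ∅ Constr.empty Constr.empty (Set.disjoint_empty _)
  rw [Set.union_empty] at h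
  exact left_eq_add.1 h

theorem constr_biUnion {ρ α : Type} (T : Finset α) {D : α → Set (Pt K ρ)}
    (hD : ∀ j ∈ T, Constr (D j)) : Constr (⋃ j ∈ T, D j) := by
  have h := Constr.bexFinset T (p := fun j z => z ∈ D j) hD
  convert h using 1
  ext z
  simp

theorem chi_biUnion {ρ α : Type} [Fintype ρ] (T : Finset α) {D : α → Set (Pt K ρ)}
    (hD : ∀ j ∈ T, Constr (D j)) (hdis : ∀ i j, i ≠ j → Disjoint (D i) (D j)) :
    M.χ ρ (⋃ j ∈ T, D j) = ∑ j ∈ T, M.χ ρ (D j) := by
  classical
  induction T using Finset.induction_on with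
  | empty => simpa using chi_empty M
  | insert a T ha ih =>
    rw [Finset.set_biUnion_insert, M.add _ _ (hD a (Finset.mem_insert_self _ _))
      (constr_biUnion T fun j hj => hD j (Finset.mem_insert_of_mem hj)), Finset.sum_insert ha,
      ih fun j hj => hD j (Finset.mem_insert_of_mem hj)]
    rw [Set.disjoint_iUnion₂_right]
    intro j hj
    exact hdis a j (by rintro rfl; exact ha hj)

/-- the solutions of a linear system over `S` -/
def LS {ρ : Type} {q p : ℕ} (S : Set (Pt K ρ)) (B : Fin q → Fin p → Pt K ρ → AlgebraicClosure K)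
    (c : Fin q → Pt K ρ → AlgebraicClosure K) : Set (Pt K (ρ ⊕ Fin p)) :=
  {z | (fun i => z (Sum.inl i)) ∈ S ∧
    ∀ i, ∑ b, B i b (fun i => z (Sum.inl i)) * z (Sum.inr b) = c i fun i => z (Sum.inl i)}

theorem constr_LS {ρ : Type} {q p : ℕ} {S : Set (Pt K ρ)} (hS : Constr S)
    {B : Fin q → Fin p → Pt K ρ → AlgebraicClosure K} (hB : ∀ i b, IsPF (B i b))
    {c : Fin q → Pt K ρ → AlgebraicClosure K} (hc : ∀ i, IsPF (c i)) : Constr (LS S B c) := by
  refine Constr.and (hS.preimage (fun z : Pt K (ρ ⊕ Fin p) => fun i => z (Sum.inl i))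
    fun i => IsPF.coord _) (Constr.all fun i => Constr.eq (IsPF.sum _ _ fun b _ => ?_) ?_)
  · exact ((hB i b).comp (fun z : Pt K (ρ ⊕ Fin p) => fun i => z (Sum.inl i))
      fun i => IsPF.coord _).mul (IsPF.coord _)
  · exact (hc i).comp (fun z : Pt K (ρ ⊕ Fin p) => fun i => z (Sum.inl i)) fun i => IsPF.coord _

/-- elimination of one unknown -/
theorem chi_LS_step {ρ : Type} [Fintype ρ] {q p : ℕ} {S : Set (Pt K ρ)} (hS : Constr S)
    {B : Fin (q + 1) → Fin (p + 1) → Pt K ρ → AlgebraicClosure K} (hB : ∀ i b, IsPF (B i b))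
    {c : Fin (q + 1) → Pt K ρ → AlgebraicClosure K} (hc : ∀ i, IsPF (c i)) (j : Fin (p + 1))
    (hj : ∀ z ∈ S, B 0 j z ≠ 0) :
    M.χ _ (LS S B c) = M.χ _ (LS S (fun (i : Fin q) (b : Fin p) z =>
      B 0 j z * B i.succ (j.succAbove b) z - B i.succ j z * B 0 (j.succAbove b) z)
      fun i z => B 0 j z * c i.succ z - B i.succ j z * c 0 z) := by
  have hpre : ∀ {F : Pt K ρ → AlgebraicClosure K} {p' : ℕ}, IsPF F →
      IsPF fun z : Pt K (ρ ⊕ Fin p') => F fun i => z (Sum.inl i) := fun hF =>
    hF.comp (fun z : Pt K (ρ ⊕ Fin _) => fun i => z (Sum.inl i)) fun i => IsPF.coord _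
  refine M.iso _ _ (constr_LS hS hB hc) (constr_LS hS
    (fun i b => ((hB 0 j).mul (hB _ _)).sub ((hB _ j).mul (hB 0 _)))
    (fun i => ((hB 0 j).mul (hc _)).sub ((hB _ j).mul (hc 0))))
    (fun z => Sum.elim (fun i => z (Sum.inl i)) fun b => z (Sum.inr (j.succAbove b)))
    (fun w => Sum.elim (fun i => w (Sum.inl i)) fun b => Fin.insertNth (α := fun _ =>
      AlgebraicClosure K) j
      ((c 0 (fun i => w (Sum.inl i)) - ∑ b, B 0 (j.succAbove b) (fun i => w (Sum.inl i)) *
        w (Sum.inr b)) / B 0 j fun i => w (Sum.inl i)) (fun b => w (Sum.inr b)) b)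
    (regularOn_poly (fun i => ?_) _) ?_ ?_ ?_ ?_ ?_
  · rcases i with i | i
    · exact IsPF.coord _
    · exact IsPF.coord _
  · rintro (i | b)
    · exact (IsPF.coord _).isRF _
    · refine Fin.succAboveCases j ?_ (fun b => ?_) b
      · simp only [Sum.elim_inr, Fin.insertNth_apply_same]
        refine IsRF.div (IsPF.isRF ?_ _) ((hpre (hB 0 j)).isRF _) fun w hw => hj _ hw.1
        exact (hpre (hc 0)).sub (IsPF.sum _ _ fun b _ => (hpre (hB 0 _)).mul (IsPF.coord _))
      · simp only [Sum.elim_inr, Fin.insertNth_apply_succAbove]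
        exact (IsPF.coord _).isRF _
  · rintro z ⟨h1, h2⟩
    refine ⟨h1, fun i => ?_⟩
    have e0 := h2 0
    have e1 := h2 i.succ
    rw [Fin.sum_univ_succAbove _ j] at e0 e1
    simp only [Sum.elim_inr, Sum.elim_inl]
    have e2 : ∑ b, (B 0 j (fun i => z (Sum.inl i)) * B i.succ (j.succAbove b)
          (fun i => z (Sum.inl i)) - B i.succ j (fun i => z (Sum.inl i)) * B 0 (j.succAbove b)
          (fun i => z (Sum.inl i))) * z (Sum.inr (j.succAbove b)) =
        B 0 j (fun i => z (Sum.inl i)) * (∑ b, B i.succ (j.succAbove b) (fun i => z (Sum.inl i)) *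
          z (Sum.inr (j.succAbove b))) - B i.succ j (fun i => z (Sum.inl i)) *
          (∑ b, B 0 (j.succAbove b) (fun i => z (Sum.inl i)) * z (Sum.inr (j.succAbove b))) := by
      rw [Finset.mul_sum, Finset.mul_sum, ← Finset.sum_sub_distrib]
      exact Finset.sum_congr rfl fun b _ => by ring
    rw [e2]
    linear_combination (B 0 j fun i => z (Sum.inl i)) * e1 -
      (B i.succ j fun i => z (Sum.inl i)) * e0
  · rintro w ⟨h1, h2⟩
    have hj0 := hj _ h1
    refine ⟨h1, fun i => ?_⟩
    rw [Fin.sum_univ_succAbove _ j]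
    simp only [Sum.elim_inr, Sum.elim_inl, Fin.insertNth_apply_same,
      Fin.insertNth_apply_succAbove]
    refine Fin.cases ?_ (fun i => ?_) i
    · field_simp
      ring
    · have e1 := h2 i
      have e2 : ∑ b, (B 0 j (fun i => w (Sum.inl i)) * B i.succ (j.succAbove b)
          (fun i => w (Sum.inl i)) - B i.succ j (fun i => w (Sum.inl i)) * B 0 (j.succAbove b)
          (fun i => w (Sum.inl i))) * w (Sum.inr b) =
        B 0 j (fun i => w (Sum.inl i)) * (∑ b, B i.succ (j.succAbove b) (fun i => w (Sum.inl i)) *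
          w (Sum.inr b)) - B i.succ j (fun i => w (Sum.inl i)) *
          (∑ b, B 0 (j.succAbove b) (fun i => w (Sum.inl i)) * w (Sum.inr b)) := by
        rw [Finset.mul_sum, Finset.mul_sum, ← Finset.sum_sub_distrib]
        exact Finset.sum_congr rfl fun b _ => by ring
      rw [e2] at e1
      generalize (∑ b, B i.succ (j.succAbove b) (fun i => w (Sum.inl i)) * w (Sum.inr b)) = a1
        at e1 ⊢
      generalize (∑ b, B 0 (j.succAbove b) (fun i => w (Sum.inl i)) * w (Sum.inr b)) = a2
        at e1 ⊢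
      field_simp
      linear_combination e1
  · rintro z ⟨h1, h2⟩
    have hj0 := hj _ h1
    funext i
    rcases i with i | b
    · rfl
    · refine Fin.succAboveCases j ?_ (fun b => ?_) b
      · simp only [Sum.elim_inr, Sum.elim_inl, Fin.insertNth_apply_same]
        have e0 := h2 0
        rw [Fin.sum_univ_succAbove _ j] at e0
        rw [div_eq_iff hj0]
        linear_combination -e0
      · simp only [Sum.elim_inr, Fin.insertNth_apply_succAbove]
  · rintro w _
    funext i
    rcases i with i | b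
    · rfl
    · simp only [Sum.elim_inr, Fin.insertNth_apply_succAbove]

/-- **The class of the solutions of a surjective linear system.** -/
theorem chi_LS {ρ : Type} [Fintype ρ] (q : ℕ) : ∀ (p : ℕ) {S : Set (Pt K ρ)} (_ : Constr S)
    {B : Fin q → Fin p → Pt K ρ → AlgebraicClosure K} (_ : ∀ i b, IsPF (B i b))
    {c : Fin q → Pt K ρ → AlgebraicClosure K} (_ : ∀ i, IsPF (c i))
    (_ : ∀ z ∈ S, ∀ v : Fin q → AlgebraicClosure K, ∃ y : Fin p → AlgebraicClosure K,
      ∀ i, ∑ b, B i b z * y b = v i),
    M.χ _ (LS S B c) = M.χ _ S * M.L ^ (p - q) := by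
  induction q with
  | zero =>
    intro p S hS B hB c hc _
    have h := chi_split M (Equiv.refl (ρ ⊕ Fin p)) (LS S B c) S hS fun z =>
      ⟨fun h => h.1, fun h => ⟨h, fun i => i.elim0⟩⟩
    rw [h, Fintype.card_fin, Nat.sub_zero]
  | succ q ih =>
    intro p S hS B hB c hc hsurj
    rcases p with _ | p
    · have hS0 : S = ∅ := by
        rw [Set.eq_empty_iff_forall_notMem]
        intro z hz
        obtain ⟨y, hy⟩ := hsurj z hz fun _ => 1
        have := hy 0
        rw [Finset.univ_eq_empty, Finset.sum_empty] at this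
        exact zero_ne_one this
      subst hS0
      have h1 : LS (∅ : Set (Pt K ρ)) B c = ∅ := by
        rw [Set.eq_empty_iff_forall_notMem]
        rintro z ⟨h, -⟩
        exact h
      rw [h1, chi_empty, chi_empty, zero_mul]
    · set D : Fin (p + 1) → Set (Pt K ρ) := fun j =>
        {z | z ∈ S ∧ ((∀ i, i < j → B 0 i z = 0) ∧ B 0 j z ≠ 0)} with hD
      have hDc : ∀ j, Constr (D j) := fun j => Constr.and hS (Constr.and
        (Constr.all fun i => Constr.imp' fun _ => Constr.eqz (hB 0 i))
        (Constr.not (Constr.eqz (hB 0 j))))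
      have hDd : ∀ i j, i ≠ j → Disjoint (D i) (D j) := by
        intro i j hij
        rw [Set.disjoint_left]
        rintro z ⟨-, h1, h2⟩ ⟨-, h3, h4⟩
        rcases lt_or_gt_of_ne hij with h | h
        · exact h2 (h3 i h)
        · exact h4 (h1 j h)
      have hDS : S = ⋃ j ∈ (Finset.univ : Finset (Fin (p + 1))), D j := by
        ext z
        simp only [Finset.mem_univ, Set.iUnion_true, Set.mem_iUnion]
        constructor
        · intro hz
          have hne : ∃ j, B 0 j z ≠ 0 := by
            by_contra hcon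
            push Not at hcon
            obtain ⟨y, hy⟩ := hsurj z hz fun _ => 1
            have := hy 0
            rw [Finset.sum_eq_zero fun b _ => by rw [hcon b, zero_mul]] at this
            exact zero_ne_one this
          classical
          have hne' : ((Finset.univ : Finset (Fin (p + 1))).filter fun j => B 0 j z ≠ 0).Nonempty :=
            let ⟨j, hj⟩ := hne
            ⟨j, Finset.mem_filter.2 ⟨Finset.mem_univ _, hj⟩⟩
          refine ⟨Finset.min' _ hne', hz, fun i hi => ?_, (Finset.mem_filter.1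
            (Finset.min'_mem _ hne')).2⟩
          by_contra hcon
          exact absurd (Finset.min'_le _ i (Finset.mem_filter.2 ⟨Finset.mem_univ _, hcon⟩))
            (not_le.2 hi)
        · rintro ⟨j, hj⟩
          exact hj.1
      have hLS : LS S B c = ⋃ j ∈ (Finset.univ : Finset (Fin (p + 1))), LS (D j) B c := by
        ext z
        simp only [Finset.mem_univ, Set.iUnion_true, Set.mem_iUnion]
        constructor
        · rintro ⟨h1, h2⟩
          rw [hDS] at h1
          simp only [Finset.mem_univ, Set.iUnion_true, Set.mem_iUnion] at h1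
          obtain ⟨j, hj⟩ := h1
          exact ⟨j, hj, h2⟩
        · rintro ⟨j, hj, h2⟩
          exact ⟨hj.1, h2⟩
      have hLd : ∀ i j, i ≠ j → Disjoint (LS (D i) B c) (LS (D j) B c) := by
        intro i j hij
        rw [Set.disjoint_left]
        rintro z ⟨h1, -⟩ ⟨h2, -⟩
        exact Set.disjoint_left.1 (hDd i j hij) h1 h2
      rw [hLS, chi_biUnion M _ (fun j _ => constr_LS (hDc j) hB hc) hLd]
      conv_rhs => rw [hDS]
      rw [chi_biUnion M _ (fun j _ => hDc j) hDd, Finset.sum_mul]
      refine Finset.sum_congr rfl fun j _ => ?_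
      rw [chi_LS_step M (hDc j) hB hc j fun z hz => hz.2.2, Nat.add_sub_add_right]
      refine ih p (hDc j) (fun i b => ((hB 0 j).mul (hB _ _)).sub ((hB _ j).mul (hB 0 _)))
        (fun i => ((hB 0 j).mul (hc _)).sub ((hB _ j).mul (hc 0))) ?_
      rintro z ⟨hz, -, hj0⟩ v
      obtain ⟨y, hy⟩ := hsurj z hz (Fin.cons 0 fun i => v i / B 0 j z)
      refine ⟨fun b => y (j.succAbove b), fun i => ?_⟩
      have e0 := hy 0
      have e1 := hy i.succ
      rw [Fin.sum_univ_succAbove _ j, Fin.cons_zero] at e0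
      rw [Fin.sum_univ_succAbove _ j, Fin.cons_succ] at e1
      have e2 : ∑ b, (B 0 j z * B i.succ (j.succAbove b) z - B i.succ j z * B 0 (j.succAbove b) z) *
          y (j.succAbove b) = B 0 j z * (∑ b, B i.succ (j.succAbove b) z * y (j.succAbove b)) -
          B i.succ j z * (∑ b, B 0 (j.succAbove b) z * y (j.succAbove b)) := by
        rw [Finset.mul_sum, Finset.mul_sum, ← Finset.sum_sub_distrib]
        exact Finset.sum_congr rfl fun b _ => by ring
      rw [e2]
      have e3 : B 0 j z * (v i / B 0 j z) = v i := mul_div_cancel₀ _ hj0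
      linear_combination (B 0 j z) * e1 - (B i.succ j z) * e0 + e3

/-- the same with arbitrary unknowns -/
theorem chi_lin {ρ β : Type} [Fintype ρ] [Fintype β] {q : ℕ} {S : Set (Pt K ρ)} (hS : Constr S)
    {B : Fin q → β → Pt K ρ → AlgebraicClosure K} (hB : ∀ i b, IsPF (B i b))
    {c : Fin q → Pt K ρ → AlgebraicClosure K} (hc : ∀ i, IsPF (c i))
    (hsurj : ∀ z ∈ S, ∀ v : Fin q → AlgebraicClosure K, ∃ y : β → AlgebraicClosure K,
      ∀ i, ∑ b, B i b z * y b = v i) :
    M.χ (ρ ⊕ β) {z | (fun i => z (Sum.inl i)) ∈ S ∧ ∀ i, ∑ b, B i b (fun i => z (Sum.inl i)) *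
      z (Sum.inr b) = c i fun i => z (Sum.inl i)} = M.χ _ S * M.L ^ (Fintype.card β - q) := by
  classical
  set e := Fintype.equivFin β with he
  rw [← chi_LS M q (Fintype.card β) hS (B := fun i b => B i (e.symm b)) (fun i b => hB _ _) hc]
  · have hC : Constr {z : Pt K (ρ ⊕ β) | (fun i => z (Sum.inl i)) ∈ S ∧ ∀ i, ∑ b, B i b
        (fun i => z (Sum.inl i)) * z (Sum.inr b) = c i fun i => z (Sum.inl i)} := by
      refine Constr.and (hS.preimage (fun z : Pt K (ρ ⊕ β) => fun i => z (Sum.inl i))
        fun i => IsPF.coord _) (Constr.all fun i => Constr.eq (IsPF.sum _ _ fun b _ => ?_) ?_)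
      · exact ((hB i b).comp (fun z : Pt K (ρ ⊕ β) => fun i => z (Sum.inl i))
          fun i => IsPF.coord _).mul (IsPF.coord _)
      · exact (hc i).comp (fun z : Pt K (ρ ⊕ β) => fun i => z (Sum.inl i)) fun i => IsPF.coord _
    refine M.iso _ _ hC (constr_LS hS (fun i b => hB _ _) hc)
      (fun z => Sum.elim (fun i => z (Sum.inl i)) fun b => z (Sum.inr (e.symm b)))
      (fun w => Sum.elim (fun i => w (Sum.inl i)) fun b => w (Sum.inr (e b)))
      (regularOn_poly (fun i => ?_) _) (regularOn_poly (fun i => ?_) _) ?_ ?_ ?_ ?_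
    · rcases i with i | i
      · exact IsPF.coord _
      · exact IsPF.coord _
    · rcases i with i | i
      · exact IsPF.coord _
      · exact IsPF.coord _
    · rintro z ⟨h1, h2⟩
      refine ⟨h1, fun i => ?_⟩
      have := h2 i
      rw [← e.symm.sum_comp] at this
      exact this
    · rintro w ⟨h1, h2⟩
      refine ⟨h1, fun i => ?_⟩
      have := h2 i
      rw [← e.sum_comp] at this
      simp only [Equiv.symm_apply_apply] at this
      exact this
    · intro z _
      funext i
      rcases i with i | i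
      · rfl
      · simp
    · intro w _
      funext i
      rcases i with i | i
      · rfl
      · simp
  · intro z hz v
    obtain ⟨y, hy⟩ := hsurj z hz v
    refine ⟨fun b => y (e.symm b), fun i => ?_⟩
    rw [← hy i, ← e.symm.sum_comp]

end Pool.Agent.Q221.Sm
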