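import Pool.Agent.Q221.Sm.Core

/-!
# The functional equation of `φ = f + ∑ y_k g_k`: the theorem for a frame
-/

set_option autoImplicit false
set_option linter.unusedSectionVars false

namespace Pool.Agent.Q221.Sm

open Polynomial

variable {A : Type} [CommRing A] [Algebra ℂ A]
variable {A' : Type} [CommRing A'] [Algebra ℂ A'] [Algebra A A'] [IsScalarTower ℂ A A']

theorem der_sum_apply {ι : Type} (T : Finset ι) (D : ι → Derivation ℂ A A) (a : A) :
    (∑ i ∈ T, D i) a = ∑ i ∈ T, D i a := by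
  classical
  induction T using Finset.induction_on with
  | empty => rw [Finset.sum_empty, Finset.sum_empty, Derivation.zero_apply]
  | insert i T hi ih => rw [Finset.sum_insert hi, Finset.sum_insert hi, Derivation.add_apply, ih]

/-- the data of a polynomial extension -/
structure PE (A A' : Type) [CommRing A] [Algebra ℂ A] [CommRing A'] [Algebra ℂ A'] [Algebra A A']
    (r : ℕ) where
  y : Fin r → A'
  dy : Fin r → Derivation ℂ A' A'
  dy_alg : ∀ k a, dy k (algebraMap A A' a) = 0
  dy_y : ∀ k l, dy k (y l) = if k = l then 1 else 0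
  ext : ∀ θ : Derivation ℂ A A, ∃ θ' : Derivation ℂ A' A',
    (∀ a, θ' (algebraMap A A' a) = algebraMap A A' (θ a)) ∧ ∀ k, θ' (y k) = 0

namespace PE

variable {r : ℕ} (E : PE A A' r) (g : Fin r → A)

/-- `f + ∑ y_k g_k` -/
def phi (f : A) : A' := algebraMap A A' f + ∑ k, E.y k * algebraMap A A' (g k)

theorem dy_phi (f : A) (k : Fin r) : E.dy k (E.phi g f) = algebraMap A A' (g k) := by
  rw [phi, map_add, E.dy_alg, zero_add, map_sum, Finset.sum_eq_single k]
  · rw [Derivation.leibniz, E.dy_alg, E.dy_y, if_pos rfl, smul_zero, zero_add, smul_eq_mul, mul_one]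
  · intro l _ hl
    rw [Derivation.leibniz, E.dy_alg, E.dy_y, if_neg hl.symm, smul_zero, smul_zero, add_zero]
  · intro h
    exact absurd (Finset.mem_univ k) h

/-- the Euler derivation of the new variables -/
def eul : Derivation ℂ A' A' := ∑ k, E.y k • E.dy k

theorem eul_apply (a : A') : E.eul a = ∑ k, E.y k * E.dy k a := by
  rw [eul, der_sum_apply]
  rfl

theorem eul_alg (a : A) : E.eul (algebraMap A A' a) = 0 := by
  rw [eul_apply]
  exact Finset.sum_eq_zero fun k _ => by rw [E.dy_alg, mul_zero]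

theorem eul_phi (f : A) : E.eul (E.phi g f) = E.phi g f - algebraMap A A' f := by
  rw [eul_apply, phi, add_sub_cancel_left]
  exact Finset.sum_congr rfl fun k _ => by rw [← phi, E.dy_phi]

variable {g}

/-- the lift of a derivation which preserves the ideal of the `g_k` -/
theorem exists_log {θ : Derivation ℂ A A} (hθ : ∀ a ∈ Ideal.span (Set.range g),
    θ a ∈ Ideal.span (Set.range g)) (f : A) : ∃ D : Derivation ℂ A' A',
      (∀ a, D (algebraMap A A' a) = algebraMap A A' (θ a)) ∧
      D (E.phi g f) = algebraMap A A' (θ f) := by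
  obtain ⟨θ', h1, h2⟩ := E.ext θ
  have hg : ∀ l, ∃ c : Fin r → A, ∑ m, c m * g m = θ (g l) := fun l =>
    Ideal.mem_span_range_iff_exists_fun.1 (hθ _ (Ideal.subset_span ⟨l, rfl⟩))
  choose c hc using hg
  refine ⟨θ' - ∑ m, (∑ l, E.y l * algebraMap A A' (c l m)) • E.dy m, fun a => ?_, ?_⟩
  · rw [Derivation.sub_apply, h1, der_sum_apply, sub_eq_self]
    exact Finset.sum_eq_zero fun m _ => by rw [Derivation.smul_apply, E.dy_alg, smul_zero]
  · have e1 : θ' (E.phi g f) = algebraMap A A' (θ f) + ∑ l, E.y l * algebraMap A A' (θ (g l)) := by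
      rw [phi, map_add, h1, map_sum]
      congr 1
      exact Finset.sum_congr rfl fun l _ => by
        rw [Derivation.leibniz, h1, h2, smul_zero, add_zero, smul_eq_mul]
    have e2 : (∑ m, (∑ l, E.y l * algebraMap A A' (c l m)) • E.dy m :
        Derivation ℂ A' A') (E.phi g f) = ∑ l, E.y l * algebraMap A A' (θ (g l)) := by
      rw [der_sum_apply]
      simp only [Derivation.smul_apply, E.dy_phi, smul_eq_mul, ← hc, map_sum, map_mul,
        Finset.mul_sum, Finset.sum_mul]
      rw [Finset.sum_comm]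
      exact Finset.sum_congr rfl fun l _ => Finset.sum_congr rfl fun m _ => by ring
    rw [Derivation.sub_apply, e1, e2, add_sub_cancel_right]

end PE

section approx

variable {r : ℕ} {g : Fin r → A} {δ : Fin r → Derivation ℂ A A}

theorem approx (E : PE A A' r) (L : ℕ) {f : A}
    (hf : ∀ k, g k * δ k f ∈ Ideal.span (Set.range g) ^ (L + 2)) {t : Module.End ℂ A}
    (ht : t ∈ EE g δ) :
    ∃ U : A[X] →ₗ[ℂ] A[X], (∀ u, Gd (E.phi g f) u → Gd (E.phi g f) (U u)) ∧
      (∀ j < L + 2, ∀ a, Gd (E.phi g f) (U (monomial j a) - monomial j (t a))) ∧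
      ∀ u, U (SU f u) = SU f (U u) := by
  have hg : ∀ k, g k ∈ Ideal.span (Set.range g) := fun k => Ideal.subset_span ⟨k, rfl⟩
  induction ht using Algebra.adjoin_induction with
  | mem x hx =>
    obtain ⟨k, rfl⟩ := hx
    have hlog : ∀ a ∈ Ideal.span (Set.range g), (g k • δ k : Derivation ℂ A A) a ∈
        Ideal.span (Set.range g) := fun a _ => Ideal.mul_mem_right _ _ (hg k)
    refine ⟨DU (g k • δ k) ((g k • δ k : Derivation ℂ A A) f), fun u hu => Gd.actD
      (E.exists_log hlog f) hu, fun j hj a => ?_, DU_SU (g k • δ k) f⟩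
    rw [DU_monomial, Derivation.coeFn_coe, add_sub_cancel_left]
    have hj1 : (g k • δ k : Derivation ℂ A A) f * a ∈ Ideal.span (Set.range g) ^ (j + 1) := by
      have h1 : (g k • δ k : Derivation ℂ A A) f ∈ Ideal.span (Set.range g) ^ (j + 1) :=
        Ideal.pow_le_pow_right (by omega) (hf k)
      exact Ideal.mul_mem_right _ _ h1
    have hgd : ∀ k, ∃ D : Derivation ℂ A' A', (∀ a, D (algebraMap A A' a) = 0) ∧
      D (E.phi g f) = algebraMap A A' (g k) := fun k => ⟨E.dy k, E.dy_alg k, E.dy_phi g f k⟩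
    exact Gd.ideal hgd (j + 1) _ hj1
  | algebraMap z =>
    refine ⟨z • LinearMap.id, fun u hu => ?_, fun j _ a => ?_, fun u => ?_⟩
    · rw [LinearMap.smul_apply, LinearMap.id_apply]
      exact hu.smul z
    · have : (z • LinearMap.id : A[X] →ₗ[ℂ] A[X]) (monomial j a) -
          monomial j ((algebraMap ℂ (Module.End ℂ A) z) a) = 0 := by
        rw [LinearMap.smul_apply, LinearMap.id_apply, Module.algebraMap_end_apply, smul_monomial,
          sub_self]
      rw [this]
      exact Gd.zero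
    · rw [LinearMap.smul_apply, LinearMap.smul_apply, LinearMap.id_apply, LinearMap.id_apply,
        map_smul]
  | add x y _ _ hx hy =>
    obtain ⟨U, h1, h2, h3⟩ := hx
    obtain ⟨V, h4, h5, h6⟩ := hy
    refine ⟨U + V, fun u hu => (h1 u hu).add (h4 u hu), fun j hj a => ?_, fun u => ?_⟩
    · have := (h2 j hj a).add (h5 j hj a)
      rw [LinearMap.add_apply, LinearMap.add_apply, map_add]
      convert this using 1
      abel
    · rw [LinearMap.add_apply, LinearMap.add_apply, map_add, h3, h6]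
  | mul x y _ _ hx hy =>
    obtain ⟨U, h1, h2, h3⟩ := hx
    obtain ⟨V, h4, h5, h6⟩ := hy
    refine ⟨U ∘ₗ V, fun u hu => h1 _ (h4 u hu), fun j hj a => ?_, fun u => ?_⟩
    · have := (h1 _ (h5 j hj a)).add (h2 j hj (y a))
      rw [LinearMap.comp_apply, Module.End.mul_apply]
      convert this using 1
      rw [map_sub]
      abel
    · rw [LinearMap.comp_apply, LinearMap.comp_apply, h6, h3]

end approx

theorem famG_log {I : Ideal A} {P : ℕ → Module.End ℂ A}
    (hP : P ∈ famG {θ : Derivation ℂ A A | ∀ a ∈ I, θ a ∈ I}) :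
    ∀ M, ∀ a ∈ I, P M a ∈ I := by
  refine famG_induction (p := fun P => ∀ M, ∀ a ∈ I, P M a ∈ I) ?_ ?_ ?_ ?_ ?_ hP
  · intro c M a ha
    exact I.mul_mem_left _ ha
  · intro θ hθ M a ha
    exact hθ a ha
  · intro M a ha
    rw [LinearMap.smul_apply, Module.End.one_apply, Algebra.smul_def]
    exact I.mul_mem_left _ ha
  · intro P Q _ _ h h' M a ha
    exact I.add_mem (h M a ha) (h' M a ha)
  · intro P Q _ _ h h' M a ha
    exact h M _ (h' M a ha)

/-- **The theorem for a frame.** -/
theorem core {r : ℕ} {g : Fin r → A} {δ : Fin r → Derivation ℂ A A} (E : PE A A' r)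
    (hδ : ∀ k l, δ k (g l) = if k = l then 1 else 0)
    (hc : ∀ k l a, δ k (δ l a) = δ l (δ k a)) (f : A) (B : ℂ[X]) {P : ℕ → Module.End ℂ A}
    (hP : P ∈ famG {θ : Derivation ℂ A A | ∀ a ∈ Ideal.span (Set.range g),
      θ a ∈ Ideal.span (Set.range g)})
    (h : ∀ M : ℕ, P M (f ^ M) - ((M : ℂ) * B.eval ((M : ℂ) - 1)) • f ^ (M - 1) ∈
      Ideal.span (Set.range g)) :
    ∃ f₀ : A, f₀ - f ∈ Ideal.span (Set.range g) ∧
      Nm (E.phi g f₀) fun M => ((M : ℂ) * B.eval ((M : ℂ) - 1 + r)) • E.phi g f₀ ^ (M - 1) := by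
  set I := Ideal.span (Set.range g) with hI
  have hg : ∀ k, g k ∈ I := fun k => Ideal.subset_span ⟨k, rfl⟩
  obtain ⟨c, hlift⟩ := exists_lift (A' := A') hP
  set B' : ℂ[X] := B.comp (Polynomial.X - 1) with hB'
  set L : ℕ := c + B'.natDegree + 2 with hL
  obtain ⟨t, ht, t1, t2, t3, t4⟩ := exists_T hδ hc L Finset.univ
  set f₀ := t f with hf₀
  have hf : f₀ - f ∈ I := t1 f
  refine ⟨f₀, hf, ?_⟩
  set φ := E.phi g f₀ with hφ
  obtain ⟨U, Q, hU, hQ, hUQ⟩ := hlift f₀ φ (fun θ hθ => E.exists_log hθ f₀) E.eul E.eul_alg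
    (E.eul_phi g f₀)
  obtain ⟨V, hV1, hV2, hV3⟩ := approx E L (fun k => t3 k (Finset.mem_univ k) f) ht
  have hid : ∀ j, ∀ a ∈ I ^ j, Gd φ (monomial j a) := Gd.ideal (g := g)
    (fun k => ⟨E.dy k, E.dy_alg k, E.dy_phi g f₀ k⟩)
  set ν : A[X] := monomial 1 1 with hν
  have hνR : ∀ {A'' : Type} [CommRing A''] [Algebra ℂ A''] [Algebra A A''] [IsScalarTower ℂ A A'']
      (ψ : A'') (M : ℕ), Rz ψ M ν = (M : ℂ) • ψ ^ (M - 1) := by
    intro A'' _ _ _ _ ψ M
    rw [hν, Rz_monomial, Nat.descFactorial_one, map_one, mul_one, smul_cast]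
  -- the coefficients of the error
  set ι : A[X] := U 1 - PU f₀ B' ν with hι
  have h1 : (1 : A[X]) = monomial 0 1 := by simp
  have hιI : ∀ j, ι.coeff j ∈ I := by
    refine coeff_mem (f := f₀) ι I fun M => ?_
    have e1 : Rz f₀ M (U 1) = P M (f₀ ^ M) := by
      rw [(hUQ M 1).1, h1, Rz_monomial]
      simp
    rw [hι, map_sub, e1, Rz_PU, hνR, smul_smul]
    have e2 : f₀ ^ M - f ^ M ∈ I := I.mem_of_dvd (sub_dvd_pow_sub_pow _ _ _) hf
    have e3 : f₀ ^ (M - 1) - f ^ (M - 1) ∈ I := I.mem_of_dvd (sub_dvd_pow_sub_pow _ _ _) hf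
    have e4 := famG_log hP M _ e2
    rw [map_sub] at e4
    have e5 : B'.eval (M : ℂ) * (M : ℂ) = (M : ℂ) * B.eval ((M : ℂ) - 1) := by
      rw [hB', Polynomial.eval_comp, Polynomial.eval_sub, Polynomial.eval_X, Polynomial.eval_one,
        mul_comm]
    rw [e5]
    have e6 : ((M : ℂ) * B.eval ((M : ℂ) - 1)) • (f₀ ^ (M - 1) - f ^ (M - 1)) ∈ I := by
      rw [Algebra.smul_def]
      exact I.mul_mem_left _ e3
    have e7 := I.sub_mem (I.add_mem (h M) e4) e6
    convert e7 using 1
    rw [smul_sub]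
    ring
  have hιd : ∀ n, L ≤ n → ι.coeff n = 0 := by
    intro n hn
    have e1 : ∀ n, 1 ≤ n → (1 : A[X]).coeff n = 0 := fun n hn => by
      rw [Polynomial.coeff_one, if_neg (by omega)]
    have e2 : ∀ n, 2 ≤ n → ν.coeff n = 0 := fun n hn => by
      rw [hν, Polynomial.coeff_monomial, if_neg (by omega)]
    rw [hι, Polynomial.coeff_sub, hU 1 1 e1 n (by omega), PU_coeff e2 n (by omega), sub_zero]
  have hU1 : Gd φ (U 1) := by
    have e1 : Nm φ fun M => Q M (φ ^ M) := Nm.pow.op hQ
    unfold Gd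
    convert e1 using 1
    funext M
    rw [(hUQ M 1).2, h1, Rz_monomial]
    simp
  -- the error is killed by `V`
  have hVι : Gd φ (V ι) := by
    have e0 : ι = ∑ i ∈ Finset.range L, monomial i (ι.coeff i) := by
      refine Polynomial.as_sum_range' ι L ?_
      by_contra hcon
      rw [not_lt] at hcon
      by_cases hz : ι = 0
      · rw [hz, Polynomial.natDegree_zero] at hcon
        omega
      · exact hz (Polynomial.leadingCoeff_eq_zero.1 (hιd _ hcon))
    rw [e0, map_sum]
    refine Gd.sum _ fun j hj => ?_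
    have hj' := Finset.mem_range.1 hj
    have e1 := hV2 j (by omega) (ι.coeff j)
    have e2 : t (ι.coeff j) ∈ I ^ (L + 2) := by
      obtain ⟨q, hq⟩ := Ideal.mem_span_range_iff_exists_fun.1 (hιI j)
      rw [← hq, map_sum]
      refine Ideal.sum_mem _ fun k _ => ?_
      rw [mul_comm]
      exact t2 k (Finset.mem_univ k) _
    have e3 := hid j _ (Ideal.pow_le_pow_right (by omega) e2)
    have e4 := e1.add e3
    rwa [sub_add_cancel] at e4
  have hVν : Gd φ (V ν - ν) := by
    have e1 := hV2 1 (by omega) 1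
    have e2 := hid 1 (t 1 - 1) (by rw [pow_one]; exact t1 1)
    have e3 := e1.add e2
    convert e3 using 1
    rw [hν, map_sub]
    abel
  have hmain : Gd φ (PU f₀ B' ν) := by
    have e1 : V (U 1) = V ι + PU f₀ B' (V ν) := by
      rw [← PU_comm hV3, ← map_add, hι, sub_add_cancel]
    have e2 := hV1 _ hU1
    have e3 : Gd φ (PU f₀ B' (V ν)) := by
      have := e2.sub hVι
      rwa [e1, add_sub_cancel_left] at this
    have e4 : Gd φ (PU f₀ B' (V ν - ν)) := Gd.actP E.eul_alg (E.eul_phi g f₀) B' hVν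
    have e5 : PU f₀ B' (V ν) = PU f₀ B' (V ν - ν) + PU f₀ B' ν := by
      rw [← PU_add, sub_add_cancel]
    have := e3.sub e4
    rwa [e5, add_sub_cancel_left] at this
  -- the Euler derivation acts on `M φ ^ (M - 1)` as `-r`
  have hy : ∀ k, Nm φ fun M => E.y k * Rz φ M ν := by
    intro k
    obtain ⟨D, hD1, hD2⟩ := E.ext (δ k)
    have e1 := Nm.der D (Nm.pow (φ := φ))
    have e2 : Gd φ (monomial 1 (δ k f₀)) := hid 1 _ (by
      rw [pow_one]; exact t4 k (Finset.mem_univ k) f)
    have e3 := e1.sub e2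
    convert e3 using 1
    funext M
    have e4 : D φ = algebraMap A A' (δ k f₀) + E.y k := by
      rw [hφ, PE.phi, map_add, hD1, map_sum]
      congr 1
      rw [Finset.sum_eq_single k]
      · rw [Derivation.leibniz, hD1, hD2, hδ, if_pos rfl, map_one, smul_zero, add_zero, smul_eq_mul,
          mul_one]
      · intro l _ hl
        rw [Derivation.leibniz, hD1, hD2, hδ, if_neg hl.symm, map_zero, smul_zero, smul_zero,
          add_zero]
      · intro h
        exact absurd (Finset.mem_univ k) h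
    rw [hνR, Derivation.leibniz_pow, e4, Rz_monomial, Nat.descFactorial_one, smul_cast]
    simp only [smul_eq_mul, nsmul_eq_mul]
    ring
  have hN : Nm φ fun M => E.eul (Rz φ M ν) + (r : ℂ) • Rz φ M ν := by
    have e1 := Nm.sum Finset.univ (φ := φ) (e := fun k M => E.dy k (E.y k * Rz φ M ν))
      fun k _ => Nm.der (E.dy k) (hy k)
    convert e1 using 1
    funext M
    simp only [Derivation.leibniz, E.dy_y, if_true, smul_eq_mul, mul_one, Finset.sum_add_distrib,
      Finset.sum_const, Finset.card_univ, Fintype.card_fin, nsmul_eq_mul, PE.eul_apply, smul_cast]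
  have hfin := (Nm.sub (φ := φ) hmain (Nm_PU E.eul_alg (E.eul_phi g f₀) (r : ℂ) ν hN B'))
  convert hfin using 1
  funext M
  rw [sub_sub_cancel, hνR, smul_smul, hB', Polynomial.eval_comp, Polynomial.eval_sub,
    Polynomial.eval_X, Polynomial.eval_one]
  congr 1
  rw [show (M : ℂ) + r - 1 = (M : ℂ) - 1 + r by ring]
  ring

end Pool.Agent.Q221.Sm
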