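import Pool.Agent.Q221.Sm.Fam

/-!
# The sequences `∑_j M (M - 1) ⋯ (M - j + 1) a_j φ ^ (M - j)`
-/

set_option autoImplicit false
set_option linter.unusedSectionVars false

namespace Pool.Agent.Q221.Sm

open Polynomial

variable {A : Type} [CommRing A] [Algebra ℂ A]

/-- the action of a derivation `D` with `D φ = h` -/
noncomputable def DU (θ : Derivation ℂ A A) (h : A) : A[X] →ₗ[ℂ] A[X] :=
  Polynomial.lsum fun j => ((monomial j).restrictScalars ℂ : A →ₗ[ℂ] A[X]) ∘ₗ (θ : A →ₗ[ℂ] A) +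
    ((monomial (j + 1)).restrictScalars ℂ : A →ₗ[ℂ] A[X]) ∘ₗ LinearMap.mulLeft ℂ h

/-- the action of `s` -/
noncomputable def SU (f : A) : A[X] →ₗ[ℂ] A[X] :=
  Polynomial.lsum fun j => ((monomial j).restrictScalars ℂ : A →ₗ[ℂ] A[X]) ∘ₗ
      LinearMap.mulLeft ℂ (j : A) +
    ((monomial (j + 1)).restrictScalars ℂ : A →ₗ[ℂ] A[X]) ∘ₗ LinearMap.mulLeft ℂ f

theorem DU_monomial (θ : Derivation ℂ A A) (h : A) (j : ℕ) (a : A) :
    DU θ h (monomial j a) = monomial j (θ a) + monomial (j + 1) (h * a) := by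
  rw [DU, Polynomial.lsum_apply, Polynomial.sum_monomial_index]
  · rfl
  · exact map_zero _

theorem SU_monomial (f : A) (j : ℕ) (a : A) :
    SU f (monomial j a) = monomial j ((j : A) * a) + monomial (j + 1) (f * a) := by
  rw [SU, Polynomial.lsum_apply, Polynomial.sum_monomial_index]
  · rfl
  · exact map_zero _

/-- the two actions commute -/
theorem DU_SU (θ : Derivation ℂ A A) (f : A) (u : A[X]) :
    DU θ (θ f) (SU f u) = SU f (DU θ (θ f) u) := by
  induction u using Polynomial.induction_on' with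
  | add p q hp hq => rw [map_add, map_add, map_add, map_add, hp, hq]
  | monomial j a =>
    rw [SU_monomial, DU_monomial, map_add, map_add, DU_monomial, DU_monomial, SU_monomial,
      SU_monomial, Derivation.leibniz, Derivation.leibniz, Derivation.map_natCast, smul_zero,
      add_zero, smul_eq_mul, smul_eq_mul, smul_eq_mul]
    have h1 : ((j + 1 : ℕ) : A) * (θ f * a) = (j : A) * (θ f * a) + θ f * a := by
      push_cast
      ring
    have h2 : f * (θ f * a) = θ f * (f * a) := by ring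
    have h3 : a * θ f = θ f * a := mul_comm _ _
    have h4 : θ f * ((j : A) * a) = (j : A) * (θ f * a) := by ring
    rw [h1, h2, h3, h4, map_add, map_add]
    abel

variable {A' : Type} [CommRing A'] [Algebra ℂ A'] [Algebra A A'] [IsScalarTower ℂ A A']

/-- the value of the sequence -/
noncomputable def Rz (φ : A') (M : ℕ) : A[X] →ₗ[ℂ] A' :=
  Polynomial.lsum fun j => LinearMap.mulLeft ℂ ((M.descFactorial j : A') * φ ^ (M - j)) ∘ₗ
    (IsScalarTower.toAlgHom ℂ A A').toLinearMap

theorem Rz_monomial (φ : A') (M j : ℕ) (a : A) :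
    Rz φ M (monomial j a) = (M.descFactorial j : A') * φ ^ (M - j) * algebraMap A A' a := by
  rw [Rz, Polynomial.lsum_apply, Polynomial.sum_monomial_index]
  · rfl
  · exact map_zero _

theorem Rz_C_mul (φ : A') (M : ℕ) (c : A) (u : A[X]) :
    Rz φ M (C c * u) = algebraMap A A' c * Rz φ M u := by
  induction u using Polynomial.induction_on' with
  | add p q hp hq => rw [mul_add, map_add, map_add, hp, hq, mul_add]
  | monomial j a =>
    rw [C_mul_monomial, Rz_monomial, Rz_monomial, map_mul]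
    ring

theorem Rz_DU (φ : A') (M : ℕ) (θ : Derivation ℂ A A) (h : A) (D : Derivation ℂ A' A')
    (hD : ∀ a, D (algebraMap A A' a) = algebraMap A A' (θ a)) (hφ : D φ = algebraMap A A' h)
    (u : A[X]) : Rz φ M (DU θ h u) = D (Rz φ M u) := by
  induction u using Polynomial.induction_on' with
  | add p q hp hq => rw [map_add, map_add, map_add, map_add, hp, hq]
  | monomial j a =>
    rw [DU_monomial, map_add, Rz_monomial, Rz_monomial, Rz_monomial, Derivation.leibniz,
      Derivation.leibniz, Derivation.map_natCast, Derivation.leibniz_pow, hD, hφ,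
      Nat.descFactorial_succ, Nat.sub_sub]
    simp only [smul_eq_mul, nsmul_eq_mul, mul_zero, add_zero, Nat.cast_mul, map_mul]
    ring

theorem Rz_SU (φ : A') (M : ℕ) (f : A) (N : Derivation ℂ A' A')
    (hN : ∀ a, N (algebraMap A A' a) = 0) (hφ : N φ = φ - algebraMap A A' f)
    (u : A[X]) : Rz φ M (SU f u) = (M : ℂ) • Rz φ M u - N (Rz φ M u) := by
  induction u using Polynomial.induction_on' with
  | add p q hp hq => rw [map_add, map_add, map_add, map_add, hp, hq, smul_add]; abel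
  | monomial j a =>
    rw [SU_monomial, map_add, Rz_monomial, Rz_monomial, Rz_monomial, Derivation.leibniz,
      Derivation.leibniz, Derivation.map_natCast, Derivation.leibniz_pow, hN, hφ,
      Nat.descFactorial_succ, smul_cast]
    simp only [smul_eq_mul, nsmul_eq_mul, mul_zero, add_zero, zero_add, Nat.cast_mul, map_mul,
      map_natCast]
    rcases Nat.lt_or_ge j M with h | h
    · obtain ⟨i, rfl⟩ : ∃ i, M = j + (i + 1) := ⟨M - j - 1, by omega⟩
      have e1 : j + (i + 1) - j = i + 1 := by omega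
      have e2 : j + (i + 1) - (j + 1) = i := by omega
      rw [e1, e2, Nat.add_sub_cancel]
      push_cast
      ring
    · rcases Nat.lt_or_ge M j with h' | h'
      · rw [Nat.descFactorial_eq_zero_iff_lt.2 h']
        simp
      · obtain rfl : M = j := le_antisymm h h'
        simp
        ring

/-- the coefficients of a sequence with values in an ideal -/
theorem coeff_mem {f : A} (u : A[X]) (I : Ideal A) (hI : ∀ M, Rz f M u ∈ I) :
    ∀ j, u.coeff j ∈ I := by
  intro j
  induction j using Nat.strong_induction_on with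
  | _ j ih =>
    have h1 := hI j
    set c := max u.natDegree j + 1 with hc
    have h0 : u = ∑ i ∈ Finset.range c, monomial i (u.coeff i) :=
      Polynomial.as_sum_range' u c (by omega)
    rw [h0, map_sum] at h1
    have h2 : ∑ i ∈ Finset.range c, Rz f j (monomial i (u.coeff i)) =
        ∑ i ∈ Finset.range j, Rz f j (monomial i (u.coeff i)) +
          (j.factorial : A) * u.coeff j := by
      rw [← Finset.sum_subset (Finset.range_subset_range.2 (show j + 1 ≤ c by omega)),
        Finset.sum_range_succ]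
      · congr 1
        rw [Rz_monomial, Nat.descFactorial_self, Nat.sub_self, pow_zero, mul_one]
        rfl
      · intro i _ hi
        rw [Finset.mem_range, not_lt] at hi
        rw [Rz_monomial, Nat.descFactorial_eq_zero_iff_lt.2 (by omega), Nat.cast_zero, zero_mul,
          zero_mul]
    rw [h2] at h1
    have h3 : ∑ i ∈ Finset.range j, Rz f j (monomial i (u.coeff i)) ∈ I := by
      refine I.sum_mem fun i hi => ?_
      rw [Rz_monomial]
      exact I.mul_mem_left _ (ih i (Finset.mem_range.1 hi))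
    have h4 := (I.add_mem_iff_right h3).1 h1
    have h5 : u.coeff j = algebraMap ℂ A ((j.factorial : ℂ)⁻¹) * ((j.factorial : A) * u.coeff j) := by
      have h6 : (j.factorial : A) = algebraMap ℂ A (j.factorial : ℂ) := (map_natCast _ _).symm
      rw [h6, ← mul_assoc, ← map_mul, inv_mul_cancel₀ (by exact_mod_cast j.factorial_ne_zero),
        map_one, one_mul]
    rw [h5]
    exact I.mul_mem_left _ h4

/-! ### Degrees -/

/-- `U` raises the degrees by at most `c` -/
def Dg (U : A[X] →ₗ[ℂ] A[X]) (c : ℕ) : Prop :=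
  ∀ (d : ℕ) (u : A[X]), (∀ n, d ≤ n → u.coeff n = 0) → ∀ n, d + c ≤ n → (U u).coeff n = 0

theorem Dg.of_monomial {U : A[X] →ₗ[ℂ] A[X]} {c : ℕ}
    (h : ∀ j a n, j + c < n → (U (monomial j a)).coeff n = 0) : Dg U c := by
  intro d u hu n hn
  rw [Polynomial.as_sum_support u, map_sum, Polynomial.finsetSum_coeff]
  refine Finset.sum_eq_zero fun j hj => h j _ n ?_
  have h1 : j < d := by
    by_contra hcon
    exact (Polynomial.mem_support_iff.1 hj) (hu j (not_lt.1 hcon))
  omega

theorem Dg.mono {U : A[X] →ₗ[ℂ] A[X]} {c c' : ℕ} (h : Dg U c) (hc : c ≤ c') : Dg U c' :=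
  fun d u hu n hn => h d u hu n (by omega)

theorem Dg.add {U U' : A[X] →ₗ[ℂ] A[X]} {c : ℕ} (h : Dg U c) (h' : Dg U' c) : Dg (U + U') c :=
  fun d u hu n hn => by
    rw [LinearMap.add_apply, Polynomial.coeff_add, h d u hu n hn, h' d u hu n hn, add_zero]

theorem Dg.comp {U U' : A[X] →ₗ[ℂ] A[X]} {c c' : ℕ} (h : Dg U c) (h' : Dg U' c') :
    Dg (U ∘ₗ U') (c' + c) :=
  fun d u hu n hn => by
    rw [LinearMap.comp_apply]
    exact h (d + c') _ (h' d u hu) n (by omega)

theorem Dg_DU (θ : Derivation ℂ A A) (h : A) : Dg (DU θ h) 1 :=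
  Dg.of_monomial fun j a n hn => by
    rw [DU_monomial, Polynomial.coeff_add, Polynomial.coeff_monomial, Polynomial.coeff_monomial,
      if_neg (by omega), if_neg (by omega), add_zero]

theorem Dg_SU (f : A) : Dg (SU f) 1 :=
  Dg.of_monomial fun j a n hn => by
    rw [SU_monomial, Polynomial.coeff_add, Polynomial.coeff_monomial, Polynomial.coeff_monomial,
      if_neg (by omega), if_neg (by omega), add_zero]

/-! ### The lifts of the families -/

/-- For every family `P` there is an operator on the polynomials which gives the action of `P` and of a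
lift of `P` on the sequences. -/
theorem exists_lift {Θ : Set (Derivation ℂ A A)} {P : ℕ → Module.End ℂ A} (hP : P ∈ famG Θ) :
    ∃ c : ℕ, ∀ (f : A) (φ : A')
    (_ : ∀ θ ∈ Θ, ∃ D : Derivation ℂ A' A',
      (∀ a, D (algebraMap A A' a) = algebraMap A A' (θ a)) ∧ D φ = algebraMap A A' (θ f))
    (N : Derivation ℂ A' A') (_ : ∀ a, N (algebraMap A A' a) = 0)
    (_ : N φ = φ - algebraMap A A' f),
    ∃ (U : A[X] →ₗ[ℂ] A[X]) (Q : ℕ → Module.End ℂ A'), Dg U c ∧
      Q ∈ famG (Set.univ : Set (Derivation ℂ A' A')) ∧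
      ∀ M u, Rz f M (U u) = P M (Rz f M u) ∧ Rz φ M (U u) = Q M (Rz φ M u) := by
  refine famG_induction (p := fun P => ∃ c : ℕ, ∀ (f : A) (φ : A')
    (_ : ∀ θ ∈ Θ, ∃ D : Derivation ℂ A' A',
      (∀ a, D (algebraMap A A' a) = algebraMap A A' (θ a)) ∧ D φ = algebraMap A A' (θ f))
    (N : Derivation ℂ A' A') (_ : ∀ a, N (algebraMap A A' a) = 0)
    (_ : N φ = φ - algebraMap A A' f),
    ∃ (U : A[X] →ₗ[ℂ] A[X]) (Q : ℕ → Module.End ℂ A'), Dg U c ∧
      Q ∈ famG (Set.univ : Set (Derivation ℂ A' A')) ∧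
      ∀ M u, Rz f M (U u) = P M (Rz f M u) ∧ Rz φ M (U u) = Q M (Rz φ M u)) ?_ ?_ ?_ ?_ ?_ hP
  · intro b
    refine ⟨0, fun f φ _ N _ _ => ⟨LinearMap.mulLeft ℂ (C b), _, Dg.of_monomial ?_,
      famG_mul (algebraMap A A' b), fun M u => ⟨?_, ?_⟩⟩⟩
    · intro j a n hn
      rw [LinearMap.mulLeft_apply, C_mul_monomial, Polynomial.coeff_monomial, if_neg (by omega)]
    · rw [LinearMap.mulLeft_apply, Rz_C_mul, LinearMap.mulLeft_apply]
      rfl
    · rw [LinearMap.mulLeft_apply, Rz_C_mul, LinearMap.mulLeft_apply]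
  · intro θ hθ
    refine ⟨1, fun f φ hΘ N _ _ => ?_⟩
    obtain ⟨D, h1, h2⟩ := hΘ θ hθ
    refine ⟨DU θ (θ f), _, Dg_DU _ _, famG_der (Set.mem_univ D), fun M u => ⟨?_, ?_⟩⟩
    · exact Rz_DU f M θ (θ f) θ (fun a => rfl) rfl u
    · exact Rz_DU φ M θ (θ f) D h1 h2 u
  · refine ⟨1, fun f φ _ N hN hφ => ?_⟩
    have hm : ((fun s : ℕ => (s : ℂ) • (1 : Module.End ℂ A')) - fun _ => (N : A' →ₗ[ℂ] A')) ∈
        famG (Set.univ : Set (Derivation ℂ A' A')) :=
      Subalgebra.sub_mem _ famG_nat (famG_der (Set.mem_univ N))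
    refine ⟨SU f, _, Dg_SU f, hm, fun M u => ⟨?_, ?_⟩⟩
    · rw [Rz_SU f M f 0 (fun a => rfl) (by simp) u]
      simp
    · rw [Rz_SU φ M f N hN hφ u]
      rfl
  · rintro P P' - - ⟨c, h⟩ ⟨c', h'⟩
    refine ⟨max c c', fun f φ hΘ N hN hφ => ?_⟩
    obtain ⟨U, Q, hU, hQ, h⟩ := h f φ hΘ N hN hφ
    obtain ⟨U', Q', hU', hQ', h'⟩ := h' f φ hΘ N hN hφ
    refine ⟨U + U', Q + Q', (hU.mono (le_max_left _ _)).add (hU'.mono (le_max_right _ _)),
      (famG _).add_mem hQ hQ', fun M u => ⟨?_, ?_⟩⟩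
    · rw [LinearMap.add_apply, map_add, (h M u).1, (h' M u).1]
      rfl
    · rw [LinearMap.add_apply, map_add, (h M u).2, (h' M u).2]
      rfl
  · rintro P P' - - ⟨c, h⟩ ⟨c', h'⟩
    refine ⟨c' + c, fun f φ hΘ N hN hφ => ?_⟩
    obtain ⟨U, Q, hU, hQ, h⟩ := h f φ hΘ N hN hφ
    obtain ⟨U', Q', hU', hQ', h'⟩ := h' f φ hΘ N hN hφ
    refine ⟨U ∘ₗ U', Q * Q', hU.comp hU', (famG _).mul_mem hQ hQ', fun M u => ⟨?_, ?_⟩⟩
    · rw [LinearMap.comp_apply, (h M _).1, (h' M u).1]
      rfl
    · rw [LinearMap.comp_apply, (h M _).2, (h' M u).2]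
      rfl

end Pool.Agent.Q221.Sm
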