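import Pool.Agent.Q221.Sm.Glue

/-!
# The value of `b`-functions at `-1`
-/

set_option autoImplicit false
set_option linter.unusedSectionVars false

namespace Pool.Agent.Q221.Sm

section

variable {A K : Type} [CommRing A] [Algebra ℂ A] [CommRing K] [Algebra ℂ K] [Algebra A K]
  [IsScalarTower ℂ A K]

/-- the operators which belong to a family -/
theorem exists_TZ (f : A) [IsLocalization.Away f K] {P : ℕ → Module.End ℂ A}
    (hP : P ∈ famG (Set.univ : Set (Derivation ℂ A A))) :
    ∃ T : ℤ → K → K,
      (∀ p : Polynomial K, ∃ q : Polynomial K, ∀ z : ℤ, T z (p.eval (z : K)) = q.eval (z : K)) ∧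
      (∀ (s : ℕ) (x : K) (a : A), x * algebraMap A K f ^ s = algebraMap A K a →
        T s x * algebraMap A K f ^ s = algebraMap A K (P s a)) ∧
      ∀ a : A, ∃ a' : A, T (-1) (algebraMap A K (f * a)) = algebraMap A K (f * a') := by
  have hu : IsUnit (algebraMap A K f) := IsLocalization.Away.algebraMap_isUnit f
  refine famG_induction (p := fun P => ∃ T : ℤ → K → K,
      (∀ p : Polynomial K, ∃ q : Polynomial K, ∀ z : ℤ, T z (p.eval (z : K)) = q.eval (z : K)) ∧
      (∀ (s : ℕ) (x : K) (a : A), x * algebraMap A K f ^ s = algebraMap A K a →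
        T s x * algebraMap A K f ^ s = algebraMap A K (P s a)) ∧
      ∀ a : A, ∃ a' : A, T (-1) (algebraMap A K (f * a)) = algebraMap A K (f * a')) ?_ ?_ ?_ ?_ ?_ hP
  · intro c
    refine ⟨fun _ x => algebraMap A K c * x, fun p => ⟨Polynomial.C (algebraMap A K c) * p,
      fun z => by rw [Polynomial.eval_mul, Polynomial.eval_C]⟩, fun s x a h => ?_,
      fun a => ⟨c * a, ?_⟩⟩
    · rw [LinearMap.mulLeft_apply, map_mul, ← h, mul_assoc]
    · show algebraMap A K c * algebraMap A K (f * a) = algebraMap A K (f * (c * a))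
      rw [← map_mul]
      congr 1
      ring
  · intro θ _
    obtain ⟨θ', hθ'⟩ := exists_ext (A' := K) f θ
    obtain ⟨w, hw⟩ := hu.exists_right_inv
    have hz : ∀ z : ℤ, θ' (z : K) = 0 := fun z => by
      have := θ'.map_intCast z
      exact this
    refine ⟨fun z x => θ' x + (z : K) * (algebraMap A K (θ f) * w * x), fun p => ?_,
      fun s x a h => ?_, fun a => ⟨θ a, ?_⟩⟩
    · induction p using Polynomial.induction_on' with
      | add p q hp hq =>
        obtain ⟨p', hp'⟩ := hp
        obtain ⟨q', hq'⟩ := hq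
        refine ⟨p' + q', fun z => ?_⟩
        rw [Polynomial.eval_add, Polynomial.eval_add, ← hp', ← hq']
        beta_reduce
        rw [map_add]
        ring
      | monomial n c =>
        refine ⟨Polynomial.monomial n (θ' c) + Polynomial.X * (Polynomial.C (algebraMap A K (θ f) * w) *
          Polynomial.monomial n c), fun z => ?_⟩
        have h1 : θ' ((z : K) ^ n) = 0 := by
          rw [Derivation.leibniz_pow, hz, smul_zero, smul_zero]
        rw [Polynomial.eval_add, Polynomial.eval_mul, Polynomial.eval_mul, Polynomial.eval_C,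
          Polynomial.eval_X, Polynomial.eval_monomial, Polynomial.eval_monomial]
        beta_reduce
        rw [Derivation.leibniz, h1, smul_zero, zero_add, smul_eq_mul]
        ring
    · have h1 : θ' (x * algebraMap A K f ^ s) = algebraMap A K (θ a) := by rw [h, hθ']
      rw [Derivation.leibniz, Derivation.leibniz_pow, hθ', smul_eq_mul, smul_eq_mul, smul_eq_mul,
        nsmul_eq_mul] at h1
      show (θ' x + ((s : ℤ) : K) * (algebraMap A K (θ f) * w * x)) * algebraMap A K f ^ s =
        algebraMap A K (θ a)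
      rw [← h1, Int.cast_natCast]
      rcases s with _ | s
      · simp
      · rw [Nat.add_sub_cancel, pow_succ]
        linear_combination ((s + 1 : ℕ) : K) * algebraMap A K (θ f) * x *
          algebraMap A K f ^ s * hw
    · show θ' (algebraMap A K (f * a)) + ((-1 : ℤ) : K) * (algebraMap A K (θ f) * w *
        algebraMap A K (f * a)) = algebraMap A K (f * θ a)
      rw [hθ', Derivation.leibniz, smul_eq_mul, smul_eq_mul, map_add, map_mul, map_mul, map_mul,
        Int.cast_neg, Int.cast_one]
      linear_combination (-(algebraMap A K (θ f) * algebraMap A K a)) * hw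
  · refine ⟨fun z x => (z : K) * x, fun p => ⟨Polynomial.X * p,
      fun z => by rw [Polynomial.eval_mul, Polynomial.eval_X]⟩, fun s x a h => ?_,
      fun a => ⟨-a, ?_⟩⟩
    · show ((s : ℤ) : K) * x * _ = _
      rw [LinearMap.smul_apply, Module.End.one_apply, Algebra.smul_def, map_mul, ← h,
        map_natCast, map_natCast, Int.cast_natCast, mul_assoc]
    · show ((-1 : ℤ) : K) * _ = _
      rw [Int.cast_neg, Int.cast_one, mul_neg, map_neg]
      ring
  · rintro P Q - - ⟨T, h1, h2, h3⟩ ⟨T', h1', h2', h3'⟩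
    refine ⟨fun z x => T z x + T' z x, fun p => ?_, fun s x a h => ?_, fun a => ?_⟩
    · obtain ⟨q, hq⟩ := h1 p
      obtain ⟨q', hq'⟩ := h1' p
      exact ⟨q + q', fun z => by rw [Polynomial.eval_add, ← hq, ← hq']⟩
    · show (T s x + T' s x) * _ = _
      rw [add_mul, h2 s x a h, h2' s x a h, Pi.add_apply, LinearMap.add_apply, map_add]
    · obtain ⟨b, hb⟩ := h3 a
      obtain ⟨b', hb'⟩ := h3' a
      refine ⟨b + b', ?_⟩
      beta_reduce
      rw [hb, hb', mul_add, map_add]
  · rintro P Q - - ⟨T, h1, h2, h3⟩ ⟨T', h1', h2', h3'⟩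
    refine ⟨fun z x => T z (T' z x), fun p => ?_, fun s x a h => ?_, fun a => ?_⟩
    · obtain ⟨q', hq'⟩ := h1' p
      obtain ⟨q, hq⟩ := h1 q'
      refine ⟨q, fun z => ?_⟩
      beta_reduce
      rw [hq', hq]
    · show T s (T' s x) * _ = _
      rw [h2 s (T' s x) (Q s a) (h2' s x a h)]
      rfl
    · obtain ⟨b', hb'⟩ := h3' a
      obtain ⟨b, hb⟩ := h3 b'
      refine ⟨b, ?_⟩
      beta_reduce
      rw [hb', hb]

end

/-- **`b(-1)` is in the ideal of `f`.** -/
theorem eval_neg_one {A : Type} [CommRing A] [IsDomain A] [Algebra ℂ A] {f : A} (hf : f ≠ 0)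
    {b : Polynomial ℂ} {P : ℕ → Module.End ℂ A}
    (hP : P ∈ famG (Set.univ : Set (Derivation ℂ A A)))
    (h : ∀ s : ℕ, P s (f ^ (s + 1)) = b.eval (s : ℂ) • f ^ s) :
    ∃ a : A, algebraMap ℂ A (b.eval (-1)) = f * a := by
  let K := Localization.Away f
  have hle : Submonoid.powers f ≤ nonZeroDivisors A :=
    powers_le_nonZeroDivisors_of_noZeroDivisors hf
  have : IsDomain K := IsLocalization.isDomain_localization hle
  have hinj : Function.Injective (algebraMap A K) := IsLocalization.injective K hle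
  have : CharZero K := by
    have h1 : Function.Injective (algebraMap ℂ K) := (algebraMap ℂ K).injective
    exact charZero_of_injective_algebraMap h1
  obtain ⟨T, h1, h2, h3⟩ := exists_TZ (K := K) f hP
  obtain ⟨q, hq⟩ := h1 (Polynomial.C (algebraMap A K f))
  obtain ⟨a, ha⟩ := h3 1
  have hf0 : algebraMap A K f ≠ 0 := by
    rw [Ne, map_eq_zero_iff _ hinj]
    exact hf
  have e1 : q = b.map (algebraMap ℂ K) := by
    refine Polynomial.eq_of_infinite_eval_eq _ _ ?_
    refine Set.Infinite.mono ?_ (Set.infinite_range_of_injective (Nat.cast_injective (R := K)))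
    rintro _ ⟨s, rfl⟩
    show q.eval (s : K) = (b.map (algebraMap ℂ K)).eval (s : K)
    have e2 := h2 s (algebraMap A K f) (f ^ (s + 1)) (by rw [map_pow, pow_succ'])
    rw [h s, Algebra.smul_def, map_mul, map_pow, ← IsScalarTower.algebraMap_apply] at e2
    have e3 := mul_right_cancel₀ (pow_ne_zero s hf0) e2
    have e4 := hq s
    rw [Polynomial.eval_C, Int.cast_natCast] at e4
    rw [← e4, e3, ← map_natCast (algebraMap ℂ K) s, Polynomial.eval_map_algebraMap,
      Polynomial.aeval_algebraMap_apply]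
    rw [Polynomial.coe_aeval_eq_eval]
  refine ⟨a, hinj ?_⟩
  rw [← ha, mul_one]
  have e5 := hq (-1)
  rw [Polynomial.eval_C, Int.cast_neg, Int.cast_one] at e5
  rw [e5, e1, ← IsScalarTower.algebraMap_apply]
  have e6 : (-1 : K) = algebraMap ℂ K (-1) := by rw [map_neg, map_one]
  rw [e6, Polynomial.eval_map_algebraMap, Polynomial.aeval_algebraMap_apply,
    Polynomial.coe_aeval_eq_eval]

theorem eval_neg_one_eq_zero {A : Type} [CommRing A] [IsDomain A] [Algebra ℂ A] {f : A} (hf : f ≠ 0)
    (hu : ¬ IsUnit f) {b : Polynomial ℂ} {P : ℕ → Module.End ℂ A}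
    (hP : P ∈ famG (Set.univ : Set (Derivation ℂ A A)))
    (h : ∀ s : ℕ, P s (f ^ (s + 1)) = b.eval (s : ℂ) • f ^ s) : b.eval (-1) = 0 := by
  obtain ⟨a, ha⟩ := eval_neg_one hf hP h
  by_contra hne
  apply hu
  have h1 : IsUnit (f * a) := by
    rw [← ha]
    exact (IsUnit.mk0 _ hne).map (algebraMap ℂ A)
  exact isUnit_of_mul_isUnit_left h1

end Pool.Agent.Q221.Sm
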