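import Pool.Agent.Q221.Sm.TopX
import Pool.Agent.Q221.Sm.UnitX

/-!
# The monodromy conjecture on smooth varieties: the reduction to affine spaces
-/

set_option autoImplicit false
set_option linter.unusedSectionVars false

namespace Pool.Agent.Q221.Sm

open MvPolynomial Pool.Agent.W428.MOT Pool.Agent.TH192.MT Pool.Agent.TH192.MU
open Pool.Agent.Q223.ID Pool.Agent.Q223.TW Pool.Agent.W206.CU
open Pool.Agent.H628R4.TP (weylS IsBFunction)
open Pool.Agent.W63.MTFin (mapMeas L_mul)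

/-! ### Points -/

section pts

variable {σ : Type} {r : ℕ}

theorem exists_point [Finite σ] {g : Fin r → MvPolynomial σ ℂ}
    (hI : Ideal.span (Set.range g) ≠ ⊤) : ∃ x : σ → ℂ, ∀ k, eval x (g k) = 0 := by
  by_contra hne
  push Not at hne
  apply hI
  have h1 : zeroLocus ℂ (Ideal.span (Set.range g)) = ∅ := by
    rw [Set.eq_empty_iff_forall_notMem]
    intro x hx
    rw [mem_zeroLocus_iff] at hx
    obtain ⟨k, hk⟩ := hne x
    exact hk (hx (g k) (Ideal.subset_span ⟨k, rfl⟩))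
  have h2 := vanishingIdeal_zeroLocus_eq_radical (K := ℂ) (Ideal.span (Set.range g))
  rw [h1, vanishingIdeal_empty] at h2
  exact Ideal.radical_eq_top.1 h2.symm

theorem card_le [Fintype σ] {g : Fin r → MvPolynomial σ ℂ} (hg : IsCI g)
    (hI : Ideal.span (Set.range g) ≠ ⊤) : r ≤ Fintype.card σ := by
  obtain ⟨x, hx⟩ := exists_point hI
  obtain ⟨ι, hι⟩ := hg x hx
  have h1 : Function.Injective ι := by
    intro a b hab
    by_contra hne
    apply hι
    rw [Matrix.det_zero_of_column_eq (M := jm g ι) hne fun k => by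
      show pderiv (ι a) (g k) = pderiv (ι b) (g k)
      rw [hab], map_zero]
  simpa using Fintype.card_le_of_injective ι h1

end pts

/-! ### The trivial cases -/

section triv

variable {σ : Type} {r : ℕ} {g : Fin r → MvPolynomial σ ℂ}

theorem dvd_of_mem {N : ℕ} {z : Pt ℂ (σ × Fin (N + 1))}
    (hz : ∀ i, ∀ j < N + 1, PowerSeries.coeff j (aeval (ar z) (g i)) = 0)
    {p : MvPolynomial σ ℂ} (hp : p ∈ Ideal.span (Set.range g)) :
    (PowerSeries.X : PowerSeries (AlgebraicClosure ℂ)) ^ (N + 1) ∣ aeval (ar z) p := by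
  have h1 : Ideal.span (Set.range g) ≤ (Ideal.span {(PowerSeries.X :
      PowerSeries (AlgebraicClosure ℂ)) ^ (N + 1)}).comap
        (aeval (ar z) : MvPolynomial σ ℂ →ₐ[ℂ] PowerSeries (AlgebraicClosure ℂ)).toRingHom := by
    rw [Ideal.span_le]
    rintro _ ⟨i, rfl⟩
    show _ ∈ Ideal.span _
    rw [Ideal.mem_span_singleton]
    exact PowerSeries.X_pow_dvd_iff.2 (hz i)
  exact Ideal.mem_span_singleton.1 (h1 hp)

theorem JetCX_mem {f : MvPolynomial σ ℂ} (hf : f ∈ Ideal.span (Set.range g)) (k d : ℕ) :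
    JetCX g f k d = ∅ := by
  rw [Set.eq_empty_iff_forall_notMem]
  rintro z ⟨⟨h1, h2⟩, h3⟩
  have h4 := PowerSeries.X_pow_dvd_iff.1 (dvd_of_mem h3 hf) d (Nat.lt_succ_self d)
  have h5 : PowerSeries.coeff d (aeval (ar fun i => z (Sum.inr i)) f) = z (Sum.inl ()) ^ k := h2.2.2
  rw [h4] at h5
  exact pow_ne_zero k h1 h5.symm

theorem JetCX_unit {f : MvPolynomial σ ℂ}
    (hf : IsUnit (Ideal.Quotient.mk (Ideal.span (Set.range g)) f)) (k : ℕ) {d : ℕ} (hd : 0 < d) :
    JetCX g f k d = ∅ := by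
  rw [Set.eq_empty_iff_forall_notMem]
  rintro z ⟨⟨h1, h2⟩, h3⟩
  obtain ⟨a', ha'⟩ := hf.exists_right_inv
  obtain ⟨a, rfl⟩ := Ideal.Quotient.mk_surjective a'
  have h4 : f * a - 1 ∈ Ideal.span (Set.range g) := by
    rw [← Ideal.Quotient.eq_zero_iff_mem, map_sub, map_mul, map_one, ha', sub_self]
  have h5 := PowerSeries.X_pow_dvd_iff.1 (dvd_of_mem h3 h4) 0 (Nat.succ_pos d)
  have h6 : PowerSeries.coeff 0 (aeval (ar fun i => z (Sum.inr i)) f) = 0 := h2.2.1 0 hd
  rw [PowerSeries.coeff_zero_eq_constantCoeff_apply] at h5 h6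
  rw [map_sub, map_mul, map_one, map_sub, map_mul, map_one, h6, zero_mul, zero_sub] at h5
  exact one_ne_zero (neg_eq_zero.1 h5)

theorem zetaCX_zero [Fintype σ] {f : MvPolynomial σ ℂ} (k : ℕ)
    (h : ∀ d, 0 < d → JetCX g f k d = ∅) : zetaCX g f k = 0 := by
  obtain ⟨M₀, hM₀⟩ := Pool.Agent.W417.MT.K0.main ℂ
  ext d
  rw [zetaCX, PowerSeries.coeff_mk, map_zero]
  split_ifs with hd
  · rfl
  · rw [h d (Nat.pos_of_ne_zero hd), ← hM₀, chi_empty, map_zero, zero_mul]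

variable {R : Type} [CommRing R] [IsDomain R] (E : MK ℂ →+* R) (ε : R →+* ℂ)

theorem isTop_zero {Y : RatFunc ℂ} (h : IsTopZeta E ε 0 Y) : Y = 0 := by
  have h1 : Y.num = 0 := by
    refine Polynomial.eq_zero_of_infinite_isRoot _ (Set.Infinite.mono ?_
      (Set.infinite_range_of_injective (f := fun n : ℕ => ((n + 1 : ℕ) : ℂ)) ?_))
    · rintro _ ⟨n, rfl⟩
      obtain ⟨c, h2, h3⟩ := h (n + 1) (Nat.succ_pos n)
      have h4 : SpecAt (Units.map (E : MK ℂ →* R) (Lu ℂ)) ε (PowerSeries.map E 0) (n + 1)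
          (ε 0) := by
        have := specAt_C (u := Units.map (E : MK ℂ →* R) (Lu ℂ)) (ε := ε) (0 : R) (n + 1)
        rwa [map_zero (PowerSeries.C (R := R)), ← map_zero (PowerSeries.map E)] at this
      have h5 := specAt_unique h2 h4
      rw [map_zero] at h5
      rw [h5, zero_mul] at h3
      exact h3
    · intro a b hab
      have h2 : ((a + 1 : ℕ) : ℂ) = ((b + 1 : ℕ) : ℂ) := hab
      have h3 : a + 1 = b + 1 := by exact_mod_cast h2
      omega
  rwa [RatFunc.num_eq_zero_iff] at h1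

theorem twisted_zero [Fintype σ] {f : MvPolynomial σ ℂ} {e : ℕ} (he : 0 < e)
    (h : ∀ k d, 0 < d → JetCX g f k d = ∅) {Z : RatFunc ℂ} (hZ : IsTwistedTopX E ε g f e Z)
    (s₀ : ℂ) : Z.denom.eval s₀ ≠ 0 := by
  obtain ⟨Y, hY, hZY⟩ := hZ
  have h1 : ∀ k, k ∣ e → Y k = 0 := by
    intro k hk
    have h2 := hY k hk
    rw [zetaCX_zero k (h k)] at h2
    exact isTop_zero E ε h2
  have h3 : Z = 0 := by
    rw [Finset.sum_eq_zero fun q hq => by
      rw [h1 q.2 (Dvd.intro_left q.1 (Nat.mem_divisorsAntidiagonal.1 hq).1), mul_zero],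
      mul_eq_zero] at hZY
    refine hZY.resolve_left ?_
    have h2 : 0 < Nat.totient e := Nat.totient_pos.2 he
    exact_mod_cast h2.ne'
  rw [h3, RatFunc.denom_zero, Polynomial.eval_one]
  exact one_ne_zero

/-- **If there is a pole, every `b`-function is zero at `-1`.** -/
theorem bm1 [Fintype σ] (hI : (Ideal.span (Set.range g)).IsPrime) {f : MvPolynomial σ ℂ} {e : ℕ}
    (he : 0 < e) {Z : RatFunc ℂ} (hZ : IsTwistedTopX E ε g f e Z) {s₀ : ℂ}
    (hs : Z.denom.eval s₀ = 0) {b : Polynomial ℂ} (hb : IsBX f g b) : b.eval (-1) = 0 := by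
  have : IsDomain (MvPolynomial σ ℂ ⧸ Ideal.span (Set.range g)) :=
    (Ideal.Quotient.isDomain_iff_prime _).2 hI
  obtain ⟨P, hP, h⟩ := hb
  refine eval_neg_one_eq_zero (f := Ideal.Quotient.mk (Ideal.span (Set.range g)) f) ?_ ?_ hP h
  · intro h0
    exact twisted_zero E ε he (fun k d _ =>
      JetCX_mem (Ideal.Quotient.eq_zero_iff_mem.1 h0) k d) hZ s₀ hs
  · intro hu
    exact twisted_zero E ε he (fun k d hd => JetCX_unit hu k hd) hZ s₀ hs

end triv

/-! ### The conjecture -/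

section mc

variable {R : Type} [CommRing R] (E : MK ℂ →+* R) (ε : R →+* ℂ)

theorem FN_eq {n r : ℕ} (f : MvPolynomial (Fin n) ℂ) (g : Fin r → MvPolynomial (Fin n) ℂ) :
    renameEquiv ℂ (finSumFinEquiv (m := n) (n := r)) (FS f g) = FN f g := by
  rw [renameEquiv_apply, FS, FN, map_add, rename_rename, map_sum]
  congr 1
  refine Finset.sum_congr rfl fun k _ => ?_
  rw [map_mul, rename_X, rename_rename]
  rfl

/-- the `b`-function of `f + ∑ y_k g_k` -/
theorem isBFunction_FN {n r : ℕ} {f : MvPolynomial (Fin n) ℂ} {g : Fin r → MvPolynomial (Fin n) ℂ}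
    (hg : IsCI g) {b : Polynomial ℂ} (hb : IsBX f g b) :
    IsBFunction (FN f g) ((Polynomial.X + 1) *
      b.comp (Polynomial.X + Polynomial.C (r : ℂ))) := by
  rw [← FN_eq]
  exact isBFunction_of_bs1 (bs1_iso _ (bs1_FS hg hb))

variable [IsDomain R]

theorem twisted_FN (h1 : ε (E ((Lu ℂ : (MK ℂ)ˣ) : MK ℂ)) = 1)
    (hu : E ((Lu ℂ : (MK ℂ)ˣ) : MK ℂ) ≠ 1) {n r : ℕ} {g : Fin r → MvPolynomial (Fin n) ℂ}
    (hg : IsCI g) (hr : r ≤ Fintype.card (Fin n)) (f : MvPolynomial (Fin n) ℂ)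
    {e : ℕ} {Z : RatFunc ℂ} (hZ : IsTwistedTopX E ε g f e Z) :
    ∃ Z', IsTwistedTop E ε (FN f g) e Z' ∧
      ∀ s₀ : ℂ, s₀ ≠ r → s₀ ≠ -1 → Z.denom.eval s₀ = 0 →
        Z'.denom.eval (s₀ - r) = 0 := by
  obtain ⟨Z', ⟨Y, hY, hZY⟩, hp⟩ := twisted_FS E ε h1 hu hg hr f hZ
  refine ⟨Z', ⟨Y, fun k hk => ?_, hZY⟩, hp⟩
  rw [← FN_eq, zetaC_iso _ (by simp)]
  exact hY k hk

/-- **The reduction for one variety and one function.** -/
theorem reduceX (h1 : ε (E ((Lu ℂ : (MK ℂ)ˣ) : MK ℂ)) = 1)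
    (hu : E ((Lu ℂ : (MK ℂ)ˣ) : MK ℂ) ≠ 1) {n r : ℕ} {g : Fin r → MvPolynomial (Fin n) ℂ}
    (hg : IsCI g) (hI : (Ideal.span (Set.range g)).IsPrime) (f : MvPolynomial (Fin n) ℂ)
    {e : ℕ} (he : 0 < e) :
    (WeakTw E ε e (FN f g) → WeakTwX E ε e g f) ∧
      (StrongTw E ε e (FN f g) → StrongTwX E ε e g f) := by
  have hr : r ≤ Fintype.card (Fin n) := card_le hg hI.ne_top
  have hev : ∀ (b : Polynomial ℂ) (s : ℂ), ((Polynomial.X + 1) *
      b.comp (Polynomial.X + Polynomial.C (r : ℂ))).eval s = (s + 1) * b.eval (s + r) := by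
    intro b s
    rw [Polynomial.eval_mul, Polynomial.eval_add, Polynomial.eval_X, Polynomial.eval_one,
      Polynomial.eval_comp, Polynomial.eval_add, Polynomial.eval_X, Polynomial.eval_C]
  constructor
  · intro hF Z hZ s₀ hs b hb
    by_cases hint : ∃ j : ℤ, s₀ = j
    · obtain ⟨j, rfl⟩ := hint
      refine ⟨-1 - j, ?_⟩
      push_cast
      rw [add_sub_cancel]
      exact bm1 E ε hI he hZ hs hb
    · push Not at hint
      obtain ⟨Z', hZ', hp⟩ := twisted_FN E ε h1 hu hg hr f hZ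
      have h2 := hp s₀ (fun h => hint r (by push_cast; exact h))
        (fun h => hint (-1) (by push_cast; exact h)) hs
      obtain ⟨j, hj⟩ := hF Z' hZ' _ h2 _ (isBFunction_FN hg hb)
      refine ⟨j, ?_⟩
      rw [hev, mul_eq_zero] at hj
      rcases hj with hj | hj
      · exfalso
        apply hint (r - j - 1)
        push_cast
        linear_combination hj
      · rw [show s₀ + (j : ℂ) = s₀ - r + j + r by ring]
        exact hj
  · intro hF Z hZ s₀ hs0 hs b hb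
    have hpos : ∀ k : ℕ, s₀ ≠ k := by
      rintro k rfl
      rcases Nat.eq_zero_or_pos k with rfl | hk
      · exact hs0 Nat.cast_zero
      · exact twistedX_pos E ε he hZ hk hs
    by_cases hm : s₀ = -1
    · rw [hm]
      exact bm1 E ε hI he hZ hs hb
    · obtain ⟨Z', hZ', hp⟩ := twisted_FN E ε h1 hu hg hr f hZ
      have h2 := hp s₀ (hpos r) hm hs
      have hj := hF Z' hZ' _ (fun h => hpos r (sub_eq_zero.1 h)) h2 _
        (isBFunction_FN hg hb)
      rw [hev, mul_eq_zero, sub_add_cancel] at hj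
      rcases hj with hj | hj
      · exfalso
        rcases Nat.eq_zero_or_pos r with hr0 | hr0
        · apply hm
          rw [hr0, Nat.cast_zero] at hj
          linear_combination hj
        · apply hpos (r - 1)
          rw [Nat.cast_sub hr0]
          push_cast
          linear_combination hj
      · exact hj

/-! ### Affine spaces -/

theorem isCI_elim0 {n : ℕ} : IsCI (σ := Fin n) (r := 0) Fin.elim0 := by
  intro x _
  refine ⟨Fin.elim0, ?_⟩
  rw [Matrix.det_isEmpty, map_one]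
  exact one_ne_zero

theorem span_elim0 {n : ℕ} : Ideal.span (Set.range (Fin.elim0 : Fin 0 → MvPolynomial (Fin n) ℂ)) = ⊥ := by
  rw [Set.range_eq_empty, Ideal.span_empty]

theorem fam_le_famG {σ : Type} {P : ℕ → Module.End ℂ (MvPolynomial σ ℂ)} (hP : P ∈ fam σ) :
    P ∈ famG (Set.univ : Set (Derivation ℂ (MvPolynomial σ ℂ) (MvPolynomial σ ℂ))) := by
  have h1 : ∀ Q ∈ weylS σ, (fun _ : ℕ => Q) ∈
      famG (Set.univ : Set (Derivation ℂ (MvPolynomial σ ℂ) (MvPolynomial σ ℂ))) := by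
    intro Q hQ
    induction hQ using Algebra.adjoin_induction with
    | mem x hx =>
      rcases hx with ⟨i, rfl⟩ | ⟨i, rfl⟩
      · exact famG_mul _
      · exact famG_der (Set.mem_univ _)
    | algebraMap c => exact (famG _).algebraMap_mem c
    | add x y _ _ hx hy => exact (famG _).add_mem hx hy
    | mul x y _ _ hx hy => exact (famG _).mul_mem hx hy
  refine (Algebra.adjoin_le ?_ : fam σ ≤ famG _) hP
  rintro _ (⟨Q, hQ, rfl⟩ | hx)
  · exact h1 Q hQ
  · rw [Set.mem_singleton_iff] at hx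
    subst hx
    exact famG_nat

theorem isBX_of_isBFunction {n : ℕ} {f : MvPolynomial (Fin n) ℂ} {b : Polynomial ℂ}
    (hb : IsBFunction f b) : IsBX f (Fin.elim0 : Fin 0 → MvPolynomial (Fin n) ℂ) b := by
  rw [isBFunction_iff] at hb
  obtain ⟨P, hP, h⟩ := hb
  have h0 := span_elim0 (n := n)
  let e : MvPolynomial (Fin n) ℂ ≃ₐ[ℂ] (MvPolynomial (Fin n) ℂ ⧸
      Ideal.span (Set.range (Fin.elim0 : Fin 0 → MvPolynomial (Fin n) ℂ))) :=
    AlgEquiv.ofBijective (Ideal.Quotient.mkₐ ℂ _)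
      ⟨by
        intro a b hab
        have h1 : a - b ∈ Ideal.span (Set.range (Fin.elim0 : Fin 0 → MvPolynomial (Fin n) ℂ)) :=
          (Ideal.Quotient.mk_eq_mk_iff_sub_mem a b).1 hab
        rw [h0, Ideal.mem_bot] at h1
        exact sub_eq_zero.1 h1, Ideal.Quotient.mk_surjective⟩
  obtain ⟨Q, hQ, h'⟩ := famG_conj e (fam_le_famG hP)
  refine ⟨Q, hQ, fun s => ?_⟩
  have h2 := h' s (f ^ (s + 1))
  have h3 : ∀ p, e p = Ideal.Quotient.mk _ p := fun p => rfl
  rw [← map_pow, ← h3, h2, ← map_pow, ← h3, ← h s, ← MvPolynomial.smul_eq_C_mul, map_smul]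

theorem isTwistedTopX_of {n : ℕ} {f : MvPolynomial (Fin n) ℂ} {e : ℕ} {Z : RatFunc ℂ}
    (hZ : IsTwistedTop E ε f e Z) :
    IsTwistedTopX E ε (Fin.elim0 : Fin 0 → MvPolynomial (Fin n) ℂ) f e Z := by
  obtain ⟨Y, hY, hZY⟩ := hZ
  refine ⟨Y, fun k hk => ?_, hZY⟩
  have h1 : zetaCX (Fin.elim0 : Fin 0 → MvPolynomial (Fin n) ℂ) f k = zetaC f k := by
    ext d
    rw [zetaCX, zetaC, PowerSeries.coeff_mk, PowerSeries.coeff_mk, Nat.sub_zero]
    have h2 : JetCX (Fin.elim0 : Fin 0 → MvPolynomial (Fin n) ℂ) f k d = JetC f k d := by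
      ext z
      exact ⟨fun h => h.1, fun h => ⟨h, fun i => i.elim0⟩⟩
    rw [h2]
  rw [h1]
  exact hY k hk

theorem weakTw_of {n : ℕ} {f : MvPolynomial (Fin n) ℂ} {e : ℕ}
    (h : WeakTwX E ε e (Fin.elim0 : Fin 0 → MvPolynomial (Fin n) ℂ) f) : WeakTw E ε e f :=
  fun Z hZ s₀ hs b hb => h Z (isTwistedTopX_of E ε hZ) s₀ hs b (isBX_of_isBFunction hb)

theorem strongTw_of {n : ℕ} {f : MvPolynomial (Fin n) ℂ} {e : ℕ}
    (h : StrongTwX E ε e (Fin.elim0 : Fin 0 → MvPolynomial (Fin n) ℂ) f) : StrongTw E ε e f :=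
  fun Z hZ s₀ hs0 hs b hb => h Z (isTwistedTopX_of E ε hZ) s₀ hs0 hs b (isBX_of_isBFunction hb)

end mc

end Pool.Agent.Q221.Sm
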