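import Pool.Agent.Q221.Sm.Fib
import Pool.Agent.Q223.TW.Red

/-!
# The series of the covers for `f + ∑ y_k g_k`
-/

set_option autoImplicit false
set_option linter.unusedSectionVars false

namespace Pool.Agent.Q221.Sm

open MvPolynomial Pool.Agent.W428.MOT Pool.Agent.TH192.MT Pool.Agent.TH192.MU
open Pool.Agent.Q223.ID Pool.Agent.Q223.TW
open Pool.Agent.W63.MTFin (mapMeas L_mul)

/-- the class of the complement of the zero set in the variety -/
noncomputable def a0X {σ : Type} [Fintype σ] {r : ℕ} (g : Fin r → MvPolynomial σ ℂ)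
    (f : MvPolynomial σ ℂ) : MK ℂ :=
  algebraMap (K0 ℂ) (MK ℂ) (cls (Unit ⊕ σ × Fin (0 + 1)) (JetCX g f 1 0))

/-- the class of the variety -/
noncomputable def cX {σ : Type} [Fintype σ] {r : ℕ} (g : Fin r → MvPolynomial σ ℂ)
    (f : MvPolynomial σ ℂ) : MK ℂ :=
  algebraMap (K0 ℂ) (MK ℂ) (cls (σ × Fin (0 + 1)) (TS g f 1 0 0))

variable {σ : Type} [Fintype σ] {r : ℕ}

theorem chi_TS_zero (g : Fin r → MvPolynomial σ ℂ) (f : MvPolynomial σ ℂ) {R : Type} [CommRing R]
    (M : Meas ℂ R) (N : ℕ) : M.χ _ (TS g f 0 0 N) = M.L ^ (Fintype.card σ * (N + 1)) := by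
  have h : TS g f 0 0 N = Set.univ := by
    ext z
    exact ⟨fun _ => trivial, fun _ => ⟨fun k l hl => absurd hl (Nat.not_lt_zero l),
      fun l hl => absurd hl (Nat.not_lt_zero l)⟩⟩
  rw [h, chi_univ, Fintype.card_prod, Fintype.card_fin]

/-- **The series of the covers for `f + ∑ y_k g_k`.** -/
theorem zetaC_FS {g : Fin r → MvPolynomial σ ℂ} (hg : IsCI g) (hr : r ≤ Fintype.card σ)
    (f : MvPolynomial σ ℂ) (k : ℕ) :
    zetaC (FS f g) k =
      PowerSeries.C (((Lu ℂ : (MK ℂ)ˣ) : MK ℂ) ^ r) *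
        PowerSeries.rescale ((((Lu ℂ)⁻¹ : (MK ℂ)ˣ) : MK ℂ) ^ r) (zetaCX g f k) +
      (PowerSeries.C (((Lu ℂ : (MK ℂ)ˣ) : MK ℂ) - 1) * geoS (((Lu ℂ)⁻¹ : (MK ℂ)ˣ) : MK ℂ)) *
      (PowerSeries.C (((Lu ℂ : (MK ℂ)ˣ) : MK ℂ) ^ r * (((Lu ℂ)⁻¹ : (MK ℂ)ˣ) : MK ℂ)) *
        (PowerSeries.C (((Lu ℂ : (MK ℂ)ˣ) : MK ℂ) ^ Fintype.card σ -
            ((Lu ℂ : (MK ℂ)ˣ) : MK ℂ) ^ r * cX g f) +
          (PowerSeries.C (((Lu ℂ : (MK ℂ)ˣ) : MK ℂ) ^ r - 1) *
            geoS ((((Lu ℂ)⁻¹ : (MK ℂ)ˣ) : MK ℂ) ^ r)) *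
          (PowerSeries.C (cX g f) - PowerSeries.C ((((Lu ℂ)⁻¹ : (MK ℂ)ˣ) : MK ℂ) ^ r) *
            PowerSeries.X * (PowerSeries.C (a0X g f) +
              PowerSeries.rescale ((((Lu ℂ)⁻¹ : (MK ℂ)ˣ) : MK ℂ) ^ r) (zetaCX g f 1))))) -
      PowerSeries.C ((((Lu ℂ : (MK ℂ)ˣ) : MK ℂ) - 1) * ((Lu ℂ : (MK ℂ)ˣ) : MK ℂ) ^ r *
        (((Lu ℂ)⁻¹ : (MK ℂ)ˣ) : MK ℂ) * (((Lu ℂ : (MK ℂ)ˣ) : MK ℂ) ^ Fintype.card σ - cX g f)) := by
  obtain ⟨M₀, hM₀⟩ := Pool.Agent.W417.MT.K0.main ℂ
  set M := mapMeas M₀ (algebraMap (K0 ℂ) (MK ℂ)) with hM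
  set Y : MK ℂ := (((Lu ℂ)⁻¹ : (MK ℂ)ˣ) : MK ℂ) with hY
  set L : MK ℂ := ((Lu ℂ : (MK ℂ)ˣ) : MK ℂ) with hLdef
  have hLY : L * Y = 1 := Units.mul_inv _
  have hML : M.L = L := by
    have hL : M.L * Y = 1 := L_mul hM₀
    calc M.L = M.L * (L * Y) := by rw [hLY, mul_one]
      _ = (M.L * Y) * L := by ring
      _ = _ := by rw [hL, one_mul]
  have hLYn : ∀ m, L ^ m * Y ^ m = 1 := fun m => by rw [← mul_pow, hLY, one_pow]
  obtain ⟨δ, hδ⟩ : ∃ δ, Fintype.card σ = δ + r := ⟨Fintype.card σ - r, by omega⟩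
  have hδ' : Fintype.card σ - r = δ := by omega
  set x : MK ℂ := cX g f with hx
  set b : ℕ → MK ℂ := fun d => M.χ _ (TS g f (d + 1) d d) * Y ^ (δ * d) with hb
  set A : ℕ → MK ℂ := fun d => M.χ _ (JetCX g f 1 d) * Y ^ (δ * d) with hA
  have hsm : ∀ d, M.χ _ (TS g f (d + 2) (d + 1) (d + 1)) =
      M.χ _ (TS g f (d + 1) (d + 1) d) * L ^ δ := by
    intro d
    rw [chi_TS_smooth M hg f d, hML, hδ']
  have hbs : ∀ d, b (d + 1) = b d - A d := by
    intro d
    rw [hb, hA]
    beta_reduce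
    rw [hsm, chi_TS_split g f M d, show δ * (d + 1) = δ + δ * d by ring, pow_add]
    linear_combination (M.χ _ (TS g f (d + 1) (d + 1) d) * Y ^ (δ * d)) * hLYn δ
  have hxb : x = M.χ _ (TS g f 1 0 0) := by
    rw [hx, cX, ← hM₀]
    rfl
  have hb0 : b 0 = x := by
    rw [hb, hxb]
    beta_reduce
    rw [mul_zero, pow_zero, mul_one]
  -- the terms
  have hterm : ∀ N, ∀ m ∈ Finset.range (N + 1), (M.L - 1) * (M.χ _ (TS g f m m N) -
      M.χ _ (TS g f (m + 1) m N)) * M.L ^ (r * (N + 1) - (N + 1 - m)) *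
        Y ^ ((Fintype.card σ + r) * N) =
      (L - 1) * L ^ r * Y * ((L ^ r - 1) * (Y ^ (r * m) * b m * Y ^ (N - m)) +
        if m = 0 then Y ^ N * (L ^ Fintype.card σ - L ^ r * x) else 0) := by
    intro N m hm
    have hmN : m ≤ N := by
      have := Finset.mem_range.1 hm
      omega
    rw [hML]
    rcases m with _ | m
    · have e1 : M.χ _ (TS g f 0 0 N) = L ^ (Fintype.card σ * (N + 1)) := by
        rw [chi_TS_zero g f M N, hML]
      have e2 : M.χ _ (TS g f (0 + 1) 0 N) = x * L ^ (Fintype.card σ * N) := by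
        have := chi_TS_add g f M 1 0 0 N (by omega) (by omega)
        rw [zero_add, hML] at this
        rw [hxb]
        exact this
      rw [e1, e2, if_pos rfl, hb0, mul_zero, pow_zero, one_mul, Nat.sub_zero, Nat.sub_zero]
      rcases r with _ | r
      · have e3 : TS g f 1 0 0 = TS g f 0 0 0 := by
          ext z
          exact ⟨fun h => ⟨fun k => k.elim0, h.2⟩, fun h => ⟨fun k => k.elim0, h.2⟩⟩
        have e4 : x = L ^ Fintype.card σ := by
          rw [hxb, e3, chi_TS_zero g f M 0, hML, zero_add, mul_one]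
        rw [e4, Nat.mul_succ, pow_add]
        ring
      · have e5 : (r + 1) * (N + 1) - (N + 1) = r * (N + 1) := by
          rw [Nat.succ_mul, Nat.add_sub_cancel]
        rw [e5, show Fintype.card σ * (N + 1) = Fintype.card σ + Fintype.card σ * N by ring,
          show (Fintype.card σ + (r + 1)) * N = Fintype.card σ * N + (r * N + N) by ring,
          show r * (N + 1) = r * N + r by ring, pow_add, pow_add, pow_add, pow_add, pow_succ L r]
        have h1 := hLYn (Fintype.card σ * N)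
        have h2 := hLYn (r * N)
        linear_combination ((L - 1) * (L ^ Fintype.card σ - x) * L ^ r * Y ^ N) *
          (L ^ (r * N) * Y ^ (r * N) * h1 + h2) +
          (-(L - 1) * (L ^ Fintype.card σ - x) * L ^ r * Y ^ N) * hLY
    · have e1 : M.χ _ (TS g f (m + 1) (m + 1) N) =
          M.χ _ (TS g f (m + 1) (m + 1) m) * L ^ (Fintype.card σ * (N - m)) := by
        have := chi_TS_add g f M (m + 1) (m + 1) m (N - m) (by omega) (by omega)
        rw [Nat.add_sub_cancel' (by omega), hML] at this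
        exact this
      have e2 : M.χ _ (TS g f (m + 1 + 1) (m + 1) N) =
          M.χ _ (TS g f (m + 1) (m + 1) m) * L ^ δ * L ^ (Fintype.card σ * (N - (m + 1))) := by
        have := chi_TS_add g f M (m + 2) (m + 1) (m + 1) (N - (m + 1)) (by omega) (by omega)
        rw [Nat.add_sub_cancel' hmN, hML, hsm] at this
        exact this
      have e3 : b (m + 1) = M.χ _ (TS g f (m + 1) (m + 1) m) * Y ^ (δ * m) := by
        rw [hb]
        beta_reduce
        rw [hsm, show δ * (m + 1) = δ + δ * m by ring, pow_add]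
        linear_combination (M.χ _ (TS g f (m + 1) (m + 1) m) * Y ^ (δ * m)) * hLYn δ
      rw [e1, e2, e3, if_neg (Nat.succ_ne_zero m), add_zero]
      obtain ⟨l, rfl⟩ : ∃ l, N = m + 1 + l := ⟨N - (m + 1), by omega⟩
      have e4 : m + 1 + l - m = l + 1 := by omega
      have e5 : m + 1 + l - (m + 1) = l := by omega
      have e6 : m + 1 + l + 1 - (m + 1) = l + 1 := by omega
      rw [e4, e5, e6]
      set t := M.χ _ (TS g f (m + 1) (m + 1) m) with ht
      rcases r with _ | r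
      · have hδ0 : Fintype.card σ = δ := by omega
        rw [hδ0, Nat.mul_succ, pow_add]
        ring
      · have e7 : (r + 1) * (m + 1 + l + 1) - (l + 1) = (r + 1) * (m + 1) + r * (l + 1) := by
          have : (r + 1) * (m + 1 + l + 1) = (r + 1) * (m + 1) + r * (l + 1) + (l + 1) := by ring
          rw [this, Nat.add_sub_cancel]
        rw [e7, hδ]
        have h1 := hLYn ((δ + (r + 1)) * l)
        have h2 := hLYn ((r + 1) * (m + 1))
        have h3 := hLYn (r * l)
        have h4 := hLYn δ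
        have h5 := hLYn r
        rw [show (δ + (r + 1)) * (l + 1) = (δ + (r + 1)) * l + (δ + (r + 1)) by ring,
          show (δ + (r + 1) + (r + 1)) * (m + 1 + l) = (δ + (r + 1)) * l + (r + 1) * (m + 1) +
            r * l + l + (δ * m + δ + (r + 1) * (m + 1)) by ring,
          show r * (l + 1) = r * l + r by ring]
        simp only [pow_add] at h1 h2 ⊢
        set a1 := L ^ ((δ + (r + 1)) * l)
        set a2 := Y ^ ((δ + (r + 1)) * l)
        set b1 := L ^ ((r + 1) * (m + 1))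
        set b2 := Y ^ ((r + 1) * (m + 1))
        set c1 := L ^ (r * l)
        set c2 := Y ^ (r * l)
        set d1 := L ^ δ
        set d2 := Y ^ δ
        have h6 : L ^ 1 = L := pow_one L
        rw [h6]
        linear_combination ((L - 1) * t * (L ^ r * L - 1) * L ^ r * Y ^ l * Y ^ (δ * m) * b2) *
          (a1 * a2 * b1 * b2 * c1 * c2 * h4 + a1 * a2 * b1 * b2 * h3 + a1 * a2 * h2 + h1) -
          ((L - 1) * t * (L ^ r * L - 1) * L ^ r * Y ^ l * Y ^ (δ * m) * b2) * hLY
  -- the coefficients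
  have hz : ∀ (k d : ℕ), PowerSeries.coeff d (zetaCX g f k) = if d = 0 then 0 else
        M.χ _ (JetCX g f k d) * Y ^ (δ * d) := by
    intro k d
    rw [zetaCX, PowerSeries.coeff_mk, zpow_neg, zpow_natCast, ← inv_pow,
      Units.val_pow_eq_pow_val, ← hM₀, hδ']
    rfl
  have hzF : ∀ d, PowerSeries.coeff d (zetaC (FS f g) k) = if d = 0 then 0 else
        M.χ _ (JetC (FS f g) k d) * Y ^ ((Fintype.card σ + r) * d) := by
    intro d
    rw [zetaC, PowerSeries.coeff_mk, zpow_neg, zpow_natCast, ← inv_pow,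
      Units.val_pow_eq_pow_val, ← hM₀, Fintype.card_sum, Fintype.card_fin]
    rfl
  have ha : ∀ d, PowerSeries.coeff d (PowerSeries.C (a0X g f) +
      PowerSeries.rescale (Y ^ r) (zetaCX g f 1)) = Y ^ (r * d) * A d := by
    intro d
    rw [map_add, PowerSeries.coeff_C, PowerSeries.coeff_rescale, hz]
    rcases d with _ | d
    · rw [if_pos rfl, if_pos rfl, mul_zero, add_zero, mul_zero, pow_zero, one_mul, a0X, ← hM₀, hA]
      beta_reduce
      rw [mul_zero, pow_zero, mul_one]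
      rfl
    · rw [if_neg (Nat.succ_ne_zero d), if_neg (Nat.succ_ne_zero d), zero_add, ← pow_mul]
  have hF : ∀ d, M.χ _ (JetC (FS f g) k d) * Y ^ ((Fintype.card σ + r) * d) =
      L ^ r * ((Y ^ r) ^ d * (M.χ _ (JetCX g f k d) * Y ^ (δ * d))) +
        (L - 1) * L ^ r * Y * ((L ^ r - 1) * (∑ m ∈ Finset.range (d + 1),
          Y ^ (r * m) * b m * Y ^ (d - m)) + Y ^ d * (L ^ Fintype.card σ - L ^ r * x)) := by
    intro d
    have h1 := chi_JetC_FS g f M k d
    rw [h1, add_mul, Finset.sum_mul, Finset.sum_congr rfl (hterm d), ← Finset.mul_sum,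
      Finset.sum_add_distrib, ← Finset.mul_sum, Finset.sum_ite_eq', if_pos (by simp), hML]
    congr 1
    rw [show r * (d + 1) = r * d + r by ring, hδ,
      show (δ + r + r) * d = δ * d + r * d + r * d by ring, pow_add, pow_add, pow_add, ← pow_mul]
    linear_combination (M.χ _ (JetCX g f k d) * L ^ r * Y ^ (δ * d) * Y ^ (r * d)) * hLYn (r * d)
  -- the series
  set B : PowerSeries (MK ℂ) := PowerSeries.mk fun d => Y ^ (r * d) * b d with hB
  have r2 : (1 - PowerSeries.C (Y ^ r) * PowerSeries.X) * B = PowerSeries.C x -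
      PowerSeries.C (Y ^ r) * PowerSeries.X * (PowerSeries.C (a0X g f) +
        PowerSeries.rescale (Y ^ r) (zetaCX g f 1)) := by
    ext d
    rcases d with _ | d
    · rw [coeff_zero_lin, hB, PowerSeries.coeff_mk, mul_zero, pow_zero, one_mul, hb0, map_sub,
        PowerSeries.coeff_C, if_pos rfl, mul_assoc, PowerSeries.coeff_C_mul,
        PowerSeries.coeff_zero_X_mul, mul_zero, sub_zero]
    · rw [coeff_succ_lin, hB, PowerSeries.coeff_mk, PowerSeries.coeff_mk, map_sub,
        PowerSeries.coeff_C, if_neg (Nat.succ_ne_zero d), mul_assoc, PowerSeries.coeff_C_mul,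
        PowerSeries.coeff_succ_X_mul, ha, hbs, show r * (d + 1) = r + r * d by ring, pow_add]
      ring
  have r3 : B = geoS (Y ^ r) * (PowerSeries.C x -
      PowerSeries.C (Y ^ r) * PowerSeries.X * (PowerSeries.C (a0X g f) +
        PowerSeries.rescale (Y ^ r) (zetaCX g f 1))) := by
    rw [← r2]
    have h1 := geoS_mul (Y ^ r)
    linear_combination (-B) * h1
  have r4 : zetaC (FS f g) k = PowerSeries.C (L ^ r) * PowerSeries.rescale (Y ^ r) (zetaCX g f k) +
      PowerSeries.C ((L - 1) * L ^ r * Y) * (PowerSeries.C (L ^ r - 1) * (B * geoS Y) +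
        PowerSeries.C (L ^ Fintype.card σ - L ^ r * x) * geoS Y) -
      PowerSeries.C ((L - 1) * L ^ r * Y * (L ^ Fintype.card σ - x)) := by
    ext d
    rw [map_sub, map_add, PowerSeries.coeff_C_mul, PowerSeries.coeff_C_mul, map_add,
      PowerSeries.coeff_C_mul, PowerSeries.coeff_C_mul, PowerSeries.coeff_rescale, hz, hzF,
      PowerSeries.coeff_C, PowerSeries.coeff_mul,
      Finset.Nat.sum_antidiagonal_eq_sum_range_succ_mk, hB, geoS, PowerSeries.coeff_mk]
    simp only [PowerSeries.coeff_mk]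
    rcases d with _ | d
    · rw [if_pos rfl, if_pos rfl, if_pos rfl]
      simp only [Nat.succ_eq_add_one, zero_add, Finset.sum_range_one, hb0, mul_zero, pow_zero,
        one_mul, mul_one, Nat.sub_self]
      ring
    · rw [if_neg (Nat.succ_ne_zero d), if_neg (Nat.succ_ne_zero d), if_neg (Nat.succ_ne_zero d),
        hF]
      ring
  rw [r4, r3]
  simp only [map_mul]
  ring

end Pool.Agent.Q221.Sm
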