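import Pool.Agent.Q221.Sm.Real

/-!
# The Taylor operators of a frame
-/

set_option autoImplicit false
set_option linter.unusedSectionVars false

namespace Pool.Agent.Q221.Sm

variable {A : Type} [CommRing A] [Algebra ℂ A] {r : ℕ} (g : Fin r → A)
  (δ : Fin r → Derivation ℂ A A)

/-- the algebra generated by the derivations `g_k δ_k` -/
def EE : Subalgebra ℂ (Module.End ℂ A) :=
  Algebra.adjoin ℂ (Set.range fun k => ((g k • δ k : Derivation ℂ A A) : A →ₗ[ℂ] A))

variable {g δ}

theorem EE_gen (k : Fin r) : ((g k • δ k : Derivation ℂ A A) : A →ₗ[ℂ] A) ∈ EE g δ :=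
  Algebra.subset_adjoin ⟨k, rfl⟩

theorem EE_comm (hδ : ∀ k l, δ k (g l) = if k = l then 1 else 0)
    (hc : ∀ k l a, δ k (δ l a) = δ l (δ k a)) {x y : Module.End ℂ A} (hx : x ∈ EE g δ)
    (hy : y ∈ EE g δ) : Commute x y := by
  refine Algebra.commute_of_mem_adjoin_of_forall_mem_commute hy ?_
  rintro _ ⟨k, rfl⟩
  refine (Algebra.commute_of_mem_adjoin_of_forall_mem_commute hx ?_).symm
  rintro _ ⟨l, rfl⟩
  ext a
  simp only [Module.End.mul_apply, Derivation.coeFn_coe, Derivation.smul_apply,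
    Derivation.leibniz, smul_eq_mul, hδ, hc k l]
  by_cases h : k = l
  · subst h
    simp
  · rw [if_neg h, if_neg (Ne.symm h)]
    ring

/-- derivations which preserve an ideal preserve its powers -/
theorem der_pow {I : Ideal A} {D : Derivation ℂ A A} (hD : ∀ a ∈ I, D a ∈ I) (m : ℕ) :
    ∀ a ∈ I ^ m, D a ∈ I ^ m := by
  induction m with
  | zero => intro a _; rw [pow_zero, Ideal.one_eq_top]; trivial
  | succ m ih =>
    intro a ha
    rw [pow_succ] at ha ⊢
    refine Submodule.mul_induction_on ha (fun x hx y hy => ?_) fun x y hx hy => ?_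
    · rw [Derivation.leibniz, smul_eq_mul, smul_eq_mul]
      refine Ideal.add_mem _ (Ideal.mul_mem_mul hx (hD y hy)) ?_
      rw [mul_comm y]
      exact Ideal.mul_mem_mul (ih x hx) hy
    · rw [map_add]
      exact Ideal.add_mem _ hx hy

theorem EE_pow {x : Module.End ℂ A} (hx : x ∈ EE g δ) (m : ℕ) :
    ∀ a ∈ Ideal.span (Set.range g) ^ m, x a ∈ Ideal.span (Set.range g) ^ m := by
  induction hx using Algebra.adjoin_induction with
  | mem x hx =>
    obtain ⟨k, rfl⟩ := hx
    intro a ha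
    have hg : g k ∈ Ideal.span (Set.range g) := Ideal.subset_span ⟨k, rfl⟩
    exact der_pow (D := g k • δ k) (fun b _ => Ideal.mul_mem_right _ _ hg) m a ha
  | algebraMap z =>
    intro a ha
    rw [Module.algebraMap_end_apply, Algebra.smul_def]
    exact Ideal.mul_mem_left _ _ ha
  | add x y _ _ hx hy =>
    intro a ha
    exact Ideal.add_mem _ (hx a ha) (hy a ha)
  | mul x y _ _ hx hy =>
    intro a ha
    exact hx _ (hy a ha)

theorem TT_mem_EE (hδ : ∀ k l, δ k (g l) = if k = l then 1 else 0) (k : Fin r) (L : ℕ) :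
    TT (g k) (δ k) L ∈ EE g δ := by
  have h1 : ∀ i, LinearMap.mulLeft ℂ (g k ^ i) * ((δ k : A →ₗ[ℂ] A)) ^ i ∈ EE g δ := by
    intro i
    induction i with
    | zero =>
      have : LinearMap.mulLeft ℂ (g k ^ 0) * ((δ k : A →ₗ[ℂ] A)) ^ 0 = 1 := by
        ext a
        simp
      rw [this]
      exact (EE g δ).one_mem
    | succ i ih =>
      rw [euler_pow (by rw [hδ, if_pos rfl]) i]
      exact (EE g δ).sub_mem ((EE g δ).mul_mem (EE_gen k) ih) ((EE g δ).smul_mem ih _)
  exact (EE g δ).sum_mem fun i _ => (EE g δ).smul_mem (h1 i) _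

theorem exists_T (hδ : ∀ k l, δ k (g l) = if k = l then 1 else 0)
    (hc : ∀ k l a, δ k (δ l a) = δ l (δ k a)) (L : ℕ) (S : Finset (Fin r)) :
    ∃ t ∈ EE g δ, (∀ a, t a - a ∈ Ideal.span (Set.range g)) ∧
      (∀ k ∈ S, ∀ a, t (g k * a) ∈ Ideal.span (Set.range g) ^ (L + 2)) ∧
      (∀ k ∈ S, ∀ a, g k * δ k (t a) ∈ Ideal.span (Set.range g) ^ (L + 2)) ∧
      ∀ k ∈ S, ∀ a, δ k (t a) ∈ Ideal.span (Set.range g) := by
  classical
  set I := Ideal.span (Set.range g) with hI
  have hg : ∀ k, g k ∈ I := fun k => Ideal.subset_span ⟨k, rfl⟩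
  induction S using Finset.induction_on with
  | empty =>
    exact ⟨1, (EE g δ).one_mem, fun a => by simp, by simp, by simp, by simp⟩
  | insert k S hk ih =>
    obtain ⟨t, ht, h1, h2, h3, h4⟩ := ih
    have hkk : δ k (g k) = 1 := by rw [hδ, if_pos rfl]
    have hT : TT (g k) (δ k) (L + 2) ∈ EE g δ := TT_mem_EE hδ k (L + 2)
    refine ⟨TT (g k) (δ k) (L + 2) * t, (EE g δ).mul_mem hT ht, ?_, ?_, ?_, ?_⟩
    · intro a
      obtain ⟨q, hq⟩ := TT_sub (g := g k) (δ := δ k) (L + 1) (t a)
      rw [Module.End.mul_apply, hq, add_sub_right_comm]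
      exact I.add_mem (h1 a) (I.mul_mem_right _ (hg k))
    · intro l hl a
      rcases Finset.mem_insert.1 hl with rfl | hl
      · rw [(EE_comm hδ hc hT ht).eq, Module.End.mul_apply, TT_mul hkk]
        refine EE_pow ht (L + 2) _ ?_
        rw [Algebra.smul_def]
        exact Ideal.mul_mem_left _ _ (Ideal.mul_mem_right _ _ (Ideal.pow_mem_pow (hg l) _))
      · rw [Module.End.mul_apply]
        exact EE_pow hT (L + 2) _ (h2 l hl a)
    · intro l hl a
      rcases Finset.mem_insert.1 hl with rfl | hl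
      · rw [Module.End.mul_apply, δ_TT hkk, mul_smul_comm, ← mul_assoc, ← pow_succ',
          Algebra.smul_def]
        exact Ideal.mul_mem_left _ _ (Ideal.mul_mem_right _ _ (Ideal.pow_mem_pow (hg l) _))
      · have h5 : g l * δ l ((TT (g k) (δ k) (L + 2) * t) a) =
            TT (g k) (δ k) (L + 2) (g l * δ l (t a)) := by
          have h6 := congrArg (fun x : Module.End ℂ A => x (t a))
            (EE_comm hδ hc (EE_gen (g := g) (δ := δ) l) hT).eq
          exact h6
        rw [h5]
        exact EE_pow hT (L + 2) _ (h3 l hl a)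
    · intro l hl a
      rcases Finset.mem_insert.1 hl with rfl | hl
      · rw [Module.End.mul_apply, δ_TT hkk, pow_succ' (g l) L, Algebra.smul_def]
        exact Ideal.mul_mem_left _ _ (Ideal.mul_mem_right _ _ (Ideal.mul_mem_right _ _ (hg l)))
      · have hlk : l ≠ k := fun h => hk (h ▸ hl)
        rw [Module.End.mul_apply, TT_comm (by rw [hδ, if_neg hlk]) (hc l k)]
        have h5 := EE_pow hT 1 (δ l (t a)) (by rw [pow_one]; exact h4 l hl a)
        rwa [pow_one] at h5

end Pool.Agent.Q221.Sm
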