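import Pool.Agent.Q221.Sm.SerX

/-!
# The twisted topological zeta functions of `f + ∑ y_k g_k`
-/

set_option autoImplicit false
set_option linter.unusedSectionVars false

namespace Pool.Agent.Q221.Sm

open Pool.Agent.W428.MOT Pool.Agent.TH192.MT Pool.Agent.TH192.MU
open Pool.Agent.Q223.ID Pool.Agent.Q223.TW

/-! ### Specialisation -/

section spec

variable {R : Type} [CommRing R] [IsDomain R] {u : Rˣ} {ε : R →+* ℂ}

theorem specAt_rescale_pow (r : ℕ) : ∀ {A : PowerSeries R} {s : ℕ} {c : ℂ},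
    SpecAt u ε A (s + r) c →
      SpecAt u ε (PowerSeries.rescale (((u⁻¹ : Rˣ) : R) ^ r) A) s c := by
  induction r with
  | zero =>
    intro A s c h
    rw [pow_zero]
    have h1 : PowerSeries.rescale (1 : R) A = A := by
      rw [PowerSeries.rescale_one, RingHom.id_apply]
    rw [h1]
    exact h
  | succ r ih =>
    intro A s c h
    have h1 : SpecAt u ε A (s + 1 + r) c := by
      have e : s + (r + 1) = s + 1 + r := by ring
      rwa [e] at h
    have h2 := specAt_rescale (ih h1)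
    rw [PowerSeries.rescale_rescale] at h2
    rwa [pow_succ]

/-- the series `(L ^ r - 1) / (1 - L ^ (-r) T)` -/
noncomputable def gLr (u : Rˣ) (r : ℕ) : PowerSeries R :=
  PowerSeries.C ((u : R) ^ r - 1) * geoS (((u⁻¹ : Rˣ) : R) ^ r)

theorem specAt_gLr (h1 : ε (u : R) = 1) (hu : (u : R) ≠ 1) {r s : ℕ} (hs : 0 < s + r) :
    SpecAt u ε (gLr u r) s ((r : ℂ) / ((s : ℂ) + r)) := by
  set v : R := ((u⁻¹ : Rˣ) : R) with hv
  set w : R := (((u⁻¹) ^ s : Rˣ) : R) with hw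
  have huinv : (u : R) * ((u⁻¹ : Rˣ) : R) = 1 := Units.mul_inv u
  have hvw : v ^ r * w * (u : R) ^ (s + r) = 1 := by
    rw [hv, hw, Units.val_pow_eq_pow_val, ← pow_add, add_comm r s, ← mul_pow, mul_comm, huinv,
      one_pow]
  have e2 : 1 - v ^ r * w = v ^ r * w * (((u : R) - 1) * G (u : R) (s + r)) := by
    rw [G_mul]
    linear_combination -hvw
  have hs1 : ((s : ℂ) + r) ≠ 0 := by exact_mod_cast hs.ne'
  have hG0 : G (u : R) (s + r) ≠ 0 := by
    intro h0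
    have := G_eps ε h1 (s + r)
    rw [h0, map_zero] at this
    apply hs1
    push_cast at this
    exact this.symm
  have hvw0 : v ^ r * w ≠ 0 := fun h => by
    rw [h, zero_mul] at hvw
    exact zero_ne_one hvw
  have hεvw : ε (v ^ r * w) = 1 := by
    have := congrArg ε hvw
    rwa [map_mul, map_pow, h1, one_pow, mul_one, map_one] at this
  refine ⟨Polynomial.C ((u : R) ^ r - 1), 1 - Polynomial.C (v ^ r) * Polynomial.X, G (u : R) r,
    v ^ r * w * G (u : R) (s + r), ?_, ?_, ?_, ?_, ?_⟩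
  · rw [Polynomial.coe_sub, Polynomial.coe_one, Polynomial.coe_mul, Polynomial.coe_C,
      Polynomial.coe_X, Polynomial.coe_C, gLr, mul_left_comm, geoS_mul, mul_one]
  · rw [Polynomial.eval_sub, Polynomial.eval_one, Polynomial.eval_mul, Polynomial.eval_C,
      Polynomial.eval_X, e2]
    exact mul_ne_zero hvw0 (mul_ne_zero (sub_ne_zero.2 hu) hG0)
  · rw [Polynomial.eval_C, Polynomial.eval_sub, Polynomial.eval_one, Polynomial.eval_mul,
      Polynomial.eval_C, Polynomial.eval_X, e2, ← G_mul]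
    ring
  · rw [map_mul, hεvw, one_mul, G_eps ε h1]
    push_cast
    exact hs1
  · rw [map_mul, hεvw, one_mul, G_eps ε h1, G_eps ε h1]
    push_cast
    field_simp

end spec

section spec2

variable {R : Type} [CommRing R] [IsDomain R] (E : MK ℂ →+* R) (ε : R →+* ℂ)

theorem specAt_FS (h1 : ε (E ((Lu ℂ : (MK ℂ)ˣ) : MK ℂ)) = 1)
    (hu : E ((Lu ℂ : (MK ℂ)ˣ) : MK ℂ) ≠ 1) {σ : Type} [Fintype σ] {r : ℕ}
    {g : Fin r → MvPolynomial σ ℂ} (hg : IsCI g) (hr : r ≤ Fintype.card σ)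
    (f : MvPolynomial σ ℂ) (k : ℕ) {s : ℕ} (hs : 0 < s + r)
    (c c' : ℂ)
    (hc : SpecAt (Units.map (E : MK ℂ →* R) (Lu ℂ)) ε (PowerSeries.map E (zetaCX g f k))
      (s + r) c)
    (hc' : SpecAt (Units.map (E : MK ℂ →* R) (Lu ℂ)) ε (PowerSeries.map E (zetaCX g f 1))
      (s + r) c') :
    SpecAt (Units.map (E : MK ℂ →* R) (Lu ℂ)) ε (PowerSeries.map E (zetaC (FS f g) k)) s
      (c + 1 / ((s : ℂ) + 1) * ((1 - ε (E (cX g f))) + (r : ℂ) / ((s : ℂ) + r) *
        (ε (E (cX g f)) - (ε (E (a0X g f)) + c')))) := by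
  set u : Rˣ := Units.map (E : MK ℂ →* R) (Lu ℂ) with hudef
  have hu0 : (u : R) = E ((Lu ℂ : (MK ℂ)ˣ) : MK ℂ) := rfl
  have hui : ((u⁻¹ : Rˣ) : R) = E (((Lu ℂ)⁻¹ : (MK ℂ)ˣ) : MK ℂ) := rfl
  have h1' : ε (u : R) = 1 := h1
  have hu' : (u : R) ≠ 1 := hu
  have hεi : ε ((u⁻¹ : Rˣ) : R) = 1 := by
    have := congrArg ε (Units.mul_inv u)
    rwa [map_mul, h1', one_mul, map_one] at this
  have key : PowerSeries.map E (zetaC (FS f g) k) =
      PowerSeries.C ((u : R) ^ r) *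
        PowerSeries.rescale (((u⁻¹ : Rˣ) : R) ^ r) (PowerSeries.map E (zetaCX g f k)) +
      gL u * (PowerSeries.C ((u : R) ^ r * ((u⁻¹ : Rˣ) : R)) *
        (PowerSeries.C ((u : R) ^ Fintype.card σ - (u : R) ^ r * E (cX g f)) +
          gLr u r * (PowerSeries.C (E (cX g f)) - PowerSeries.C (((u⁻¹ : Rˣ) : R) ^ r) *
            PowerSeries.X * (PowerSeries.C (E (a0X g f)) +
              PowerSeries.rescale (((u⁻¹ : Rˣ) : R) ^ r) (PowerSeries.map E (zetaCX g f 1)))))) -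
      PowerSeries.C (((u : R) - 1) * (u : R) ^ r * ((u⁻¹ : Rˣ) : R) *
        ((u : R) ^ Fintype.card σ - E (cX g f))) := by
    rw [zetaC_FS hg hr]
    simp only [map_mul, map_add, map_sub, map_pow, map_one, PowerSeries.map_C, PowerSeries.map_X,
      map_geoS, map_rescale', ← hu0, ← hui, gL, gLr]
  rw [key]
  have t1 := specAt_mul (specAt_C (u := u) (ε := ε) ((u : R) ^ r) s) (specAt_rescale_pow r hc)
  have t2 := specAt_gL (u := u) (ε := ε) h1' hu' s
  have t2' := specAt_gLr (u := u) (ε := ε) h1' hu' hs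
  have t3 := specAt_sub (specAt_C (u := u) (ε := ε) (E (cX g f)) s)
    (specAt_mul (specAt_mul (specAt_C (u := u) (ε := ε) (((u⁻¹ : Rˣ) : R) ^ r) s)
      (specAt_X h1' s)) (specAt_add (specAt_C (u := u) (ε := ε) (E (a0X g f)) s)
        (specAt_rescale_pow r hc')))
  have t5 := specAt_add (specAt_C (u := u) (ε := ε) ((u : R) ^ Fintype.card σ -
    (u : R) ^ r * E (cX g f)) s) (specAt_mul t2' t3)
  have t4 := specAt_sub (specAt_add t1 (specAt_mul t2
    (specAt_mul (specAt_C (u := u) (ε := ε) ((u : R) ^ r * ((u⁻¹ : Rˣ) : R)) s) t5)))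
    (specAt_C (u := u) (ε := ε) (((u : R) - 1) * (u : R) ^ r * ((u⁻¹ : Rˣ) : R) *
        ((u : R) ^ Fintype.card σ - E (cX g f))) s)
  refine (congrArg (SpecAt u ε _ s) ?_).mp t4
  simp only [map_mul, map_pow, map_sub, map_one, h1', hεi, one_pow, one_mul, mul_one, sub_self,
    zero_mul, sub_zero]

end spec2

/-! ### Rational functions -/

section rat

open Polynomial

/-- the shift `Z(s) ↦ Z(s + r)` -/
noncomputable def shr (r : ℂ) : RatFunc ℂ →+* RatFunc ℂ :=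
  RatFunc.mapRingHom (compRingHom (X + C r)) (by
    intro p hp
    rw [mem_nonZeroDivisors_iff_ne_zero] at hp
    rw [Submonoid.mem_comap, mem_nonZeroDivisors_iff_ne_zero]
    exact comp_shift_ne hp r)

theorem shr_apply (r : ℂ) (Z : RatFunc ℂ) : shr r Z =
    algebraMap ℂ[X] (RatFunc ℂ) (Z.num.comp (X + C r)) /
      algebraMap ℂ[X] (RatFunc ℂ) (Z.denom.comp (X + C r)) := by
  unfold shr
  rw [RatFunc.coe_mapRingHom_eq_coe_map, RatFunc.map_apply]
  rfl

theorem hasVal_shr {r : ℂ} {Z : RatFunc ℂ} {a c : ℂ} (h : HasVal Z (a + r) c) :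
    HasVal (shr r Z) a c := by
  obtain ⟨h1, h2⟩ := hasVal_iff.1 h
  refine ⟨Z.num.comp (X + C r), Z.denom.comp (X + C r), ?_, ?_, ?_⟩
  · rw [shr_apply, div_mul_cancel₀ _ (alg_ne (comp_shift_ne Z.denom_ne_zero r))]
  · rw [eval_comp, eval_add, eval_X, eval_C]
    exact h1
  · rw [eval_comp, eval_comp, eval_add, eval_X, eval_C]
    exact h2

theorem pole_shr {r : ℂ} {Z : RatFunc ℂ} {a : ℂ} (h : Z.denom.eval (a + r) = 0) :
    (shr r Z).denom.eval a = 0 := by
  have h1 := num_denom_rel (Z.num.comp (X + C r)) (Z.denom.comp (X + C r))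
    (comp_shift_ne Z.denom_ne_zero r)
  rw [← shr_apply] at h1
  have h2 := congrArg (Polynomial.eval a) h1
  rw [eval_mul, eval_mul, eval_comp, eval_comp, eval_add, eval_X, eval_C, h, mul_zero,
    mul_eq_zero] at h2
  exact h2.resolve_left (num_ne h)

/-- the function `r / (s + r)` -/
noncomputable def Wf (r : ℂ) : RatFunc ℂ :=
  algebraMap ℂ[X] (RatFunc ℂ) (C r) * (algebraMap ℂ[X] (RatFunc ℂ) (X + C r))⁻¹

theorem Wf_mul (r : ℂ) : Wf r * algebraMap ℂ[X] (RatFunc ℂ) (X + C r) =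
    algebraMap ℂ[X] (RatFunc ℂ) (C r) := by
  rw [Wf, mul_assoc, inv_mul_cancel₀ (alg_ne (X_add_C_ne_zero r)), mul_one]

theorem hasVal_Wf {r a : ℂ} (h : a + r ≠ 0) : HasVal (Wf r) a (r / (a + r)) := by
  refine ⟨C r, X + C r, Wf_mul r, ?_, ?_⟩
  · rw [eval_add, eval_X, eval_C]
    exact h
  · rw [eval_C, eval_add, eval_X, eval_C]
    field_simp

variable {R : Type} [CommRing R] [IsDomain R] (E : MK ℂ →+* R) (ε : R →+* ℂ)

/-- the contribution of `y_k ≠ 0` -/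
noncomputable def Qf {σ : Type} [Fintype σ] {r : ℕ} (g : Fin r → MvPolynomial σ ℂ)
    (f : MvPolynomial σ ℂ) (Y1 : RatFunc ℂ) : RatFunc ℂ :=
  Wf 1 * (algebraMap ℂ[X] (RatFunc ℂ) (C (1 - ε (E (cX g f)))) +
    Wf r * (algebraMap ℂ[X] (RatFunc ℂ) (C (ε (E (cX g f)) - ε (E (a0X g f)))) - shr r Y1))

/-- the topological zeta functions of the covers for `f + ∑ y_k g_k` -/
theorem isTop_FS (h1 : ε (E ((Lu ℂ : (MK ℂ)ˣ) : MK ℂ)) = 1)
    (hu : E ((Lu ℂ : (MK ℂ)ˣ) : MK ℂ) ≠ 1) {σ : Type} [Fintype σ] {r : ℕ}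
    {g : Fin r → MvPolynomial σ ℂ} (hg : IsCI g) (hr : r ≤ Fintype.card σ)
    (f : MvPolynomial σ ℂ) (k : ℕ)
    {Y Y1 : RatFunc ℂ} (hY : IsTopZeta E ε (zetaCX g f k) Y)
    (hY1 : IsTopZeta E ε (zetaCX g f 1) Y1) :
    IsTopZeta E ε (zetaC (FS f g) k) (shr r Y + Qf E ε g f Y1) := by
  rw [isTop_iff] at hY hY1 ⊢
  intro s hs
  have hsr : 0 < s + r := by omega
  obtain ⟨c, hc, hv⟩ := hY (s + r) hsr
  obtain ⟨c', hc', hv'⟩ := hY1 (s + r) hsr
  push_cast at hv hv'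
  refine ⟨_, specAt_FS E ε h1 hu hg hr f k hsr c c' hc hc', ?_⟩
  have hs1 : ((s : ℂ) + 1) ≠ 0 := by exact_mod_cast Nat.succ_ne_zero s
  have hs2 : ((s : ℂ) + r) ≠ 0 := by exact_mod_cast hsr.ne'
  have h2 := (hasVal_shr hv).add ((hasVal_Wf hs1).mul
    ((hasVal_C (1 - ε (E (cX g f))) (s : ℂ)).add ((hasVal_Wf hs2).mul
      ((hasVal_C (ε (E (cX g f)) - ε (E (a0X g f))) (s : ℂ)).sub (hasVal_shr hv')))))
  refine (congrArg (HasVal _ (s : ℂ)) ?_).mp h2
  ring

/-- **The twisted topological zeta function of `f + ∑ y_k g_k`.** -/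
theorem twisted_FS (h1 : ε (E ((Lu ℂ : (MK ℂ)ˣ) : MK ℂ)) = 1)
    (hu : E ((Lu ℂ : (MK ℂ)ˣ) : MK ℂ) ≠ 1) {σ : Type} [Fintype σ] {r : ℕ}
    {g : Fin r → MvPolynomial σ ℂ} (hg : IsCI g) (hr : r ≤ Fintype.card σ)
    (f : MvPolynomial σ ℂ) {e : ℕ}
    {Z : RatFunc ℂ} (hZ : IsTwistedTopX E ε g f e Z) :
    ∃ Z', IsTwistedTop E ε (FS f g) e Z' ∧
      ∀ s₀ : ℂ, s₀ ≠ r → s₀ ≠ -1 → Z.denom.eval s₀ = 0 →
        Z'.denom.eval (s₀ - r) = 0 := by
  obtain ⟨Y, hY, hZY⟩ := hZ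
  set Q : RatFunc ℂ := Qf E ε g f (Y 1) with hQ
  refine ⟨shr r Z + (if e = 1 then 1 else 0) * Q, ⟨fun k => shr r (Y k) + Q,
    fun k hk => isTop_FS E ε h1 hu hg hr f k (hY k hk) (hY 1 (one_dvd e)), ?_⟩, ?_⟩
  · have h2 : ∑ q ∈ e.divisorsAntidiagonal, ((ArithmeticFunction.moebius q.1 : ℤ) : RatFunc ℂ) *
        (shr r (Y q.2) + Q) = shr r (∑ q ∈ e.divisorsAntidiagonal,
          ((ArithmeticFunction.moebius q.1 : ℤ) : RatFunc ℂ) * Y q.2) +
        (∑ q ∈ e.divisorsAntidiagonal, ((ArithmeticFunction.moebius q.1 : ℤ) : RatFunc ℂ)) *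
          Q := by
      rw [map_sum, Finset.sum_mul, ← Finset.sum_add_distrib]
      refine Finset.sum_congr rfl fun q _ => ?_
      rw [map_mul, map_intCast]
      ring
    beta_reduce
    rw [h2, sum_moebius e, ← hZY, map_mul, map_natCast, mul_add]
    congr 1
    split_ifs with h3
    · subst h3
      simp
    · simp
  · intro s₀ hs0 hs2 hp
    have hps : (shr r Z).denom.eval (s₀ - r) = 0 := pole_shr (by rw [sub_add_cancel]; exact hp)
    by_cases h3 : e = 1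
    · subst h3
      have hZ1 : Z = Y 1 := by
        rw [Nat.totient_one, Nat.cast_one, one_mul] at hZY
        rw [hZY]
        simp
      rw [if_pos rfl, one_mul]
      by_contra hne
      have hreg : HasVal (shr r Z + Q) (s₀ - r)
          ((shr r Z + Q).num.eval (s₀ - r) / (shr r Z + Q).denom.eval (s₀ - r)) :=
        hasVal_iff.2 ⟨hne, (div_mul_cancel₀ _ hne).symm⟩
      obtain ⟨p, q, e1, e2, -⟩ := hreg
      -- multiply with `(X + 1) (X + r)`
      have e3 : shr r Z * algebraMap ℂ[X] (RatFunc ℂ) (((X + C 1) * (X + C (r : ℂ)) -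
          C (r : ℂ)) * q) =
          algebraMap ℂ[X] (RatFunc ℂ) (p * ((X + C 1) * (X + C (r : ℂ))) -
            (C (1 - ε (E (cX g f))) * (X + C (r : ℂ)) +
              C (r : ℂ) * C (ε (E (cX g f)) - ε (E (a0X g f)))) * q) := by
        have h4 := Wf_mul 1
        have h5 := Wf_mul (r : ℂ)
        have h6 : algebraMap ℂ[X] (RatFunc ℂ) (C 1) = 1 := by rw [C_1, map_one]
        rw [h6] at h4
        rw [hQ, Qf, ← hZ1] at e1
        generalize (X + C 1 : ℂ[X]) = a at h4 ⊢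
        generalize (X + C (r : ℂ) : ℂ[X]) = b at h5 ⊢
        rw [map_mul, map_sub, map_mul, map_sub, map_mul, ← e1, map_mul, map_mul, map_add, map_mul,
          map_mul]
        generalize algebraMap ℂ[X] (RatFunc ℂ) a = a at h4 ⊢
        generalize algebraMap ℂ[X] (RatFunc ℂ) b = b at h5 ⊢
        generalize algebraMap ℂ[X] (RatFunc ℂ) (C (r : ℂ)) = c at h5 ⊢
        generalize algebraMap ℂ[X] (RatFunc ℂ) (C (1 - ε (E (cX g f)))) = d
        generalize algebraMap ℂ[X] (RatFunc ℂ) (C (ε (E (cX g f)) - ε (E (a0X g f)))) = d'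
        generalize algebraMap ℂ[X] (RatFunc ℂ) q = q'
        linear_combination (-(q' * (d * b + c * (d' - shr r Z)))) * h4 -
          (q' * Wf 1 * a * (d' - shr r Z)) * h5
      have e4 : (((X + C 1) * (X + C (r : ℂ)) - C (r : ℂ)) * q : ℂ[X]).eval (s₀ - r) ≠ 0 := by
        rw [eval_mul, eval_sub, eval_mul, eval_add, eval_add, eval_X, eval_C, eval_C]
        refine mul_ne_zero ?_ e2
        intro h5
        have h6 : (s₀ - r) * (s₀ + 1) = 0 := by linear_combination h5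
        rcases mul_eq_zero.1 h6 with h7 | h7
        · exact hs0 (sub_eq_zero.1 h7)
        · exact hs2 (eq_neg_of_add_eq_zero_left h7)
      exact (hasVal_iff.1 (⟨_, _, e3, e4, (div_mul_cancel₀ _ e4).symm⟩ :
        HasVal (shr r Z) (s₀ - r) ((p * ((X + C 1) * (X + C (r : ℂ))) -
            (C (1 - ε (E (cX g f))) * (X + C (r : ℂ)) +
              C (r : ℂ) * C (ε (E (cX g f)) - ε (E (a0X g f)))) * q).eval (s₀ - r) /
          (((X + C 1) * (X + C (r : ℂ)) - C (r : ℂ)) * q : ℂ[X]).eval (s₀ - r)))).1 hps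
    · rw [if_neg h3, zero_mul, add_zero]
      exact hps

/-- no poles at positive integers -/
theorem twistedX_pos {σ : Type} [Fintype σ] {r : ℕ} {g : Fin r → MvPolynomial σ ℂ}
    {f : MvPolynomial σ ℂ} {e : ℕ} (he : 0 < e) {Z : RatFunc ℂ}
    (hZ : IsTwistedTopX E ε g f e Z) {k : ℕ} (hk : 0 < k) : Z.denom.eval (k : ℂ) ≠ 0 := by
  obtain ⟨Y, hY, hZY⟩ := hZ
  have h1 : ∀ s : Finset (ℕ × ℕ), (∀ q ∈ s, q.2 ∣ e) → ∃ c, HasVal (∑ q ∈ s,
      ((ArithmeticFunction.moebius q.1 : ℤ) : RatFunc ℂ) * Y q.2) (k : ℂ) c := by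
    classical
    intro s hs
    induction s using Finset.induction_on with
    | empty =>
      refine ⟨0, 0, 1, ?_, ?_, ?_⟩
      · rw [Finset.sum_empty, map_zero, zero_mul]
      · rw [Polynomial.eval_one]
        exact one_ne_zero
      · rw [Polynomial.eval_zero, zero_mul]
    | insert q s hq ih =>
      obtain ⟨c, hc⟩ := ih fun q' hq' => hs q' (Finset.mem_insert_of_mem hq')
      obtain ⟨c', -, hc'⟩ := (isTop_iff E ε).1 (hY q.2 (hs q (Finset.mem_insert_self _ _))) k hk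
      rw [Finset.sum_insert hq]
      have h2 := hasVal_C ((ArithmeticFunction.moebius q.1 : ℤ) : ℂ) (k : ℂ)
      have h3 : algebraMap (Polynomial ℂ) (RatFunc ℂ)
          (Polynomial.C ((ArithmeticFunction.moebius q.1 : ℤ) : ℂ)) =
          ((ArithmeticFunction.moebius q.1 : ℤ) : RatFunc ℂ) := by
        rw [map_intCast, map_intCast]
      rw [h3] at h2
      exact ⟨_, (h2.mul hc').add hc⟩
  obtain ⟨c, p, q, e1, e2, -⟩ := h1 e.divisorsAntidiagonal fun q hq =>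
    Dvd.intro_left q.1 (Nat.mem_divisorsAntidiagonal.1 hq).1
  rw [← hZY] at e1
  have hφ : ((Nat.totient e : ℕ) : ℂ) ≠ 0 := by
    have h2 : 0 < Nat.totient e := Nat.totient_pos.2 he
    exact_mod_cast h2.ne'
  have e3 : Z * algebraMap (Polynomial ℂ) (RatFunc ℂ) (Polynomial.C ((Nat.totient e : ℕ) : ℂ) * q) =
      algebraMap (Polynomial ℂ) (RatFunc ℂ) p := by
    rw [← e1, map_mul, map_natCast, map_natCast]
    ring
  have e4 : (Polynomial.C ((Nat.totient e : ℕ) : ℂ) * q).eval (k : ℂ) ≠ 0 := by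
    rw [Polynomial.eval_mul, Polynomial.eval_C]
    exact mul_ne_zero hφ e2
  exact (hasVal_iff.1 (⟨_, _, e3, e4, (div_mul_cancel₀ _ e4).symm⟩ :
    HasVal Z k (p.eval (k : ℂ) / (Polynomial.C ((Nat.totient e : ℕ) : ℂ) * q).eval (k : ℂ)))).1

end rat

end Pool.Agent.Q221.Sm
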